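import Pool.Agent.H77.AM.Df
import Pool.Agent.H77.ST.Ba1

/-!
# Ad: orthogonal sums of Haar unitaries of corners

For `a` in the corner of `e` and `b` in the corner of `f` with `e * f = 0`, `f * e = 0`:
`a * b = a * e * f * b = 0` and so on, `(a + b)^m = a^m + b^m` for `m ≥ 1`.
-/

open Filter Topology

namespace AM

open SC ST

variable {N : Type*} [CStarAlgebra N] {τ : N →ₗ[ℂ] ℂ} {U : Ultrafilter ℕ}

theorem orth_mul {e f x y : N} (hef : e * f = 0) (hx : x * e = x) (hy : f * y = y) :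
    x * y = 0 := by
  calc x * y = (x * e) * (f * y) := by rw [hx, hy]
    _ = x * (e * f) * y := by noncomm_ring
    _ = 0 := by rw [hef, mul_zero, zero_mul]

theorem cunit_self {e a : N} (ha : a ∈ CUnit e) : star e = e := by
  obtain ⟨-, -, h3, -⟩ := ha
  rw [← h3, star_mul, star_star]

theorem cunit_add {e f a b : N} (hef : e * f = 0) (hfe : f * e = 0) (ha : a ∈ CUnit e)
    (hb : b ∈ CUnit f) : a + b ∈ CUnit (e + f) := by
  have hse := cunit_self ha
  have hsf := cunit_self hb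
  obtain ⟨a1, a2, a3, a4⟩ := ha
  obtain ⟨b1, b2, b3, b4⟩ := hb
  have sa1 : star a * e = star a := by
    have := congrArg star a1
    rwa [star_mul, hse] at this
  have sa2 : e * star a = star a := by
    have := congrArg star a2
    rwa [star_mul, hse] at this
  have sb1 : star b * f = star b := by
    have := congrArg star b1
    rwa [star_mul, hsf] at this
  have sb2 : f * star b = star b := by
    have := congrArg star b2
    rwa [star_mul, hsf] at this
  have heb : e * b = 0 := by rw [← b1, ← mul_assoc, hef, zero_mul]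
  have hfa : f * a = 0 := by rw [← a1, ← mul_assoc, hfe, zero_mul]
  have haf : a * f = 0 := by rw [← a2, mul_assoc, hef, mul_zero]
  have hbe : b * e = 0 := by rw [← b2, mul_assoc, hfe, mul_zero]
  have h1 : star a * b = 0 := orth_mul hef sa1 b1
  have h2 : star b * a = 0 := orth_mul hfe sb1 a1
  have h3 : a * star b = 0 := orth_mul hef a2 sb2
  have h4 : b * star a = 0 := orth_mul hfe b2 sa2
  refine ⟨?_, ?_, ?_, ?_⟩
  · rw [add_mul, mul_add, mul_add, a1, b1, heb, hfa, add_zero, zero_add]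
  · rw [add_mul, mul_add, mul_add, a2, b2, haf, hbe, add_zero, zero_add]
  · rw [star_add, add_mul, mul_add, mul_add, h1, h2, a3, b3, add_zero, zero_add]
  · rw [star_add, add_mul, mul_add, mul_add, h3, h4, a4, b4, add_zero, zero_add]

theorem pow_add_orth {e f a b : N} (hef : e * f = 0) (hfe : f * e = 0) (ha : a ∈ CUnit e)
    (hb : b ∈ CUnit f) (m : ℕ) (hm : 1 ≤ m) : (a + b) ^ m = a ^ m + b ^ m := by
  obtain ⟨a1, a2, -, -⟩ := ha
  obtain ⟨b1, b2, -, -⟩ := hb
  have hab : a * b = 0 := orth_mul hef a2 b1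
  have hba : b * a = 0 := orth_mul hfe b2 a1
  induction m, hm using Nat.le_induction with
  | base => simp
  | succ k hk ih =>
    obtain ⟨j, rfl⟩ : ∃ j, k = j + 1 := ⟨k - 1, by omega⟩
    have h1 : a ^ (j + 1) * b = 0 := by rw [pow_succ, mul_assoc, hab, mul_zero]
    have h2 : b ^ (j + 1) * a = 0 := by rw [pow_succ, mul_assoc, hba, mul_zero]
    rw [pow_succ (a + b) (j + 1), ih, add_mul, mul_add, mul_add, h1, h2, add_zero, zero_add,
      ← pow_succ, ← pow_succ]

theorem chaar_add {e f a b : N} (hef : e * f = 0) (hfe : f * e = 0) (ha : a ∈ CHaar τ e)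
    (hb : b ∈ CHaar τ f) : a + b ∈ CHaar τ (e + f) := by
  refine ⟨cunit_add hef hfe ha.1 hb.1, fun m hm => ?_⟩
  rw [pow_add_orth hef hfe ha.1 hb.1 m hm, map_add, ha.2 m hm, hb.2 m hm, add_zero]

theorem cunit_one_iff {w : N} : w ∈ CUnit (1 : N) ↔ w ∈ unitary N := by
  rw [Unitary.mem_iff]
  constructor
  · rintro ⟨-, -, h3, h4⟩
    exact ⟨h3, h4⟩
  · rintro ⟨h3, h4⟩
    exact ⟨one_mul w, mul_one w, h3, h4⟩

theorem chaar_one : CHaar τ (1 : N) = Haar τ := by
  ext w
  constructor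
  · rintro ⟨h1, h2⟩
    exact ⟨cunit_one_iff.1 h1, h2⟩
  · rintro ⟨h1, h2⟩
    exact ⟨cunit_one_iff.2 h1, h2⟩

theorem chaarSeq_one {w : ℕ → N} : CHaarSeq τ U (1 : N) w ↔ HaarSeq τ U w := by
  constructor
  · rintro ⟨h1, h2⟩
    exact ⟨fun k => cunit_one_iff.1 (h1 k), h2⟩
  · rintro ⟨h1, h2⟩
    exact ⟨fun k => cunit_one_iff.2 (h1 k), h2⟩

theorem cpath_one {n : ℕ} {u v : N} : CPath τ U (1 : N) n u v ↔ Path τ U n u v := by
  constructor
  · rintro ⟨w, h0, h1, h2, h3⟩
    exact ⟨w, h0, h1, fun i hi => chaarSeq_one.1 (h2 i hi), h3⟩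
  · rintro ⟨w, h0, h1, h2, h3⟩
    exact ⟨w, h0, h1, fun i hi => chaarSeq_one.2 (h2 i hi), h3⟩

theorem chaarSeq_add {e f : N} (hef : e * f = 0) (hfe : f * e = 0) {w : ℕ → N} {b : N}
    (hw : CHaarSeq τ U e w) (hb : b ∈ CHaar τ f) :
    CHaarSeq τ U (e + f) (fun k => w k + b) := by
  refine ⟨fun k => cunit_add hef hfe (hw.1 k) hb.1, fun m hm => ?_⟩
  have h := hw.2 m hm
  refine h.congr (fun k => ?_)
  rw [pow_add_orth hef hfe (hw.1 k) hb.1 m hm, map_add, hb.2 m hm, add_zero]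

/-- add a fixed orthogonal Haar unitary `b` to all members of a path -/
theorem cpath_add {e f : N} (hef : e * f = 0) (hfe : f * e = 0) {n : ℕ} {a a' b : N}
    (hp : CPath τ U e n a a') (hb : b ∈ CHaar τ f) : CPath τ U (e + f) n (a + b) (a' + b) := by
  obtain ⟨w, h0, h1, h2, h3⟩ := hp
  refine ⟨fun i k => w i k + b, ?_, ?_, fun i hi => chaarSeq_add hef hfe (h2 i hi) hb,
    fun i hi => ?_⟩
  · funext k
    show w 0 k + b = a + b
    rw [h0]
  · funext k
    show w (n + 1) k + b = a' + b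
    rw [h1]
  · refine (h3 i hi).congr (fun k => ?_)
    obtain ⟨x1, x2, -, -⟩ := (h2 i (by omega)).1 k
    obtain ⟨y1, y2, -, -⟩ := (h2 (i + 1) (by omega)).1 k
    obtain ⟨⟨b1, b2, -, -⟩, -⟩ := hb
    have hxb : w i k * b = 0 := orth_mul hef x2 b1
    have hbx : b * w i k = 0 := orth_mul hfe b2 x1
    have hyb : w (i + 1) k * b = 0 := orth_mul hef y2 b1
    have hby : b * w (i + 1) k = 0 := orth_mul hfe b2 y1
    have : (w i k + b) * (w (i + 1) k + b) - (w (i + 1) k + b) * (w i k + b)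
        = w i k * w (i + 1) k - w (i + 1) k * w i k := by
      simp only [add_mul, mul_add, hxb, hbx, hyb, hby, add_zero, zero_add]
      abel
    show n2 τ (w i k * w (i + 1) k - w (i + 1) k * w i k)
      = n2 τ ((w i k + b) * (w (i + 1) k + b) - (w (i + 1) k + b) * (w i k + b))
    rw [this]

end AM
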