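import Pool.Agent.H77.AM.Ci

/-!
# Cc: the unit ball of the corner is complete in the 2-norm

Take the limit `y` of `val (x k)` in `N` (`h.complete`), replace it by `q y q`: `‖q y q‖ ≤ 1`,
`n2 τ (val (x k) - q y q) = n2 τ (q (val (x k) - y) q) ≤ n2 τ (val (x k) - y)` (`SC.n2_mul_le`, `SC.n2_mul_le'`,
`‖q‖ ≤ 1`: `ST.piso_norm` or `q = star q * q`), and `n2_cn`.
-/

open Filter Topology

namespace AM

open SC ST

variable {N : Type*} [CStarAlgebra N] {τ : N →ₗ[ℂ] ℂ} {U : Ultrafilter ℕ}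

theorem cc_proj_norm {q : N} (hq : IsProj q) : ‖q‖ ≤ 1 := by
  have h1 : ‖star q * q‖ = ‖q‖ * ‖q‖ := CStarRing.norm_star_mul_self
  rw [hq.1, hq.2] at h1
  by_contra hc
  push Not at hc
  nlinarith [norm_nonneg q]

theorem cn_complete (h : IsII1 τ) {q : N} (hq : IsProj q) (hq0 : q ≠ 0) (x : ℕ → Cn q hq)
    (hx : ∀ k, ‖x k‖ ≤ 1)
    (hC : ∀ ε : ℝ, 0 < ε → ∃ K, ∀ k ≥ K, ∀ l ≥ K, n2 (ctau τ q hq) (x k - x l) < ε) :
    ∃ y : Cn q hq, ‖y‖ ≤ 1 ∧ Tendsto (fun k => n2 (ctau τ q hq) (x k - y)) atTop (𝓝 0) := by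
  have hs : 0 < Real.sqrt (τ q).re := Real.sqrt_pos.2 (tau_pos h hq hq0).1
  set s := Real.sqrt (τ q).re with hsdef
  have hn : ∀ z : Cn q hq, n2 (ctau τ q hq) z = s⁻¹ * n2 τ (val z) := fun z => n2_cn h hq hq0 z
  have hq1 : ‖q‖ ≤ 1 := cc_proj_norm hq
  obtain ⟨y, hy1, hy2⟩ := h.complete (fun k => val (x k)) (fun k => by rw [norm_val]; exact hx k)
    (by
      intro ε hε
      obtain ⟨K, hK⟩ := hC (s⁻¹ * ε) (by positivity)
      refine ⟨K, fun k hk l hl => ?_⟩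
      have h2 := hK k hk l hl
      rw [hn, val_sub] at h2
      exact lt_of_mul_lt_mul_left h2 (by positivity))
  have hmem : q * (q * y * q) = q * y * q ∧ (q * y * q) * q = q * y * q := by
    constructor
    · rw [← mul_assoc, ← mul_assoc, hq.2]
    · rw [mul_assoc, hq.2]
  have hny : ‖q * y * q‖ ≤ 1 := by
    calc ‖q * y * q‖ ≤ ‖q * y‖ * ‖q‖ := norm_mul_le _ _
      _ ≤ (‖q‖ * ‖y‖) * ‖q‖ := by
          gcongr
          exact norm_mul_le _ _
      _ ≤ (1 * 1) * 1 := by gcongr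
      _ = 1 := by norm_num
  refine ⟨mk (q * y * q) hmem, ?_, ?_⟩
  · rw [← norm_val, val_mk]; exact hny
  · have hle : ∀ k, n2 (ctau τ q hq) (x k - mk (q * y * q) hmem) ≤ s⁻¹ * n2 τ (val (x k) - y) := by
      intro k
      rw [hn, val_sub, val_mk]
      have e1 : val (x k) - q * y * q = q * ((val (x k) - y) * q) := by
        have h3 := val_mem (x k)
        rw [sub_mul, mul_sub, h3.2, h3.1, mul_assoc]
      rw [e1]
      have h4 : n2 τ (q * ((val (x k) - y) * q)) ≤ ‖q‖ * n2 τ ((val (x k) - y) * q) :=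
        n2_mul_le h _ _
      have h5 : n2 τ ((val (x k) - y) * q) ≤ n2 τ (val (x k) - y) * ‖q‖ := n2_mul_le' h _ _
      have h6 : 0 ≤ n2 τ (val (x k) - y) := Real.sqrt_nonneg _
      have h7 : 0 ≤ n2 τ ((val (x k) - y) * q) := Real.sqrt_nonneg _
      have h8 : n2 τ (q * ((val (x k) - y) * q)) ≤ n2 τ (val (x k) - y) := by
        nlinarith [norm_nonneg q]
      exact mul_le_mul_of_nonneg_left h8 (by positivity)
    have hlim : Tendsto (fun k => s⁻¹ * n2 τ (val (x k) - y)) atTop (𝓝 0) := by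
      have := hy2.const_mul s⁻¹
      simpa using this
    exact squeeze_zero (fun k => Real.sqrt_nonneg _) hle hlim

end AM
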