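import Pool.Agent.H77.AM.Ci

/-!
# Cf: the corner `qNq` is a factor

Let `z` be central in the corner.  Write `z = a + i b` with `a, b` self-adjoint; these are central too, so
let `z` be self-adjoint.  Let `c = ctau τ q hq z` (real) and `y = z - c • 1` in the C*-algebra `Cn q hq`, so
`ctau y = 0` (`ctau 1 = 1`).  Positive and negative part `y⁺, y⁻` (CFC: `CFC.posPart`, or
`cfc (fun t => max t 0) y`; `y⁺ * y⁻ = 0`; they commute with everything that commutes with `y`, `Commute.cfc`).
For all `a : N`: `val y⁺ * a * val y⁻ = val y⁺ * (q * a * q) * val y⁻ = (q a q) * val y⁺ * val y⁻ = 0`, so by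
`SC.corner` (`x ≠ 0 → y ≠ 0 → ∃ z, x * z * y ≠ 0`) one of them is `0`; then `y ≥ 0` or `y ≤ 0` with
trace `0`, so `y = 0`.
(The proof below: `y w q w* = q w y w*` for all unitaries `w`; average `w (q + i y) w*` with `SC.avg`.)
(Alternative without CFC: in `N`, with `x = val y` and the averages `SC.avg`/`SC.minel`.  Alternative:
`x = val z`, for all `a b : N`: `τ (x q a q b) ...`; show `x = c q` with `SC.avg` applied to `q`.)
-/

open Filter Topology

namespace AM

open SC ST

variable {N : Type*} [CStarAlgebra N] {τ : N →ₗ[ℂ] ℂ} {U : Ultrafilter ℕ}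

/-- auxiliary map -/
private def Cf_F (q y X : N) : N := y * (X + star X) + Complex.I • (q * (X - star X))

private theorem Cf_F_zero_hull {q y x X : N}
    (h0 : ∀ w ∈ unitary N, Cf_F q y (w * x * star w) = 0)
    (hX : X ∈ convexHull ℝ {b : N | ∃ w ∈ unitary N, b = w * x * star w}) :
    Cf_F q y X = 0 := by
  have hlin : IsLinearMap ℝ (fun X : N => Cf_F q y X) := by
    constructor
    · intro a b
      simp only [Cf_F, star_add, mul_add, mul_sub, smul_add, smul_sub]
      abel
    · intro c a
      simp only [Cf_F, star_smul, star_trivial]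
      rw [← smul_add, ← smul_sub, mul_smul_comm, mul_smul_comm, smul_add, smul_comm Complex.I c]
  have h1 : Convex ℝ ((hlin.mk' _) ⁻¹' {(0 : N)}) := (convex_singleton (0 : N)).linear_preimage _
  have h2 : {b : N | ∃ w ∈ unitary N, b = w * x * star w} ⊆ (hlin.mk' _) ⁻¹' {(0 : N)} := by
    rintro _ ⟨w, hw, rfl⟩
    exact h0 w hw
  exact convexHull_min h2 h1 hX

private theorem Cf_F_sub (q y X Y : N) : Cf_F q y (X - Y) = Cf_F q y X - Cf_F q y Y := by
  simp only [Cf_F, star_sub, mul_add, mul_sub, smul_sub]
  abel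

private theorem Cf_F_norm (h : IsII1 τ) (q y X : N) :
    n2 τ (Cf_F q y X) ≤ (2 * (‖y‖ + ‖q‖)) * n2 τ X := by
  have h1 : n2 τ (X + star X) ≤ 2 * n2 τ X := by
    have := n2_add_le h X (star X)
    rw [n2_star h] at this
    linarith
  have h2 : n2 τ (X - star X) ≤ 2 * n2 τ X := by
    have := n2_add_le h X (-star X)
    rw [SC.n2_neg, n2_star h, ← sub_eq_add_neg] at this
    linarith
  have h3 := n2_add_le h (y * (X + star X)) (Complex.I • (q * (X - star X)))
  rw [n2_smul h, Complex.norm_I, one_mul] at h3
  have h4 := n2_mul_le h y (X + star X)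
  have h5 := n2_mul_le h q (X - star X)
  have h6 : ‖y‖ * n2 τ (X + star X) ≤ ‖y‖ * (2 * n2 τ X) :=
    mul_le_mul_of_nonneg_left h1 (norm_nonneg _)
  have h7 : ‖q‖ * n2 τ (X - star X) ≤ ‖q‖ * (2 * n2 τ X) :=
    mul_le_mul_of_nonneg_left h2 (norm_nonneg _)
  unfold Cf_F
  linarith

private theorem Cf_sa (h : IsII1 τ) {q y : N} (hq : IsProj q) (hy : star y = y) (hqy : q * y = y)
    (hyq : y * q = y) (hc : ∀ a : N, q * a = a → a * q = a → y * a = a * y) :
    τ q • y = τ y • q := by
  have key : ∀ a : N, y * a * q = q * a * y := by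
    intro a
    have h1 := hc (q * a * q) (by rw [← mul_assoc, ← mul_assoc, hq.2]) (by rw [mul_assoc, hq.2])
    calc y * a * q = (y * q) * a * q := by rw [hyq]
      _ = y * (q * a * q) := by simp only [mul_assoc]
      _ = q * a * q * y := h1
      _ = q * a * (q * y) := by simp only [mul_assoc]
      _ = q * a * y := by rw [hqy]
  set x : N := q + Complex.I • y with hx
  have hsx : star x = q - Complex.I • y := by
    rw [hx, star_add, star_smul, hq.1, hy, Complex.star_def, Complex.conj_I, neg_smul, sub_eq_add_neg]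
  have h0 : ∀ w ∈ unitary N, Cf_F q y (w * x * star w) = 0 := by
    intro w _
    have e1 : w * x * star w + star (w * x * star w) = (2 : ℂ) • (w * q * star w) := by
      rw [star_mul, star_mul, star_star, hsx, hx, two_smul]
      noncomm_ring
    have e2 : w * x * star w - star (w * x * star w) = (2 * Complex.I : ℂ) • (w * y * star w) := by
      rw [star_mul, star_mul, star_star, hsx, hx, mul_smul, two_smul]
      simp only [mul_add, mul_sub, add_mul, sub_mul, mul_smul_comm, smul_mul_assoc, mul_assoc]
      abel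
    unfold Cf_F
    rw [e1, e2, mul_smul_comm, mul_smul_comm, smul_smul]
    have e3 : Complex.I * (2 * Complex.I) = -2 := by
      linear_combination 2 * Complex.I_mul_I
    have e4 : y * (w * q * star w) = q * (w * y * star w) := by
      have := key w
      calc y * (w * q * star w) = (y * w * q) * star w := by simp only [mul_assoc]
        _ = (q * w * y) * star w := by rw [this]
        _ = q * (w * y * star w) := by simp only [mul_assoc]
    rw [e3, e4, neg_smul, add_neg_cancel]
  have hτq : (starRingEnd ℂ) (τ q) = τ q := by rw [← tau_star h, hq.1]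
  have hτy : (starRingEnd ℂ) (τ y) = τ y := by rw [← tau_star h, hy]
  have hτx : τ x = τ q + Complex.I * τ y := by rw [hx, map_add, map_smul, smul_eq_mul]
  have hc1 : Cf_F q y (τ x • (1 : N)) = (2 : ℂ) • (τ q • y - τ y • q) := by
    have hs : star (τ x • (1 : N)) = (τ q - Complex.I * τ y) • (1 : N) := by
      rw [star_smul, star_one, Complex.star_def, hτx, map_add, map_mul, hτq, hτy, Complex.conj_I]
      ring_nf
    unfold Cf_F
    rw [hs, hτx, ← add_smul, ← sub_smul, mul_smul_comm, mul_smul_comm, mul_one, mul_one, smul_smul]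
    have e1 : τ q + Complex.I * τ y + (τ q - Complex.I * τ y) = 2 * τ q := by ring
    have e2 : Complex.I * (τ q + Complex.I * τ y - (τ q - Complex.I * τ y)) = -(2 * τ y) := by
      linear_combination 2 * τ y * Complex.I_mul_I
    rw [e1, e2, smul_sub, smul_smul, smul_smul, neg_smul, sub_eq_add_neg]
  have hz : Cf_F q y (τ x • (1 : N)) = 0 := by
    apply n2_eq_zero h
    apply le_antisymm _ (SC.n2_nonneg _)
    apply le_of_forall_pos_le_add
    intro ε hε
    have hK : 0 < 2 * (‖y‖ + ‖q‖) + 1 := by positivity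
    obtain ⟨X, hX, hX2⟩ := avg h x (ε / (2 * (‖y‖ + ‖q‖) + 1)) (div_pos hε hK)
    have h1 := Cf_F_norm h q y (X - τ x • (1 : N))
    rw [Cf_F_sub, Cf_F_zero_hull h0 hX, zero_sub, SC.n2_neg] at h1
    have h2 : (2 * (‖y‖ + ‖q‖)) * n2 τ (X - τ x • (1 : N)) ≤
        (2 * (‖y‖ + ‖q‖) + 1) * (ε / (2 * (‖y‖ + ‖q‖) + 1)) := by
      apply mul_le_mul _ hX2.le (SC.n2_nonneg _) hK.le
      linarith
    rw [mul_div_cancel₀ _ hK.ne'] at h2
    linarith
  rw [hc1] at hz
  rcases smul_eq_zero.1 hz with h2 | h2
  · norm_num at h2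
  · exact sub_eq_zero.1 h2

theorem cn_factor (h : IsII1 τ) {q : N} (hq : IsProj q) (hq0 : q ≠ 0) (z : Cn q hq)
    (hz : ∀ x : Cn q hq, z * x = x * z) : ∃ c : ℂ, z = c • (1 : Cn q hq) := by
  have hz1 : ∀ a : N, q * a = a → a * q = a → val z * a = a * val z := by
    intro a h1 h2
    have := hz (mk a ⟨h1, h2⟩)
    have h3 := congrArg val this
    rwa [val_mul, val_mul, val_mk] at h3
  obtain ⟨hl, hr⟩ := val_mem z
  have hls : q * star (val z) = star (val z) := by
    have := congrArg star hr
    rwa [star_mul, hq.1] at this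
  have hrs : star (val z) * q = star (val z) := by
    have := congrArg star hl
    rwa [star_mul, hq.1] at this
  have hz2 : ∀ a : N, q * a = a → a * q = a → star (val z) * a = a * star (val z) := by
    intro a h1 h2
    have h3 : q * star a = star a := by
      have := congrArg star h2
      rwa [star_mul, hq.1] at this
    have h4 : star a * q = star a := by
      have := congrArg star h1
      rwa [star_mul, hq.1] at this
    have := congrArg star (hz1 (star a) h3 h4)
    rw [star_mul, star_mul, star_star] at this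
    exact this.symm
  have hτ : τ q ≠ 0 := by
    intro h0
    apply hq0
    apply h.faithful
    rw [hq.1, hq.2, h0]
  have hy1 := Cf_sa h (y := val z + star (val z)) hq
    (by rw [star_add, star_star, add_comm]) (by rw [mul_add, hl, hls]) (by rw [add_mul, hr, hrs])
    (fun a h1 h2 => by rw [add_mul, mul_add, hz1 a h1 h2, hz2 a h1 h2])
  have hy2 := Cf_sa h (y := Complex.I • (val z - star (val z))) hq
    (by rw [star_smul, star_sub, star_star, Complex.star_def, Complex.conj_I, neg_smul,
      ← smul_neg, neg_sub])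
    (by rw [mul_smul_comm, mul_sub, hl, hls]) (by rw [smul_mul_assoc, sub_mul, hr, hrs])
    (fun a h1 h2 => by
      rw [smul_mul_assoc, mul_smul_comm, sub_mul, mul_sub, hz1 a h1 h2, hz2 a h1 h2])
  set t1 := τ (val z + star (val z)) with ht1
  set t2 := τ (Complex.I • (val z - star (val z))) with ht2
  refine ⟨(2 * τ q)⁻¹ * (t1 - Complex.I * t2), ?_⟩
  apply val_inj
  rw [val_smul, val_one]
  have e1 : (t1 - Complex.I * t2) • q = (2 * τ q) • val z := by
    rw [sub_smul, mul_smul, ← hy1, ← hy2]
    rw [smul_comm (τ q) Complex.I, smul_smul Complex.I Complex.I, Complex.I_mul_I, neg_smul, one_smul,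
      sub_neg_eq_add, ← smul_add, add_add_sub_cancel, ← two_smul ℂ (val z), smul_smul, mul_comm]
  rw [mul_smul, e1, smul_smul, inv_mul_cancel₀ (mul_ne_zero two_ne_zero hτ), one_smul]

end AM
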