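import Pool.Agent.H77.AM.Cc
import Pool.Agent.H77.AM.Cf

/-!
# Cg: the corner `qNq` of a II₁ factor is a II₁ factor

`cn_infinite`: for `u ∈ CHaar τ q` the powers `u^m`, `m ≥ 1`, are orthogonal for `τ` (`τ (star (u^m) * u^n) = 0` for
`1 ≤ m < n`, as `star (u^m) * u^n = u^(n-m)`) and non-zero (`star (u^m) * u^m = q`), so linearly independent.
-/

open Filter Topology

namespace AM

open SC ST

variable {N : Type*} [CStarAlgebra N] {τ : N →ₗ[ℂ] ℂ} {U : Ultrafilter ℕ}

theorem cn_infinite (h : IsII1 τ) {q : N} (hq : IsProj q) (hq0 : q ≠ 0)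
    (hne : (CHaar τ q).Nonempty) : ¬ FiniteDimensional ℂ (Cn q hq) := by
  intro hfd
  obtain ⟨u, ⟨hu1, hu2, hu3, hu4⟩, hu5⟩ := hne
  have hq1 := (tau_pos h hq hq0).1
  have hq2 := (tau_pos h hq hq0).2
  have hqne : τ q ≠ 0 := by
    rw [hq2]
    exact_mod_cast hq1.ne'
  obtain ⟨V, hV⟩ : ∃ V : Cn q hq, val V = u := ⟨mk u ⟨hu1, hu2⟩, rfl⟩
  have hVV : star V * V = 1 := val_inj (by rw [val_mul, val_star, hV, hu3, val_one])
  have hVp : ∀ m : ℕ, star (V ^ m) * V ^ m = 1 := by
    intro m
    induction m with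
    | zero => rw [pow_zero, star_one, one_mul]
    | succ m ih =>
      have e : star (V ^ (m + 1)) * V ^ (m + 1) = star V * (star (V ^ m) * V ^ m) * V := by
        rw [pow_succ, star_mul]
        simp only [mul_assoc]
      rw [e, ih, mul_one, hVV]
  have hab : ∀ a b : ℕ, a < b → star (V ^ a) * V ^ b = V ^ (b - a) := by
    intro a b hlt
    have e : V ^ b = V ^ a * V ^ (b - a) := by
      rw [← pow_add, Nat.add_sub_cancel' hlt.le]
    rw [e, ← mul_assoc, hVp, one_mul]
  have ht : ∀ m : ℕ, 1 ≤ m → τ (val (V ^ m)) = 0 := by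
    intro m hm
    rw [val_pow _ _ hm, hV]
    exact hu5 m hm
  have horth : ∀ a b : ℕ, a ≠ b → τ (val (star (V ^ a) * V ^ b)) = 0 := by
    intro a b hne'
    rcases lt_or_gt_of_ne hne' with h1 | h1
    · rw [hab a b h1]
      exact ht _ (by omega)
    · have e : star (V ^ a) * V ^ b = star (V ^ (a - b)) := by
        rw [← hab b a h1, star_mul, star_star]
      rw [e, val_star, SC.tau_star h, ht _ (by omega), map_zero]
  have hdiag : ∀ a : ℕ, τ (val (star (V ^ a) * V ^ a)) = τ q := by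
    intro a
    rw [hVp, val_one]
  have hval : ∀ (s : Finset ℕ) (f : ℕ → Cn q hq), τ (val (∑ i ∈ s, f i)) = ∑ i ∈ s, τ (val (f i)) := by
    intro s f
    induction s using Finset.induction_on with
    | empty => rw [Finset.sum_empty, Finset.sum_empty, val_zero, map_zero]
    | insert a s ha ih => rw [Finset.sum_insert ha, Finset.sum_insert ha, val_add, map_add, ih]
  have hli : LinearIndependent ℂ (fun m : ℕ => V ^ m) := by
    rw [linearIndependent_iff']
    intro s c hs k hk
    have h1 : τ (val (star (V ^ k) * ∑ i ∈ s, c i • V ^ i)) = 0 := by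
      rw [hs, mul_zero, val_zero, map_zero]
    rw [Finset.mul_sum, hval, Finset.sum_eq_single k] at h1
    · rw [mul_smul_comm, val_smul, map_smul, smul_eq_mul, hdiag] at h1
      exact (mul_eq_zero.1 h1).resolve_right hqne
    · intro b _ hb
      rw [mul_smul_comm, val_smul, map_smul, smul_eq_mul, horth k b (Ne.symm hb), mul_zero]
    · intro h2
      exact absurd hk h2
  have hfin : Finite ℕ := hli.finite
  exact not_finite ℕ

theorem cn_II1 (h : IsII1 τ) {q : N} (hq : IsProj q) (hq0 : q ≠ 0)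
    (hne : (CHaar τ q).Nonempty) : IsII1 (ctau τ q hq) := by
  have hq1 := (tau_pos h hq hq0).1
  have hq2 := (tau_pos h hq hq0).2
  have hqne : τ q ≠ 0 := by
    rw [hq2]
    exact_mod_cast hq1.ne'
  have hinv : (τ q)⁻¹ = (((τ q).re⁻¹ : ℝ) : ℂ) := by
    rw [Complex.ofReal_inv, ← hq2]
  refine ⟨?_, ?_, ?_, ?_, ?_, ?_, ?_, ?_⟩
  · rw [ctau_apply, val_one, inv_mul_cancel₀ hqne]
  · intro x y
    rw [ctau_apply, ctau_apply, val_mul, val_mul, h.tracial]
  · intro x
    rw [ctau_apply, val_mul, val_star, hinv, Complex.re_ofReal_mul]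
    exact mul_nonneg (inv_nonneg.2 hq1.le) (h.nonneg _)
  · intro x
    rw [ctau_apply, val_mul, val_star, hinv, Complex.im_ofReal_mul, h.real, mul_zero]
  · intro x hx
    rw [ctau_apply, val_mul, val_star] at hx
    apply val_inj
    rw [val_zero]
    exact h.faithful _ ((mul_eq_zero.1 hx).resolve_left (inv_ne_zero hqne))
  · exact cn_complete h hq hq0
  · exact cn_factor h hq hq0
  · exact cn_infinite h hq hq0 hne

end AM
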