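import Pool.Agent.H77.AM.Cn
import Pool.Agent.H77.ST.Mp
import Pool.Agent.H77.ST.Cm
import Pool.Agent.H77.SC.Cp2

/-!
# Ci: traces and 2-norms in the corner `qNq`

`ST.proj_tau` with `isTr_of_isII1 h` for `tau_pos`.
-/

open Filter Topology

namespace AM

open SC ST

variable {N : Type*} [CStarAlgebra N] {τ : N →ₗ[ℂ] ℂ} {U : Ultrafilter ℕ}

/-- the trace of a non-zero projection -/
theorem tau_pos (h : IsII1 τ) {q : N} (hq : IsProj q) (hq0 : q ≠ 0) :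
    0 < (τ q).re ∧ τ q = ((τ q).re : ℂ) := by
  obtain ⟨h1, h2, _, h4⟩ := ST.proj_tau (isTr_of_isII1 h) hq
  refine ⟨lt_of_le_of_ne h2 fun h0 => hq0 (h4 h0.symm), ?_⟩
  refine Complex.ext ?_ ?_
  · rw [Complex.ofReal_re]
  · rw [Complex.ofReal_im]; exact h1

theorem n2_cn (h : IsII1 τ) {q : N} (hq : IsProj q) (hq0 : q ≠ 0) (x : Cn q hq) :
    n2 (ctau τ q hq) x = (Real.sqrt (τ q).re)⁻¹ * n2 τ (val x) := by
  obtain ⟨hp, he⟩ := tau_pos h hq hq0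
  have e1 : (τ q)⁻¹ = (((τ q).re⁻¹ : ℝ) : ℂ) := by
    rw [Complex.ofReal_inv, ← he]
  have e2 : (ctau τ q hq (star x * x)).re = (τ q).re⁻¹ * (τ (star (val x) * val x)).re := by
    rw [ctau_apply, val_mul, val_star, e1, Complex.re_ofReal_mul]
  unfold n2
  rw [e2, Real.sqrt_mul (inv_nonneg.2 hp.le), Real.sqrt_inv]

end AM
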