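import Pool.Agent.H77.AM.Df
import Pool.Agent.H77.SC.Cp2

/-!
# Cj: projections of equal trace are unitarily conjugate, and `Uniq` only depends on the trace

`proj_conj`: `SC.proj_equiv` for `p, q` and for `1 - p, 1 - q` gives `v, v'`; `w = v + v'`.
`uniq_conj`: transport a path by `x ↦ w x w*`.
-/

open Filter Topology

namespace AM

open SC ST

variable {N : Type*} [CStarAlgebra N] {τ : N →ₗ[ℂ] ℂ} {U : Ultrafilter ℕ}

theorem conj_mul {w : N} (hw : w ∈ unitary N) (a b : N) :
    (w * a * star w) * (w * b * star w) = w * (a * b) * star w := by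
  have h1 : star w * w = 1 := Unitary.star_mul_self_of_mem hw
  calc (w * a * star w) * (w * b * star w) = w * a * (star w * w) * b * star w := by simp only [mul_assoc]
    _ = w * (a * b) * star w := by rw [h1, mul_one]; simp only [mul_assoc]

theorem conj_star (w a : N) : star (w * a * star w) = w * star a * star w := by
  rw [star_mul, star_mul, star_star, mul_assoc]

theorem conj_pow {w : N} (hw : w ∈ unitary N) (a : N) (m : ℕ) : (w * a * star w) ^ m = w * a ^ m * star w := by
  induction m with
  | zero => rw [pow_zero, pow_zero, mul_one, Unitary.mul_star_self_of_mem hw]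
  | succ m ih => rw [pow_succ, ih, conj_mul hw, ← pow_succ]

theorem tau_conj (h : IsII1 τ) {w : N} (hw : w ∈ unitary N) (a : N) : τ (w * a * star w) = τ a := by
  rw [h.tracial, ← mul_assoc, Unitary.star_mul_self_of_mem hw, one_mul]

theorem n2_conj (h : IsII1 τ) {w : N} (hw : w ∈ unitary N) (a : N) : n2 τ (w * a * star w) = n2 τ a := by
  unfold n2
  rw [conj_star, conj_mul hw, tau_conj h hw]

theorem right_of (p v : N) (hp : p * p = p) (hps : star p = p) (hv : star v * v = p) : v * p = v := by
  have h1 : star (v - v * p) * (v - v * p) = 0 := by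
    rw [star_sub, star_mul, hps, sub_mul, mul_sub, mul_sub, hv]
    have e1 : star v * (v * p) = p := by rw [← mul_assoc, hv, hp]
    have e2 : p * star v * v = p := by rw [mul_assoc, hv, hp]
    have e3 : p * star v * (v * p) = p := by rw [mul_assoc, e1, hp]
    rw [e1, e2, e3]
    abel
  have h2 : ‖v - v * p‖ * ‖v - v * p‖ = 0 := by rw [← CStarRing.norm_star_mul_self, h1, norm_zero]
  have h3 : v - v * p = 0 := by
    rw [← norm_eq_zero]
    exact mul_self_eq_zero.1 h2
  exact (sub_eq_zero.1 h3).symm

theorem left_of (q v : N) (hq : q * q = q) (hqs : star q = q) (hv : v * star v = q) : q * v = v := by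
  have h1 := right_of q (star v) hq hqs (by rw [star_star]; exact hv)
  have h2 := congrArg star h1
  rwa [star_mul, star_star, hqs] at h2

theorem proj_conj (h : IsII1 τ) {p q : N} (hp : IsProj p) (hq : IsProj q) (ht : τ p = τ q) :
    ∃ w ∈ unitary N, w * p * star w = q := by
  obtain ⟨v, hv1, hv2⟩ := proj_equiv h hp.1 hp.2 hq.1 hq.2 ht
  have hp1 : star (1 - p) = 1 - p := by rw [star_sub, star_one, hp.1]
  have hq1 : star (1 - q) = 1 - q := by rw [star_sub, star_one, hq.1]
  have hp2 : (1 - p) * (1 - p) = 1 - p := by rw [sub_mul, mul_sub, mul_sub, hp.2]; simp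
  have hq2 : (1 - q) * (1 - q) = 1 - q := by rw [sub_mul, mul_sub, mul_sub, hq.2]; simp
  obtain ⟨v', hv1', hv2'⟩ := proj_equiv h hp1 hp2 hq1 hq2 (by rw [map_sub, map_sub, ht])
  have r1 := right_of p v hp.2 hp.1 hv1
  have r2 := right_of (1 - p) v' hp2 hp1 hv1'
  have l1 := left_of q v hq.2 hq.1 hv2
  have l2 := left_of (1 - q) v' hq2 hq1 hv2'
  have hq3 : q * (1 - q) = 0 := by rw [mul_sub, mul_one, hq.2, sub_self]
  have hp3 : p * (1 - p) = 0 := by rw [mul_sub, mul_one, hp.2, sub_self]
  have hp4 : (1 - p) * p = 0 := by rw [sub_mul, one_mul, hp.2, sub_self]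
  have c1 : star v * v' = 0 := by
    calc star v * v' = star (q * v) * ((1 - q) * v') := by rw [l1, l2]
      _ = star v * (q * (1 - q)) * v' := by rw [star_mul, hq.1]; simp only [mul_assoc]
      _ = 0 := by rw [hq3, mul_zero, zero_mul]
  have c2 : star v' * v = 0 := by
    have := congrArg star c1
    rwa [star_mul, star_star, star_zero] at this
  have c3 : v * star v' = 0 := by
    calc v * star v' = (v * p) * star (v' * (1 - p)) := by rw [r1, r2]
      _ = v * (p * (1 - p)) * star v' := by rw [star_mul, hp1]; simp only [mul_assoc]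
      _ = 0 := by rw [hp3, mul_zero, zero_mul]
  have c4 : v' * star v = 0 := by
    have := congrArg star c3
    rwa [star_mul, star_star, star_zero] at this
  refine ⟨v + v', ?_, ?_⟩
  · rw [Unitary.mem_iff]
    constructor
    · rw [star_add, add_mul, mul_add, mul_add, hv1, hv1', c1, c2]
      abel
    · rw [star_add, add_mul, mul_add, mul_add, hv2, hv2', c3, c4]
      abel
  · have e1 : v' * p = 0 := by
      calc v' * p = v' * (1 - p) * p := by rw [r2]
        _ = 0 := by rw [mul_assoc, hp4, mul_zero]
    rw [add_mul, r1, e1, add_zero, star_add, mul_add, hv2, c3, add_zero]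

theorem cunit_conj {p w : N} (hw : w ∈ unitary N) {x : N} (hx : x ∈ CUnit p) :
    w * x * star w ∈ CUnit (w * p * star w) := by
  obtain ⟨h1, h2, h3, h4⟩ := hx
  refine ⟨?_, ?_, ?_, ?_⟩
  · rw [conj_mul hw, h1]
  · rw [conj_mul hw, h2]
  · rw [conj_star, conj_mul hw, h3]
  · rw [conj_star, conj_mul hw, h4]

theorem chaar_conj (h : IsII1 τ) {p w : N} (hw : w ∈ unitary N) {x : N} (hx : x ∈ CHaar τ p) :
    w * x * star w ∈ CHaar τ (w * p * star w) := by
  refine ⟨cunit_conj hw hx.1, fun m hm => ?_⟩
  rw [conj_pow hw, tau_conj h hw]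
  exact hx.2 m hm

theorem cpath_conj (h : IsII1 τ) {p w : N} (hw : w ∈ unitary N) {n : ℕ} {x y : N}
    (hx : CPath τ U p n x y) : CPath τ U (w * p * star w) n (w * x * star w) (w * y * star w) := by
  obtain ⟨z, h0, h1, h2, h3⟩ := hx
  refine ⟨fun i k => w * z i k * star w, ?_, ?_, fun i hi => ?_, fun i hi => ?_⟩
  · funext k
    change w * z 0 k * star w = w * x * star w
    rw [h0]
  · funext k
    change w * z (n + 1) k * star w = w * y * star w
    rw [h1]
  · refine ⟨fun k => cunit_conj hw ((h2 i hi).1 k), fun m hm => ?_⟩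
    refine ((h2 i hi).2 m hm).congr fun k => ?_
    rw [conj_pow hw, tau_conj h hw]
  · unfold CommSeq
    refine (h3 i hi).congr fun k => ?_
    rw [conj_mul hw, conj_mul hw, ← sub_mul, ← mul_sub, n2_conj h hw]

theorem uniq_conj (h : IsII1 τ) {p q : N} (hp : IsProj p) (hq : IsProj q) (ht : τ p = τ q)
    (hu : Uniq τ U p) : Uniq τ U q := by
  obtain ⟨w, hw, hwq⟩ := proj_conj h hp hq ht
  have hw' : star w ∈ unitary N := Unitary.star_mem hw
  have e1 : star w * w = 1 := Unitary.star_mul_self_of_mem hw
  have e2 : w * star w = 1 := Unitary.mul_star_self_of_mem hw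
  have e3 : star w * q * star (star w) = p := by
    rw [star_star, ← hwq]
    calc star w * (w * p * star w) * w = (star w * w) * p * (star w * w) := by simp only [mul_assoc]
      _ = p := by rw [e1, one_mul, mul_one]
  have e4 : ∀ x : N, w * (star w * x * star (star w)) * star w = x := by
    intro x
    rw [star_star]
    calc w * (star w * x * w) * star w = (w * star w) * x * (w * star w) := by simp only [mul_assoc]
      _ = x := by rw [e2, one_mul, mul_one]
  intro u huu v hvv
  have h1 := chaar_conj h hw' huu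
  have h2 := chaar_conj h hw' hvv
  rw [e3] at h1 h2
  obtain ⟨n, hn⟩ := hu _ h1 _ h2
  have h3 := cpath_conj h hw hn
  rw [hwq, e4, e4] at h3
  exact ⟨n, h3⟩

end AM
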