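import Pool.Agent.H77.AM.Df

/-!
# The corner `qNq` as a C*-algebra
-/

open Filter Topology

namespace AM

open SC ST

variable {N : Type*} [CStarAlgebra N]

/-- the corner as a non-unital *-subalgebra -/
def cnS (q : N) (hq : IsProj q) : NonUnitalStarSubalgebra ℂ N where
  carrier := {x | q * x = x ∧ x * q = x}
  add_mem' := by
    rintro a b ⟨h1, h2⟩ ⟨h3, h4⟩
    exact ⟨by rw [mul_add, h1, h3], by rw [add_mul, h2, h4]⟩
  zero_mem' := ⟨mul_zero _, zero_mul _⟩
  mul_mem' := by
    rintro a b ⟨h1, h2⟩ ⟨h3, h4⟩
    exact ⟨by rw [← mul_assoc, h1], by rw [mul_assoc, h4]⟩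
  smul_mem' := by
    rintro c a ⟨h1, h2⟩
    exact ⟨by rw [mul_smul_comm, h1], by rw [smul_mul_assoc, h2]⟩
  star_mem' := by
    rintro a ⟨h1, h2⟩
    refine ⟨?_, ?_⟩
    · have := congrArg star h2
      rwa [star_mul, hq.1] at this
    · have := congrArg star h1
      rwa [star_mul, hq.1] at this

theorem cnS_closed (q : N) (hq : IsProj q) : IsClosed (cnS q hq : Set N) := by
  have h1 : IsClosed {x : N | q * x = x} :=
    isClosed_eq (continuous_const.mul continuous_id) continuous_id
  have h2 : IsClosed {x : N | x * q = x} :=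
    isClosed_eq (continuous_id.mul continuous_const) continuous_id
  exact h1.inter h2

/-- the corner as a type -/
def Cn (q : N) (hq : IsProj q) : Type _ := cnS q hq

variable (q : N) (hq : IsProj q)

noncomputable instance : NonUnitalNormedRing (Cn q hq) := inferInstanceAs (NonUnitalNormedRing (cnS q hq))
noncomputable instance : StarRing (Cn q hq) := inferInstanceAs (StarRing (cnS q hq))
noncomputable instance : NormedSpace ℂ (Cn q hq) := inferInstanceAs (NormedSpace ℂ (cnS q hq))
instance : IsScalarTower ℂ (Cn q hq) (Cn q hq) := inferInstanceAs (IsScalarTower ℂ (cnS q hq) (cnS q hq))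
instance : SMulCommClass ℂ (Cn q hq) (Cn q hq) := inferInstanceAs (SMulCommClass ℂ (cnS q hq) (cnS q hq))
instance : StarModule ℂ (Cn q hq) := inferInstanceAs (StarModule ℂ (cnS q hq))
instance : CompleteSpace (Cn q hq) := (cnS_closed q hq).completeSpace_coe
instance : CStarRing (Cn q hq) where
  norm_mul_self_le x := CStarRing.norm_mul_self_le (x.1 : N)

noncomputable instance : NormedRing (Cn q hq) :=
  { (inferInstance : NonUnitalNormedRing (Cn q hq)) with
    one := ⟨q, hq.2, hq.2⟩
    one_mul := fun a => Subtype.ext a.2.1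
    mul_one := fun a => Subtype.ext a.2.2 }

noncomputable instance : CStarAlgebra (Cn q hq) where
  toCompleteSpace := inferInstance
  norm_mul_self_le := CStarRing.norm_mul_self_le
  smul := fun c x => c • x
  algebraMap := (Algebra.ofModule (R := ℂ) (A := Cn q hq) smul_mul_assoc mul_smul_comm).algebraMap
  commutes' := (Algebra.ofModule (R := ℂ) (A := Cn q hq) smul_mul_assoc mul_smul_comm).commutes'
  smul_def' := (Algebra.ofModule (R := ℂ) (A := Cn q hq) smul_mul_assoc mul_smul_comm).smul_def'
  norm_smul_le := norm_smul_le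
  star_smul := star_smul
  star_add := star_add

/-- the element of the corner type given by `x` with `q x = x = x q` -/
def mk {q : N} {hq : IsProj q} (x : N) (hx : q * x = x ∧ x * q = x) : Cn q hq := ⟨x, hx⟩

/-- the inclusion of the corner into `N` -/
def val {q : N} {hq : IsProj q} (x : Cn q hq) : N := x.1

variable {q} {hq}

theorem val_mem (x : Cn q hq) : q * val x = val x ∧ val x * q = val x := x.2
theorem val_mk (x : N) (hx : q * x = x ∧ x * q = x) : val (mk (hq := hq) x hx) = x := rfl
theorem val_inj {x y : Cn q hq} (h : val x = val y) : x = y := Subtype.ext h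
theorem val_one : val (1 : Cn q hq) = q := rfl
theorem val_zero : val (0 : Cn q hq) = 0 := rfl
theorem val_add (x y : Cn q hq) : val (x + y) = val x + val y := rfl
theorem val_sub (x y : Cn q hq) : val (x - y) = val x - val y := rfl
theorem val_neg (x : Cn q hq) : val (-x) = -val x := rfl
theorem val_mul (x y : Cn q hq) : val (x * y) = val x * val y := rfl
theorem val_star (x : Cn q hq) : val (star x) = star (val x) := rfl
theorem val_smul (c : ℂ) (x : Cn q hq) : val (c • x) = c • val x := rfl
theorem norm_val (x : Cn q hq) : ‖val x‖ = ‖x‖ := rfl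

theorem val_pow (x : Cn q hq) (m : ℕ) (hm : 1 ≤ m) : val (x ^ m) = val x ^ m := by
  induction m, hm using Nat.le_induction with
  | base => rw [pow_one, pow_one]
  | succ n hn ih => rw [pow_succ, pow_succ, val_mul, ih]

/-- the normalised trace of the corner -/
noncomputable def ctau (τ : N →ₗ[ℂ] ℂ) (q : N) (hq : IsProj q) : Cn q hq →ₗ[ℂ] ℂ where
  toFun x := (τ q)⁻¹ * τ (val x)
  map_add' x y := by rw [val_add, map_add, mul_add]
  map_smul' c x := by rw [val_smul, map_smul, smul_eq_mul, RingHom.id_apply, smul_eq_mul]; ring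

theorem ctau_apply (τ : N →ₗ[ℂ] ℂ) (x : Cn q hq) : ctau τ q hq x = (τ q)⁻¹ * τ (val x) := rfl

end AM
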