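import Pool.Agent.H77.AM.Cg

/-!
# Ct: transfer between the corner type `Cn q hq` and the corners inside `N`

All by `val` (AM/Cn): `CUnit p` for `p : Cn q hq` corresponds to `CUnit (val p)`; an element `w` of
`CUnit (val p)` satisfies `q * w = q * (val p * w) = val p * w = w`.  To lift a path `w : ℕ → ℕ → N` use
`fun i k => if hx : q * w i k = w i k ∧ w i k * q = w i k then mk (w i k) hx else 0`.
`CommSeq`: `n2_cn`.
-/

open Filter Topology

namespace AM

open SC ST

variable {N : Type*} [CStarAlgebra N] {τ : N →ₗ[ℂ] ℂ} {U : Ultrafilter ℕ}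

theorem cunit_cn {q : N} {hq : IsProj q} {p u : Cn q hq} :
    u ∈ CUnit p ↔ val u ∈ CUnit (val p) := by
  constructor
  · rintro ⟨h1, h2, h3, h4⟩
    refine ⟨?_, ?_, ?_, ?_⟩
    · rw [← val_mul, h1]
    · rw [← val_mul, h2]
    · rw [← val_star, ← val_mul, h3]
    · rw [← val_star, ← val_mul, h4]
  · rintro ⟨h1, h2, h3, h4⟩
    refine ⟨?_, ?_, ?_, ?_⟩
    · exact val_inj (by rw [val_mul, h1])
    · exact val_inj (by rw [val_mul, h2])
    · exact val_inj (by rw [val_mul, val_star, h3])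
    · exact val_inj (by rw [val_mul, val_star, h4])

theorem ct_hqne (h : IsII1 τ) {q : N} (hq : IsProj q) (hq0 : q ≠ 0) : τ q ≠ 0 := by
  rw [(tau_pos h hq hq0).2]
  exact_mod_cast (tau_pos h hq hq0).1.ne'

theorem ct_pow_iff (h : IsII1 τ) {q : N} {hq : IsProj q} (hq0 : q ≠ 0) (u : Cn q hq) (m : ℕ)
    (hm : 1 ≤ m) : ctau τ q hq (u ^ m) = (τ q)⁻¹ * τ (val u ^ m) := by
  rw [ctau_apply, val_pow u m hm]

theorem ct_tendsto {q : N} (hqne : τ q ≠ 0) (f : ℕ → ℂ) :
    Tendsto (fun k => (τ q)⁻¹ * f k) U (𝓝 0) ↔ Tendsto f U (𝓝 0) := by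
  constructor
  · intro hf
    have h1 := hf.const_mul (τ q)
    rw [mul_zero] at h1
    refine h1.congr ?_
    intro k
    rw [← mul_assoc, mul_inv_cancel₀ hqne, one_mul]
  · intro hf
    have h1 := hf.const_mul (τ q)⁻¹
    rw [mul_zero] at h1
    exact h1

theorem chaar_cn (h : IsII1 τ) {q : N} {hq : IsProj q} (hq0 : q ≠ 0) {p u : Cn q hq} :
    u ∈ CHaar (ctau τ q hq) p ↔ val u ∈ CHaar τ (val p) := by
  have hqne := ct_hqne h hq hq0
  constructor
  · rintro ⟨h1, h2⟩
    refine ⟨cunit_cn.1 h1, ?_⟩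
    intro m hm
    have h3 := h2 m hm
    rw [ct_pow_iff h hq0 u m hm] at h3
    exact (mul_eq_zero.1 h3).resolve_left (inv_ne_zero hqne)
  · rintro ⟨h1, h2⟩
    refine ⟨cunit_cn.2 h1, ?_⟩
    intro m hm
    rw [ct_pow_iff h hq0 u m hm, h2 m hm, mul_zero]

theorem chaarSeq_cn (h : IsII1 τ) {q : N} {hq : IsProj q} (hq0 : q ≠ 0) {p : Cn q hq}
    {w : ℕ → Cn q hq} :
    CHaarSeq (ctau τ q hq) U p w ↔ CHaarSeq τ U (val p) (fun k => val (w k)) := by
  have hqne := ct_hqne h hq hq0
  have e : ∀ m : ℕ, 1 ≤ m → (fun k => ctau τ q hq (w k ^ m)) =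
      fun k => (τ q)⁻¹ * (fun k => τ (val (w k) ^ m)) k := by
    intro m hm
    funext k
    exact ct_pow_iff h hq0 (w k) m hm
  constructor
  · rintro ⟨h1, h2⟩
    refine ⟨fun k => cunit_cn.1 (h1 k), ?_⟩
    intro m hm
    have h3 := h2 m hm
    rw [e m hm] at h3
    exact (ct_tendsto hqne _).1 h3
  · rintro ⟨h1, h2⟩
    refine ⟨fun k => cunit_cn.2 (h1 k), ?_⟩
    intro m hm
    rw [e m hm]
    exact (ct_tendsto hqne _).2 (h2 m hm)

theorem commSeq_cn (h : IsII1 τ) {q : N} {hq : IsProj q} (hq0 : q ≠ 0)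
    {a b : ℕ → Cn q hq} :
    CommSeq (ctau τ q hq) U a b ↔ CommSeq τ U (fun k => val (a k)) (fun k => val (b k)) := by
  have hs : 0 < Real.sqrt (τ q).re := Real.sqrt_pos.2 (tau_pos h hq hq0).1
  have e : (fun k => n2 (ctau τ q hq) (a k * b k - b k * a k)) =
      fun k => (Real.sqrt (τ q).re)⁻¹ * n2 τ (val (a k) * val (b k) - val (b k) * val (a k)) := by
    funext k
    rw [n2_cn h hq hq0, val_sub, val_mul, val_mul]
  unfold CommSeq
  rw [e]
  constructor
  · intro hf
    have h1 := hf.const_mul (Real.sqrt (τ q).re)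
    rw [mul_zero] at h1
    refine h1.congr ?_
    intro k
    rw [← mul_assoc, mul_inv_cancel₀ hs.ne', one_mul]
  · intro hf
    have h1 := hf.const_mul (Real.sqrt (τ q).re)⁻¹
    rw [mul_zero] at h1
    exact h1

theorem cpath_cn (h : IsII1 τ) {q : N} {hq : IsProj q} (hq0 : q ≠ 0) {p u v : Cn q hq} {n : ℕ} :
    CPath (ctau τ q hq) U p n u v ↔ CPath τ U (val p) n (val u) (val v) := by
  constructor
  · rintro ⟨w, h0, h1, h2, h3⟩
    refine ⟨fun i k => val (w i k), ?_, ?_, ?_, ?_⟩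
    · funext k
      show val (w 0 k) = val u
      rw [h0]
    · funext k
      show val (w (n + 1) k) = val v
      rw [h1]
    · intro i hi
      exact (chaarSeq_cn h hq0).1 (h2 i hi)
    · intro i hi
      exact (commSeq_cn h hq0).1 (h3 i hi)
  · rintro ⟨w, h0, h1, h2, h3⟩
    classical
    have hmem : ∀ x : N, x ∈ CUnit (val p) → q * x = x ∧ x * q = x := by
      rintro x ⟨a1, a2, -, -⟩
      refine ⟨?_, ?_⟩
      · calc q * x = q * (val p * x) := by rw [a1]
          _ = (q * val p) * x := by rw [mul_assoc]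
          _ = x := by rw [(val_mem p).1, a1]
      · calc x * q = (x * val p) * q := by rw [a2]
          _ = x * (val p * q) := by rw [mul_assoc]
          _ = x := by rw [(val_mem p).2, a2]
    obtain ⟨W, hW⟩ : ∃ W : ℕ → ℕ → Cn q hq, ∀ i k, q * w i k = w i k ∧ w i k * q = w i k →
        val (W i k) = w i k := by
      refine ⟨fun i k => if hx : q * w i k = w i k ∧ w i k * q = w i k then mk (w i k) hx else 0, ?_⟩
      intro i k hx
      show val (if hx : q * w i k = w i k ∧ w i k * q = w i k then mk (w i k) hx else 0) = w i k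
      rw [dif_pos hx, val_mk]
    have hWv : ∀ i ≤ n + 1, (fun k => val (W i k)) = w i := by
      intro i hi
      funext k
      exact hW i k (hmem _ ((h2 i hi).1 k))
    refine ⟨W, ?_, ?_, ?_, ?_⟩
    · funext k
      apply val_inj
      rw [congrFun (hWv 0 (by omega)) k, h0]
    · funext k
      apply val_inj
      rw [congrFun (hWv (n + 1) le_rfl) k, h1]
    · intro i hi
      rw [chaarSeq_cn h hq0, hWv i hi]
      exact h2 i hi
    · intro i hi
      rw [commSeq_cn h hq0, hWv i (by omega), hWv (i + 1) (by omega)]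
      exact h3 i hi

theorem uniq_cn (h : IsII1 τ) {q : N} {hq : IsProj q} (hq0 : q ≠ 0) {p : Cn q hq} :
    Uniq (ctau τ q hq) U p ↔ Uniq τ U (val p) := by
  have hmem : ∀ x : N, x ∈ CUnit (val p) → q * x = x ∧ x * q = x := by
    rintro x ⟨a1, a2, -, -⟩
    refine ⟨?_, ?_⟩
    · calc q * x = q * (val p * x) := by rw [a1]
        _ = (q * val p) * x := by rw [mul_assoc]
        _ = x := by rw [(val_mem p).1, a1]
    · calc x * q = (x * val p) * q := by rw [a2]
        _ = x * (val p * q) := by rw [mul_assoc]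
        _ = x := by rw [(val_mem p).2, a2]
  constructor
  · intro hU u hu v hv
    have hu' := hmem u hu.1
    have hv' := hmem v hv.1
    obtain ⟨n, hn⟩ := hU (mk u hu') ((chaar_cn h hq0).2 (by rw [val_mk]; exact hu))
      (mk v hv') ((chaar_cn h hq0).2 (by rw [val_mk]; exact hv))
    refine ⟨n, ?_⟩
    have h1 := (cpath_cn h hq0).1 hn
    rw [val_mk, val_mk] at h1
    exact h1
  · intro hU u hu v hv
    obtain ⟨n, hn⟩ := hU (val u) ((chaar_cn h hq0).1 hu) (val v) ((chaar_cn h hq0).1 hv)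
    exact ⟨n, (cpath_cn h hq0).2 hn⟩

end AM
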