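import Pool.Agent.H77.ST.Df

/-!
# Sequential commutation in corners of a II₁ factor: definitions

For a projection `p` of `N` the corner `pNp` is `{x | p x = x = x p}`, with unit `p` and normalised
trace `τ(p)⁻¹ τ`.  The amplifications of a II₁ factor are the corners of its matrix algebras.
-/

open Filter Topology

namespace AM

open SC ST

variable {N : Type*} [CStarAlgebra N]

/-- The unitary group of the corner `pNp`. -/
def CUnit (p : N) : Set N := {w | p * w = w ∧ w * p = w ∧ star w * w = p ∧ w * star w = p}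

/-- The Haar unitaries of the corner `pNp`. -/
def CHaar (τ : N →ₗ[ℂ] ℂ) (p : N) : Set N :=
  {w | w ∈ CUnit p ∧ ∀ m : ℕ, 1 ≤ m → τ (w ^ m) = 0}

/-- The sequence `w` of unitaries of `pNp` represents a Haar unitary of the ultrapower of `pNp`. -/
def CHaarSeq (τ : N →ₗ[ℂ] ℂ) (U : Ultrafilter ℕ) (p : N) (w : ℕ → N) : Prop :=
  (∀ k, w k ∈ CUnit p) ∧ ∀ m : ℕ, 1 ≤ m → Tendsto (fun k => τ (w k ^ m)) U (𝓝 0)

/-- `u` and `v` are joined by a sequentially commuting path with `n` intermediate Haar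
unitaries `w 1, …, w n` of the ultrapower of `pNp`. -/
def CPath (τ : N →ₗ[ℂ] ℂ) (U : Ultrafilter ℕ) (p : N) (n : ℕ) (u v : N) : Prop :=
  ∃ w : ℕ → ℕ → N, w 0 = (fun _ => u) ∧ w (n + 1) = (fun _ => v) ∧
    (∀ i ≤ n + 1, CHaarSeq τ U p (w i)) ∧ ∀ i ≤ n, CommSeq τ U (w i) (w (i + 1))

/-- `pNp` has a unique sequential commutation orbit. -/
def Uniq (τ : N →ₗ[ℂ] ℂ) (U : Ultrafilter ℕ) (p : N) : Prop :=
  ∀ u ∈ CHaar τ p, ∀ v ∈ CHaar τ p, ∃ n, CPath τ U p n u v

/-- `φ` is a *-isomorphism of `N` onto the corner `qNq`, `q ≠ 0`.  (It scales the trace by `τ(q)`, which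
makes it injective; for a II₁ factor the scaling is automatic, because the trace is unique.) -/
structure CornerIso (τ : N →ₗ[ℂ] ℂ) (q : N) (φ : N →⋆ₙₐ[ℂ] N) : Prop where
  proj : IsProj q
  ne_zero : q ≠ 0
  left : ∀ x : N, q * φ x = φ x
  right : ∀ x : N, φ x * q = φ x
  surj : ∀ y : N, q * y = y → y * q = y → ∃ x : N, φ x = y
  trace : ∀ x : N, τ (φ x) = τ q * τ x

end AM
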