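import Pool.Agent.H77.AM.Df

/-!
# Corners generated by a single orbit: definitions
-/

open Filter Topology

namespace AM

open SC ST

variable {N : Type*} [CStarAlgebra N]

/-- The sequential commutation orbit of `u` in the corner `pNp`. -/
def COrb (τ : N →ₗ[ℂ] ℂ) (U : Ultrafilter ℕ) (p u : N) : Set N :=
  {v | v ∈ CHaar τ p ∧ ∃ n, CPath τ U p n u v}

/-- `pNp` is generated, as a von Neumann algebra, by a single sequential commutation orbit: every
2-norm closed *-subalgebra of `N` that contains the orbit contains `pNp`. -/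
def GenOne (τ : N →ₗ[ℂ] ℂ) (U : Ultrafilter ℕ) (p : N) : Prop :=
  ∃ u ∈ CHaar τ p, ∀ M : NonUnitalStarSubalgebra ℂ N, Closed2 τ (M : Set N) →
    COrb τ U p u ⊆ (M : Set N) → ∀ x : N, p * x = x → x * p = x → x ∈ M

end AM
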