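import Pool.Agent.H77.AM.Pt
import Pool.Agent.H77.AM.Cj

/-!
# Ne: every corner of a II₁ factor containing a Haar unitary contains Haar unitaries

`comm_haar`: take `u₀ ∈ Haar τ`, by `proj_trace` (with `p = 1`) a projection `e` commuting with `u₀` with
`τ e = τ f`, by `proj_conj` a unitary `w` with `w e w* = f`; then `w u₀ w*` is a Haar unitary commuting
with `f` (`SC.haar_conj` or `ST.haar_conj`).  `chaar_nonempty`: `ST.haar_corner` (ST/Hk) for it.
`sub_proj`: `comm_haar` for `p`, then `proj_trace`.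
(`τ f` is real: `ST.proj_tau`, `isTr_of_isII1 h`.)
-/

open Filter Topology

namespace AM

open SC ST

variable {N : Type*} [CStarAlgebra N] {τ : N →ₗ[ℂ] ℂ} {U : Ultrafilter ℕ}

theorem comm_haar (h : IsII1 τ) (hne : (Haar τ).Nonempty) {f : N} (hf : IsProj f) :
    ∃ u ∈ Haar τ, f * u = u * f := by
  obtain ⟨u, hu⟩ := hne
  have hT : IsTr τ := isTr_of_isII1 h
  obtain ⟨i1, i2, i3, -⟩ := proj_tau hT hf
  have hre : τ f = (((τ f).re : ℝ) : ℂ) := Complex.ext (by simp) (by simp [i1])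
  obtain ⟨e, he, heu, -, hte⟩ := proj_trace hT hu (p := 1) ⟨star_one N, one_mul 1⟩
    (by rw [one_mul, mul_one]) (τ f).re i2 (by rw [h.map_one]; simpa using i3)
  obtain ⟨w, hw, hwf⟩ := proj_conj h he hf (hte.trans hre.symm)
  have hww : star w * w = 1 := Unitary.star_mul_self_of_mem hw
  refine ⟨w * u * star w, ST.haar_conj hT hu hw, ?_⟩
  rw [← hwf]
  calc w * e * star w * (w * u * star w) = w * e * (star w * w) * u * star w := by noncomm_ring
    _ = w * (e * u) * star w := by rw [hww, mul_one, mul_assoc w e u]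
    _ = w * u * (star w * w) * e * star w := by rw [heu, hww, mul_one, mul_assoc w u e]
    _ = w * u * star w * (w * e * star w) := by noncomm_ring

theorem chaar_nonempty (h : IsII1 τ) (hne : (Haar τ).Nonempty) {f : N} (hf : IsProj f) :
    (CHaar τ f).Nonempty := by
  obtain ⟨u, hu, hfu⟩ := comm_haar h hne hf
  obtain ⟨y, -, h1, h2, h3, h4, h5⟩ := haar_corner (isTr_of_isII1 h) hu hf hfu
  exact ⟨y, ⟨h1, h2, h3, h4⟩, h5⟩

theorem sub_proj (h : IsII1 τ) (hne : (Haar τ).Nonempty) {f : N} (hf : IsProj f) (s : ℝ)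
    (hs : 0 ≤ s) (hsf : s ≤ (τ f).re) : ∃ e : N, IsProj e ∧ f * e = e ∧ τ e = (s : ℂ) := by
  obtain ⟨u, hu, hfu⟩ := comm_haar h hne hf
  obtain ⟨e, he, -, hfe, hte⟩ := proj_trace (isTr_of_isII1 h) hu hf hfu s hs hsf
  exact ⟨e, he, hfe, hte⟩

end AM
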