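import Pool.Agent.H77.AM.Cg
import Pool.Agent.H77.AM.Ct
import Pool.Agent.H77.AM.Ne
import Pool.Agent.H77.AM.Ad
import Pool.Agent.H77.ST.Mp

/-!
# Gh: if some corner contains a Haar unitary then so does `N`

`haar_up_step`: let `a ∈ CHaar τ p`.  `ST.max_pi` (ST/Mp) for `f = p`, `g = 1 - p` gives a partial isometry `x`
with `(1 - p) x = x`, `x p = x` and `((1 - p) - x x*) c (p - x* x) = 0` for all `c`; by `SC.corner`
(`x ≠ 0 → y ≠ 0 → ∃ z, x * z * y ≠ 0`) either `x x* = 1 - p` or `x* x = p`.
Case 1, `x x* = 1 - p`: `e = x* x` is a projection with `p e = e`.  In the II₁ factor `Cn p` (`cn_II1`), `Haar (ctau)`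
is non-empty (`chaar_one`, `chaar_cn`), so `chaar_nonempty` there gives `y ∈ CHaar τ e` (`chaar_cn`), and
`a + x y x* ∈ CHaar τ 1 = Haar τ` (`chaar_add`; `x y x*` is in `CHaar τ (1 - p)`).
Case 2, `x* x = p`: `q = p + x x*`, `τ q = 2 τ p`, `a + x a x* ∈ CHaar τ q`.
-/

open Filter Topology

namespace AM

open SC ST

variable {N : Type*} [CStarAlgebra N] {τ : N →ₗ[ℂ] ℂ} {U : Ultrafilter ℕ}

/-- transport by a partial isometry -/
theorem chaar_iso (h : IsII1 τ) {e x y : N} (he : IsProj e) (hx : star x * x = e)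
    (hy : y ∈ CHaar τ e) : x * y * star x ∈ CHaar τ (x * star x) := by
  obtain ⟨⟨h1, h2, h3, h4⟩, h5⟩ := hy
  have hpi : x * star x * x = x := piso_of_proj (by rw [hx]; exact he.2)
  have hxe : x * e = x := by rw [← hx, ← mul_assoc, hpi]
  refine ⟨⟨?_, ?_, ?_, ?_⟩, ?_⟩
  · calc x * star x * (x * y * star x) = (x * star x * x) * y * star x := by noncomm_ring
      _ = x * y * star x := by rw [hpi]
  · calc x * y * star x * (x * star x) = x * (y * (star x * x)) * star x := by noncomm_ring
      _ = x * y * star x := by rw [hx, h2]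
  · calc star (x * y * star x) * (x * y * star x)
        = x * star y * (star x * x) * y * star x := by
          rw [star_mul, star_mul, star_star]; noncomm_ring
      _ = x * (star y * (e * y)) * star x := by rw [hx]; noncomm_ring
      _ = x * star x := by rw [h1, h3, hxe]
  · calc x * y * star x * star (x * y * star x)
        = x * y * (star x * x) * star y * star x := by
          rw [star_mul, star_mul, star_star]; noncomm_ring
      _ = x * ((y * e) * star y) * star x := by rw [hx]; noncomm_ring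
      _ = x * star x := by rw [h2, h4, hxe]
  · intro m hm
    have hp : ∀ m : ℕ, (x * y * star x) ^ (m + 1) = x * y ^ (m + 1) * star x := by
      intro m
      induction m with
      | zero => simp
      | succ m ih =>
        rw [pow_succ, ih]
        calc x * y ^ (m + 1) * star x * (x * y * star x)
            = x * (y ^ (m + 1) * ((star x * x) * y)) * star x := by noncomm_ring
          _ = x * y ^ (m + 1 + 1) * star x := by rw [hx, h1, ← pow_succ]
    obtain ⟨k, rfl⟩ : ∃ k, m = k + 1 := ⟨m - 1, by omega⟩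
    rw [hp, h.tracial, ← mul_assoc, hx]
    have h6 : e * y ^ (k + 1) = y ^ (k + 1) := by
      rw [pow_succ', ← mul_assoc, h1]
    rw [h6]
    exact h5 _ hm

theorem haar_up_step (h : IsII1 τ) {p : N} (hp : IsProj p) (hp0 : p ≠ 0)
    (hne : (CHaar τ p).Nonempty) :
    (Haar τ).Nonempty ∨ ∃ q : N, IsProj q ∧ q ≠ 0 ∧ τ q = 2 * τ p ∧ (CHaar τ q).Nonempty := by
  have hT : IsTr τ := isTr_of_isII1 h
  have hp1 : p * (1 - p) = 0 := by rw [mul_sub, mul_one, hp.2, sub_self]
  have hp2 : (1 - p) * p = 0 := by rw [sub_mul, one_mul, hp.2, sub_self]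
  have hq : IsProj (1 - p) :=
    ⟨by rw [star_sub, star_one, hp.1], by rw [sub_mul, one_mul, hp1, sub_zero]⟩
  obtain ⟨x, hx, hgx, hxp, hmax⟩ := max_pi hT hp hq
  have hpx : p * x = 0 := by rw [← hgx, ← mul_assoc, hp1, zero_mul]
  have hxsp : star x * p = 0 := by
    have := congrArg star hpx
    rwa [star_mul, hp.1, star_zero] at this
  have hpxs : p * star x = star x := by
    have := congrArg star hxp
    rwa [star_mul, hp.1] at this
  obtain ⟨a, ha⟩ := hne
  by_cases hA : 1 - p - x * star x = 0
  · left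
    have hxx : x * star x = 1 - p := (sub_eq_zero.1 hA).symm
    have he : IsProj (star x * x) := (piso_proj hx).1
    have hpe : p * (star x * x) = star x * x := by rw [← mul_assoc, hpxs]
    have hep : star x * x * p = star x * x := by rw [mul_assoc, hxp]
    have hII := cn_II1 h hp hp0 ⟨a, ha⟩
    have hHne : (Haar (ctau τ p hp)).Nonempty := by
      refine ⟨mk a ⟨ha.1.1, ha.1.2.1⟩, ?_⟩
      rw [← chaar_one, chaar_cn h hp0]
      exact ha
    obtain ⟨E, hE⟩ : ∃ E : Cn p hp, val E = star x * x := ⟨mk (star x * x) ⟨hpe, hep⟩, rfl⟩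
    have hEp : IsProj E := by
      constructor
      · apply val_inj
        rw [val_star, hE, he.1]
      · apply val_inj
        rw [val_mul, hE, he.2]
    obtain ⟨y, hy⟩ := chaar_nonempty hII hHne hEp
    rw [chaar_cn h hp0, hE] at hy
    have h1 := chaar_iso h he rfl hy
    rw [hxx] at h1
    have h2 := chaar_add hp1 hp2 ha h1
    rw [add_sub_cancel, chaar_one] at h2
    exact ⟨_, h2⟩
  · right
    have hB : p - star x * x = 0 := by
      by_contra hB
      obtain ⟨z, hz⟩ := SC.corner h hA hB
      exact hz (hmax z)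
    have hxx : star x * x = p := (sub_eq_zero.1 hB).symm
    have h1 : p * (x * star x) = 0 := by rw [← mul_assoc, hpx, zero_mul]
    have h2 : x * star x * p = 0 := by rw [mul_assoc, hxsp, mul_zero]
    have hP : IsProj (x * star x) := (piso_proj hx).2
    have ht : τ (p + x * star x) = 2 * τ p := by
      rw [map_add, h.tracial x (star x), hxx]
      ring
    refine ⟨p + x * star x, ⟨?_, ?_⟩, ?_, ht, ?_⟩
    · rw [star_add, hp.1, hP.1]
    · rw [add_mul, mul_add, mul_add, h1, h2, hp.2, hP.2, add_zero, zero_add]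
    · intro h0
      rw [h0, map_zero] at ht
      obtain ⟨h3, h4⟩ := tau_pos h hp hp0
      rcases mul_eq_zero.1 ht.symm with h5 | h5
      · norm_num at h5
      · rw [h5] at h3
        simp at h3
    · exact ⟨_, chaar_add h1 h2 ha (chaar_iso h hp hxx ha)⟩

theorem haar_up (h : IsII1 τ) {p : N} (hp : IsProj p) (hp0 : p ≠ 0)
    (hne : (CHaar τ p).Nonempty) : (Haar τ).Nonempty := by
  have key : ∀ n : ℕ, ∀ p : N, IsProj p → p ≠ 0 → (CHaar τ p).Nonempty →
      1 < 2 ^ n * (τ p).re → (Haar τ).Nonempty := by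
    intro n
    induction n with
    | zero =>
      intro p hp _ _ h1
      have h2 := (proj_tau (isTr_of_isII1 h) hp).2.2.1
      rw [pow_zero, one_mul] at h1
      linarith
    | succ n ih =>
      intro p hp hp0 hne h1
      rcases haar_up_step h hp hp0 hne with h2 | ⟨q, hq, hq0, hqt, hqn⟩
      · exact h2
      · refine ih q hq hq0 hqn ?_
        rw [hqt]
        have h3 : (2 * τ p).re = 2 * (τ p).re := by simp
        rw [h3]
        calc (1 : ℝ) < 2 ^ (n + 1) * (τ p).re := h1
          _ = 2 ^ n * (2 * (τ p).re) := by ring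
  have hpos := (tau_pos h hp hp0).1
  obtain ⟨n, hn⟩ := pow_unbounded_of_one_lt (1 / (τ p).re) (one_lt_two)
  refine key n p hp hp0 hne ?_
  rwa [div_lt_iff₀ hpos] at hn

end AM
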