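import Pool.Agent.H77.AM.Ci

/-!
# Is: transport of `Uniq` by an isomorphism onto a corner

`φ` is injective: `φ x = 0` gives `τ (star x * x) = 0` by `hφ.trace` (`τ q ≠ 0`).  For
`u ∈ CHaar τ (φ p)`: `q * u = u` (as `q * φ p = φ p`), so `u = φ u'`, and `u' ∈ CHaar τ p` by injectivity.
Apply `φ` to the path.  `n2 τ (φ x) = Real.sqrt (τ q).re * n2 τ x`.
-/

open Filter Topology

namespace AM

open SC ST

variable {N : Type*} [CStarAlgebra N] {τ : N →ₗ[ℂ] ℂ} {U : Ultrafilter ℕ}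

theorem iso_tau_q (h : IsII1 τ) {q : N} {φ : N →⋆ₙₐ[ℂ] N} (hφ : CornerIso τ q φ) :
    (τ q).im = 0 ∧ 0 ≤ (τ q).re ∧ τ q ≠ 0 := by
  have h1 : star q * q = q := by rw [hφ.proj.1, hφ.proj.2]
  refine ⟨?_, ?_, ?_⟩
  · have := h.real q
    rwa [h1] at this
  · have := h.nonneg q
    rwa [h1] at this
  · intro h0
    apply hφ.ne_zero
    apply h.faithful
    rw [h1, h0]

theorem iso_n2 (h : IsII1 τ) {q : N} {φ : N →⋆ₙₐ[ℂ] N} (hφ : CornerIso τ q φ) (x : N) :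
    n2 τ (φ x) = Real.sqrt (τ q).re * n2 τ x := by
  obtain ⟨h1, h2, -⟩ := iso_tau_q h hφ
  unfold n2
  rw [← Real.sqrt_mul h2, ← map_star, ← map_mul, hφ.trace, Complex.mul_re, h1, zero_mul, sub_zero]

theorem iso_inj (h : IsII1 τ) {q : N} {φ : N →⋆ₙₐ[ℂ] N} (hφ : CornerIso τ q φ) :
    Function.Injective φ := by
  obtain ⟨-, -, h3⟩ := iso_tau_q h hφ
  intro x y hxy
  have h1 : φ (x - y) = 0 := by rw [map_sub, hxy, sub_self]
  have h2 : φ (star (x - y) * (x - y)) = 0 := by rw [map_mul, h1, mul_zero]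
  have h4 := hφ.trace (star (x - y) * (x - y))
  rw [h2, map_zero] at h4
  have h5 := (mul_eq_zero.1 h4.symm).resolve_left h3
  exact sub_eq_zero.1 (h.faithful _ h5)

theorem iso_pow (φ : N →⋆ₙₐ[ℂ] N) (x : N) : ∀ m : ℕ, 1 ≤ m → φ (x ^ m) = φ x ^ m := by
  intro m hm
  induction m, hm using Nat.le_induction with
  | base => rw [pow_one, pow_one]
  | succ m _ ih => rw [pow_succ, map_mul, ih, pow_succ]

theorem iso_cunit {q : N} {φ : N →⋆ₙₐ[ℂ] N} {p w : N} (hw : w ∈ CUnit p) : φ w ∈ CUnit (φ p) := by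
  obtain ⟨h1, h2, h3, h4⟩ := hw
  refine ⟨?_, ?_, ?_, ?_⟩
  · rw [← map_mul, h1]
  · rw [← map_mul, h2]
  · rw [← map_star, ← map_mul, h3]
  · rw [← map_star, ← map_mul, h4]

theorem iso_chaar (h : IsII1 τ) {q : N} {φ : N →⋆ₙₐ[ℂ] N} (hφ : CornerIso τ q φ) {p u : N}
    (hu : u ∈ CHaar τ (φ p)) : ∃ u' ∈ CHaar τ p, φ u' = u := by
  obtain ⟨-, -, h3⟩ := iso_tau_q h hφ
  have hinj := iso_inj h hφ
  obtain ⟨⟨a1, a2, a3, a4⟩, a5⟩ := hu
  have h1 : q * u = u := by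
    rw [← a1, ← mul_assoc, hφ.left]
  have h2 : u * q = u := by
    rw [← a2, mul_assoc, hφ.right]
  obtain ⟨u', rfl⟩ := hφ.surj u h1 h2
  refine ⟨u', ⟨⟨?_, ?_, ?_, ?_⟩, ?_⟩, rfl⟩
  · apply hinj; rw [map_mul, a1]
  · apply hinj; rw [map_mul, a2]
  · apply hinj; rw [map_mul, map_star, a3]
  · apply hinj; rw [map_mul, map_star, a4]
  · intro m hm
    have h4 := a5 m hm
    rw [← iso_pow φ u' m hm, hφ.trace] at h4
    exact (mul_eq_zero.1 h4).resolve_left h3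

theorem uniq_iso (h : IsII1 τ) {q : N} {φ : N →⋆ₙₐ[ℂ] N} (hφ : CornerIso τ q φ) {p : N}
    (hp : IsProj p) (hu : Uniq τ U p) : Uniq τ U (φ p) := by
  intro u hu1 v hv1
  obtain ⟨u', hu', rfl⟩ := iso_chaar h hφ hu1
  obtain ⟨v', hv', rfl⟩ := iso_chaar h hφ hv1
  obtain ⟨n, w, hw0, hwn, hwH, hwC⟩ := hu u' hu' v' hv'
  refine ⟨n, fun i k => φ (w i k), ?_, ?_, ?_, ?_⟩
  · funext k
    change φ (w 0 k) = φ u'
    rw [hw0]
  · funext k
    change φ (w (n + 1) k) = φ v'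
    rw [hwn]
  · intro i hi
    refine ⟨fun k => iso_cunit (q := q) ((hwH i hi).1 k), fun m hm => ?_⟩
    have h1 := ((hwH i hi).2 m hm).const_mul (τ q)
    rw [mul_zero] at h1
    refine h1.congr fun k => ?_
    rw [← iso_pow φ (w i k) m hm, hφ.trace]
  · intro i hi
    have h1 := (hwC i hi).const_mul (Real.sqrt (τ q).re)
    rw [mul_zero] at h1
    refine h1.congr fun k => ?_
    rw [← iso_n2 h hφ, map_sub, map_mul, map_mul]

end AM
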