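import Pool.Agent.H77.AM.Gd
import Pool.Agent.H77.AM.Is

/-!
# Gi: transport of `GenOne` by an isomorphism onto a corner

Witness `φ u`.  `iso_path`: images of paths are paths (`iso_n2`, `hφ.trace`).  For `M` closed in `N` containing the orbit
of `φ u` in the corner of `φ p` take `M' = {x | φ x ∈ M}` (closed by `iso_n2`); it contains the orbit of `u` in `pNp`.
An element `x` with `φ p * x = x = x * φ p` satisfies `q * x = x = x * q` and so is `φ x'` with
`p x' = x' = x' p` (`iso_inj`, `hφ.surj`).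
-/

open Filter Topology

namespace AM

open SC ST

variable {N : Type*} [CStarAlgebra N] {τ : N →ₗ[ℂ] ℂ} {U : Ultrafilter ℕ}

theorem iso_chaar_map (_h : IsII1 τ) {q : N} {φ : N →⋆ₙₐ[ℂ] N} (hφ : CornerIso τ q φ) {p u : N}
    (hu : u ∈ CHaar τ p) : φ u ∈ CHaar τ (φ p) := by
  refine ⟨iso_cunit (q := q) hu.1, fun m hm => ?_⟩
  rw [← iso_pow φ u m hm, hφ.trace, hu.2 m hm, mul_zero]

theorem iso_path (h : IsII1 τ) {q : N} {φ : N →⋆ₙₐ[ℂ] N} (hφ : CornerIso τ q φ) {p u v : N}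
    {n : ℕ} (hu : CPath τ U p n u v) : CPath τ U (φ p) n (φ u) (φ v) := by
  obtain ⟨w, hw0, hwn, hwH, hwC⟩ := hu
  refine ⟨fun i k => φ (w i k), ?_, ?_, ?_, ?_⟩
  · funext k
    change φ (w 0 k) = φ u
    rw [hw0]
  · funext k
    change φ (w (n + 1) k) = φ v
    rw [hwn]
  · intro i hi
    refine ⟨fun k => iso_cunit (q := q) ((hwH i hi).1 k), fun m hm => ?_⟩
    have h1 := ((hwH i hi).2 m hm).const_mul (τ q)
    rw [mul_zero] at h1
    refine h1.congr fun k => ?_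
    rw [← iso_pow φ (w i k) m hm, hφ.trace]
  · intro i hi
    have h1 := (hwC i hi).const_mul (Real.sqrt (τ q).re)
    rw [mul_zero] at h1
    refine h1.congr fun k => ?_
    rw [← iso_n2 h hφ, map_sub, map_mul, map_mul]

theorem genOne_iso (h : IsII1 τ) {q : N} {φ : N →⋆ₙₐ[ℂ] N} (hφ : CornerIso τ q φ) {p : N}
    (hp : IsProj p) (hu : GenOne τ U p) : GenOne τ U (φ p) := by
  obtain ⟨u, hu1, hu2⟩ := hu
  refine ⟨φ u, iso_chaar_map h hφ hu1, ?_⟩
  intro M hM hO x hx1 hx2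
  have h0 := Real.sqrt_nonneg (τ q).re
  have hM' : Closed2 τ ((M.comap φ : NonUnitalStarSubalgebra ℂ N) : Set N) := by
    intro y hy
    change φ y ∈ (M : Set N)
    apply hM
    intro ε hε
    obtain ⟨z, hz, hzy⟩ := hy (ε / (Real.sqrt (τ q).re + 1)) (by positivity)
    refine ⟨φ z, hz, ?_⟩
    rw [← map_sub, iso_n2 h hφ]
    have h3 : 0 ≤ n2 τ (y - z) := Real.sqrt_nonneg _
    calc Real.sqrt (τ q).re * n2 τ (y - z) ≤ (Real.sqrt (τ q).re + 1) * n2 τ (y - z) := by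
          nlinarith
      _ < (Real.sqrt (τ q).re + 1) * (ε / (Real.sqrt (τ q).re + 1)) :=
          mul_lt_mul_of_pos_left hzy (by positivity)
      _ = ε := by field_simp
  have hO' : COrb τ U p u ⊆ ((M.comap φ : NonUnitalStarSubalgebra ℂ N) : Set N) := by
    rintro v ⟨hv, n, hn⟩
    exact hO ⟨iso_chaar_map h hφ hv, n, iso_path h hφ hn⟩
  have h1 : q * x = x := by rw [← hx1, ← mul_assoc, hφ.left]
  have h2 : x * q = x := by rw [← hx2, mul_assoc, hφ.right]
  obtain ⟨x', rfl⟩ := hφ.surj x h1 h2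
  exact hu2 _ hM' hO' x' (iso_inj h hφ (by rw [map_mul, hx1])) (iso_inj h hφ (by rw [map_mul, hx2]))

end AM
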