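import Pool.Agent.H77.AM.Gd
import Pool.Agent.H77.AM.Cj

/-!
# Gj: `GenOne` only depends on the trace of the projection

`proj_conj` gives `w` with `w p w* = q`; witness `w u w*`.  For `M` closed containing the orbit of `w u w*` in
`qNq` let `M' = {x | w x w* ∈ M}` (a closed non-unital *-subalgebra, `n2 τ (w x w*) = n2 τ x`); it contains the orbit
of `u` in `pNp` (`cpath_conj`, `chaar_conj`).
-/

open Filter Topology

namespace AM

open SC ST

variable {N : Type*} [CStarAlgebra N] {τ : N →ₗ[ℂ] ℂ} {U : Ultrafilter ℕ}

theorem genOne_conj (h : IsII1 τ) {p q : N} (hp : IsProj p) (hq : IsProj q) (ht : τ p = τ q)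
    (hu : GenOne τ U p) : GenOne τ U q := by
  obtain ⟨w, hw, hwq⟩ := proj_conj h hp hq ht
  obtain ⟨u, huu, hgen⟩ := hu
  have e1 : star w * w = 1 := Unitary.star_mul_self_of_mem hw
  have e2 : w * star w = 1 := Unitary.mul_star_self_of_mem hw
  have e5 : p * star w = star w * q := by
    rw [← hwq]
    calc p * star w = (star w * w) * p * star w := by rw [e1, one_mul]
      _ = star w * (w * p * star w) := by simp only [mul_assoc]
  have e6 : w * p = q * w := by
    rw [← hwq]
    calc w * p = w * p * (star w * w) := by rw [e1, mul_one]
      _ = (w * p * star w) * w := by simp only [mul_assoc]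
  have hw1 := chaar_conj h hw huu
  rw [hwq] at hw1
  refine ⟨w * u * star w, hw1, fun M hM hO => ?_⟩
  obtain ⟨M', hM'⟩ : ∃ M' : NonUnitalStarSubalgebra ℂ N, ∀ x : N, x ∈ M' ↔ w * x * star w ∈ M := by
    refine ⟨{ carrier := {x | w * x * star w ∈ M}
              add_mem' := ?_
              zero_mem' := ?_
              mul_mem' := ?_
              smul_mem' := ?_
              star_mem' := ?_ }, fun x => Iff.rfl⟩
    · intro x y hx hy
      change w * (x + y) * star w ∈ M
      rw [mul_add, add_mul]
      exact add_mem hx hy
    · change w * 0 * star w ∈ M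
      rw [mul_zero, zero_mul]
      exact zero_mem M
    · intro x y hx hy
      change w * (x * y) * star w ∈ M
      rw [← conj_mul hw]
      exact mul_mem hx hy
    · intro c x hx
      change w * (c • x) * star w ∈ M
      rw [mul_smul_comm, smul_mul_assoc]
      exact SMulMemClass.smul_mem c hx
    · intro x hx
      change w * star x * star w ∈ M
      rw [← conj_star]
      exact star_mem hx
  have hcl : Closed2 τ (M' : Set N) := by
    intro x hx
    apply (hM' x).mpr
    apply hM
    intro ε hε
    obtain ⟨y, hy, hxy⟩ := hx ε hε
    refine ⟨w * y * star w, (hM' y).mp hy, ?_⟩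
    have e7 : w * x * star w - w * y * star w = w * (x - y) * star w := by
      rw [mul_sub, sub_mul]
    rw [e7, n2_conj h hw]
    exact hxy
  have horb : COrb τ U p u ⊆ (M' : Set N) := by
    intro v hv
    obtain ⟨hv1, n, hn⟩ := hv
    apply (hM' v).mpr
    apply hO
    have h3 := chaar_conj h hw hv1
    have h4 := cpath_conj h hw hn
    rw [hwq] at h3 h4
    exact ⟨h3, n, h4⟩
  intro x hx1 hx2
  have h5 := hgen M' hcl horb (star w * x * w) (by
    calc p * (star w * x * w) = (p * star w) * x * w := by simp only [mul_assoc]
      _ = star w * (q * x) * w := by rw [e5]; simp only [mul_assoc]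
      _ = star w * x * w := by rw [hx1]) (by
    calc star w * x * w * p = star w * x * (w * p) := by simp only [mul_assoc]
      _ = star w * (x * q) * w := by rw [e6]; simp only [mul_assoc]
      _ = star w * x * w := by rw [hx2])
  have h6 := (hM' _).mp h5
  have e8 : w * (star w * x * w) * star w = x := by
    calc w * (star w * x * w) * star w = (w * star w) * x * (w * star w) := by simp only [mul_assoc]
      _ = x := by rw [e2, one_mul, mul_one]
  rwa [e8] at h6

end AM
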