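import Pool.Agent.H77.AM.Ad

/-!
# Gr: a rotation

`r = 1 - p`.  Facts: `v e = v`, `r v = v`, `e v = 0`, `v r = 0`, `v p = v`, `p v = 0`, `e r = 0`, `r e = 0`,
`y e = y = e y`, `y r = 0 = r y`, `y' e = 0 = e y'`, `y' v = 0`, `v y' = 0`.  With `m = e + r + v - v*` and `c = (√2)⁻¹`:
`m* m = 2 (e + r) = m m*`; `v z = v y = z v` and `v* z = y v* = z v*` for `z = y + y' + v y v*`;
`w e = c (e + v)`, `w e w* = c² (e + v) (e + v*)`.
(e.g. `v - v * e`: `(v - v e)* (v - v e) = e - e - e + e = 0`, `CStarRing.star_mul_self_eq_zero_iff`.)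
-/

open Filter Topology

namespace AM

open SC ST

set_option linter.unusedSimpArgs false

variable {N : Type*} [CStarAlgebra N] {τ : N →ₗ[ℂ] ℂ} {U : Ultrafilter ℕ}

theorem rot_ve {e v : N} (he : IsProj e) (hv : star v * v = e) : v * e = v := by
  have h : star (v - v * e) * (v - v * e) = 0 := by
    rw [star_sub, star_mul, he.1]
    have h1 : (star v - e * star v) * (v - v * e)
        = star v * v - (star v * v) * e - e * (star v * v) + e * (star v * v) * e := by
      noncomm_ring
    rw [h1, hv, he.2, he.2]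
    abel
  exact (sub_eq_zero.1 (CStarRing.star_mul_self_eq_zero_iff _ |>.1 h)).symm

/-- all the products of the four generators -/
theorem rot_tab {p e v : N} (hp : IsProj p) (he : IsProj e) (hpe : p * e = e)
    (hep : e * p = e) (hv : star v * v = e) (hv' : v * star v = 1 - p) :
    v * e = v ∧ p * v = 0 ∧ e * v = 0 ∧ v * p = v ∧ v * v = 0 ∧
    e * star v = star v ∧ star v * p = 0 ∧ star v * e = 0 ∧ p * star v = star v ∧
    star v * star v = 0 := by
  have h1 : v * e = v := rot_ve he hv
  have h2 : p * v = 0 := by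
    have h : (1 - p) * v = v := by
      rw [← hv', mul_assoc, hv, h1]
    rw [sub_mul, one_mul] at h
    exact sub_eq_self.1 h
  have h3 : e * v = 0 := by
    rw [← hep, mul_assoc, h2, mul_zero]
  have h4 : v * p = v := by
    calc v * p = (v * e) * p := by rw [h1]
      _ = v * (e * p) := by rw [mul_assoc]
      _ = v := by rw [hep, h1]
  have h5 : v * v = 0 := by
    calc v * v = (v * e) * v := by rw [h1]
      _ = v * (e * v) := by rw [mul_assoc]
      _ = 0 := by rw [h3, mul_zero]
  refine ⟨h1, h2, h3, h4, h5, ?_, ?_, ?_, ?_, ?_⟩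
  · have := congrArg star h1
    rwa [star_mul, he.1] at this
  · have := congrArg star h2
    rwa [star_mul, hp.1, star_zero] at this
  · have := congrArg star h3
    rwa [star_mul, he.1, star_zero] at this
  · have := congrArg star h4
    rwa [star_mul, hp.1] at this
  · have := congrArg star h5
    rwa [star_mul, star_zero] at this

theorem rot_cc : ((Real.sqrt 2)⁻¹ : ℂ) * ((Real.sqrt 2)⁻¹ : ℂ) = (2 : ℂ)⁻¹ := by
  rw [← mul_inv]
  congr 1
  rw [← Complex.ofReal_mul, Real.mul_self_sqrt (by norm_num)]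
  norm_num

theorem rot_cstar : star ((Real.sqrt 2)⁻¹ : ℂ) = ((Real.sqrt 2)⁻¹ : ℂ) := by
  rw [← Complex.ofReal_inv]
  exact Complex.conj_ofReal _

theorem rot_star {p e v : N} (hp : IsProj p) (he : IsProj e) :
    star ((p - e) + ((Real.sqrt 2)⁻¹ : ℂ) • (e + (1 - p) + v - star v)) =
      (p - e) + ((Real.sqrt 2)⁻¹ : ℂ) • (e + (1 - p) + star v - v) := by
  rw [star_add, star_smul, rot_cstar, star_sub, hp.1, he.1, star_sub, star_add, star_add, star_sub,
    star_one, hp.1, he.1, star_star]

theorem rot_unitary {p e v : N} (hp : IsProj p) (he : IsProj e) (hpe : p * e = e)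
    (hep : e * p = e) (hv : star v * v = e) (hv' : v * star v = 1 - p) :
    (p - e) + ((Real.sqrt 2)⁻¹ : ℂ) • (e + (1 - p) + v - star v) ∈ unitary N := by
  obtain ⟨h1, h2, h3, h4, h5, h6, h7, h8, h9, h10⟩ := rot_tab hp he hpe hep hv hv'
  have hpp := hp.2
  have hee := he.2
  have a1 : (p - e) * (p - e) = p - e := by
    simp only [mul_sub, sub_mul, hpp, hee, hpe, hep]
    abel
  have a2 : (p - e) * (e + (1 - p) + v - star v) = 0 := by
    simp only [mul_sub, sub_mul, mul_add, add_mul, hpp, hee, hpe, hep, h1, h2, h3, h4, h5, h6, h7,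
      h8, h9, h10, mul_one, one_mul]
    abel
  have a3 : (p - e) * (e + (1 - p) + star v - v) = 0 := by
    simp only [mul_sub, sub_mul, mul_add, add_mul, hpp, hee, hpe, hep, h1, h2, h3, h4, h5, h6, h7,
      h8, h9, h10, mul_one, one_mul]
    abel
  have a4 : (e + (1 - p) + star v - v) * (p - e) = 0 := by
    simp only [mul_sub, sub_mul, mul_add, add_mul, hpp, hee, hpe, hep, h1, h2, h3, h4, h5, h6, h7,
      h8, h9, h10, mul_one, one_mul]
    abel
  have a5 : (e + (1 - p) + v - star v) * (p - e) = 0 := by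
    simp only [mul_sub, sub_mul, mul_add, add_mul, hpp, hee, hpe, hep, h1, h2, h3, h4, h5, h6, h7,
      h8, h9, h10, mul_one, one_mul]
    abel
  have a6 : (e + (1 - p) + star v - v) * (e + (1 - p) + v - star v)
      = (e + (1 - p)) + (e + (1 - p)) := by
    simp only [mul_sub, sub_mul, mul_add, add_mul, hpp, hee, hpe, hep, h1, h2, h3, h4, h5, h6, h7,
      h8, h9, h10, hv, hv', mul_one, one_mul]
    abel
  have a7 : (e + (1 - p) + v - star v) * (e + (1 - p) + star v - v)
      = (e + (1 - p)) + (e + (1 - p)) := by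
    simp only [mul_sub, sub_mul, mul_add, add_mul, hpp, hee, hpe, hep, h1, h2, h3, h4, h5, h6, h7,
      h8, h9, h10, hv, hv', mul_one, one_mul]
    abel
  have a8 : (2 : ℂ)⁻¹ • ((e + (1 - p)) + (e + (1 - p))) = e + (1 - p) := by
    rw [← two_smul ℂ (e + (1 - p)), smul_smul]
    norm_num
  rw [Unitary.mem_iff, rot_star hp he]
  constructor
  · rw [add_mul, mul_add, mul_add, a1, mul_smul_comm, a2, smul_mul_assoc, a4, smul_mul_assoc,
      mul_smul_comm, a6, smul_smul, rot_cc, a8]
    simp only [smul_zero, add_zero, zero_add]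
    abel
  · rw [add_mul, mul_add, mul_add, a1, mul_smul_comm, a3, smul_mul_assoc, a5, smul_mul_assoc,
      mul_smul_comm, a7, smul_smul, rot_cc, a8]
    simp only [smul_zero, add_zero, zero_add]
    abel

theorem rot_comm {p e v y y' : N} (hp : IsProj p) (he : IsProj e) (hpe : p * e = e)
    (hep : e * p = e) (hv : star v * v = e) (hv' : v * star v = 1 - p)
    (hy : y ∈ CHaar τ e) (hy' : y' ∈ CHaar τ (p - e)) :
    ((p - e) + ((Real.sqrt 2)⁻¹ : ℂ) • (e + (1 - p) + v - star v)) * (y + y' + v * y * star v) =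
      (y + y' + v * y * star v) * ((p - e) + ((Real.sqrt 2)⁻¹ : ℂ) • (e + (1 - p) + v - star v)) := by
  obtain ⟨h1, h2, h3, h4, h5, h6, h7, h8, h9, h10⟩ := rot_tab hp he hpe hep hv hv'
  have hpp := hp.2
  have hee := he.2
  obtain ⟨⟨y1, y2, -, -⟩, -⟩ := hy
  obtain ⟨⟨z1, z2, -, -⟩, -⟩ := hy'
  -- products of `y`
  have y3 : p * y = y := by
    calc p * y = p * (e * y) := by rw [y1]
      _ = (p * e) * y := by rw [mul_assoc]
      _ = y := by rw [hpe, y1]
  have y4 : y * p = y := by
    calc y * p = (y * e) * p := by rw [y2]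
      _ = y * (e * p) := by rw [mul_assoc]
      _ = y := by rw [hep, y2]
  have y5 : y * v = 0 := by
    calc y * v = (y * e) * v := by rw [y2]
      _ = y * (e * v) := by rw [mul_assoc]
      _ = 0 := by rw [h3, mul_zero]
  have y6 : star v * y = 0 := by
    calc star v * y = star v * (e * y) := by rw [y1]
      _ = (star v * e) * y := by rw [mul_assoc]
      _ = 0 := by rw [h8, zero_mul]
  -- products of `y'`
  have hpe1 : p * (p - e) = p - e := by rw [mul_sub, hpp, hpe]
  have hpe2 : (p - e) * p = p - e := by rw [sub_mul, hpp, hep]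
  have hpe3 : e * (p - e) = 0 := by rw [mul_sub, hep, hee, sub_self]
  have hpe4 : (p - e) * e = 0 := by rw [sub_mul, hpe, hee, sub_self]
  have z3 : p * y' = y' := by
    calc p * y' = p * ((p - e) * y') := by rw [z1]
      _ = (p * (p - e)) * y' := by rw [mul_assoc]
      _ = y' := by rw [hpe1, z1]
  have z4 : y' * p = y' := by
    calc y' * p = (y' * (p - e)) * p := by rw [z2]
      _ = y' * ((p - e) * p) := by rw [mul_assoc]
      _ = y' := by rw [hpe2, z2]
  have z5 : e * y' = 0 := by
    calc e * y' = e * ((p - e) * y') := by rw [z1]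
      _ = (e * (p - e)) * y' := by rw [mul_assoc]
      _ = 0 := by rw [hpe3, zero_mul]
  have z6 : y' * e = 0 := by
    calc y' * e = (y' * (p - e)) * e := by rw [z2]
      _ = y' * ((p - e) * e) := by rw [mul_assoc]
      _ = 0 := by rw [hpe4, mul_zero]
  have z7 : v * y' = 0 := by
    calc v * y' = (v * e) * y' := by rw [h1]
      _ = v * (e * y') := by rw [mul_assoc]
      _ = 0 := by rw [z5, mul_zero]
  have z8 : y' * v = 0 := by
    calc y' * v = (y' * p) * v := by rw [z4]
      _ = y' * (p * v) := by rw [mul_assoc]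
      _ = 0 := by rw [h2, mul_zero]
  have z9 : star v * y' = 0 := by
    calc star v * y' = star v * (p * y') := by rw [z3]
      _ = (star v * p) * y' := by rw [mul_assoc]
      _ = 0 := by rw [h7, zero_mul]
  have z10 : y' * star v = 0 := by
    calc y' * star v = y' * (e * star v) := by rw [h6]
      _ = (y' * e) * star v := by rw [mul_assoc]
      _ = 0 := by rw [z6, zero_mul]
  -- products of `t = v y v*`
  obtain ⟨t, ht⟩ : ∃ t, t = v * y * star v := ⟨_, rfl⟩
  have t1 : p * t = 0 := by rw [ht, ← mul_assoc, ← mul_assoc, h2, zero_mul, zero_mul]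
  have t2 : t * p = 0 := by rw [ht, mul_assoc, h7, mul_zero]
  have t3 : e * t = 0 := by rw [ht, ← mul_assoc, ← mul_assoc, h3, zero_mul, zero_mul]
  have t4 : t * e = 0 := by rw [ht, mul_assoc, h8, mul_zero]
  have t5 : v * t = 0 := by rw [ht, ← mul_assoc, ← mul_assoc, h5, zero_mul, zero_mul]
  have t6 : t * v = v * y := by rw [ht, mul_assoc, hv, mul_assoc, y2]
  have t7 : star v * t = y * star v := by rw [ht, ← mul_assoc, ← mul_assoc, hv, y1]
  have t8 : t * star v = 0 := by rw [ht, mul_assoc, h10, mul_zero]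
  rw [← ht]
  have b1 : (p - e) * (y + y' + t) = (y + y' + t) * (p - e) := by
    simp only [mul_sub, sub_mul, mul_add, add_mul, y1, y2, y3, y4, z3, z4, z5, z6, t1, t2, t3, t4]
    abel
  have b2 : (e + (1 - p) + v - star v) * (y + y' + t) = (y + y' + t) * (e + (1 - p) + v - star v) := by
    simp only [mul_sub, sub_mul, mul_add, add_mul, y1, y2, y3, y4, y5, y6, z3, z4, z5, z6, z7, z8,
      z9, z10, t1, t2, t3, t4, t5, t6, t7, t8, one_mul, mul_one]
    abel
  rw [add_mul, smul_mul_assoc, b1, b2, mul_add (y + y' + t) (p - e), mul_smul_comm]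

theorem rot_e {p e v : N} (hp : IsProj p) (he : IsProj e) (hpe : p * e = e)
    (hep : e * p = e) (hv : star v * v = e) (hv' : v * star v = 1 - p) :
    (1 - p) * (((p - e) + ((Real.sqrt 2)⁻¹ : ℂ) • (e + (1 - p) + v - star v)) * e *
      star ((p - e) + ((Real.sqrt 2)⁻¹ : ℂ) • (e + (1 - p) + v - star v))) * e =
      ((2 : ℂ)⁻¹) • v := by
  obtain ⟨h1, h2, h3, h4, h5, h6, h7, h8, h9, h10⟩ := rot_tab hp he hpe hep hv hv'
  have hpp := hp.2
  have hee := he.2
  rw [rot_star hp he]
  have a1 : ((p - e) + ((Real.sqrt 2)⁻¹ : ℂ) • (e + (1 - p) + v - star v)) * e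
      = ((Real.sqrt 2)⁻¹ : ℂ) • (e + v) := by
    rw [add_mul, smul_mul_assoc]
    have : (e + (1 - p) + v - star v) * e = e + v := by
      simp only [mul_sub, sub_mul, mul_add, add_mul, hpp, hee, hpe, hep, h1, h8, one_mul]
      abel
    rw [this, sub_mul, hpe, hee, sub_self, zero_add]
  have a2 : (1 - p) * (e + v) = v := by
    simp only [mul_sub, sub_mul, mul_add, add_mul, hpe, h2, one_mul]
    abel
  have a3 : ((p - e) + ((Real.sqrt 2)⁻¹ : ℂ) • (e + (1 - p) + star v - v)) * e
      = ((Real.sqrt 2)⁻¹ : ℂ) • (e - v) := by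
    rw [add_mul, smul_mul_assoc]
    have : (e + (1 - p) + star v - v) * e = e - v := by
      simp only [mul_sub, sub_mul, mul_add, add_mul, hpp, hee, hpe, hep, h1, h8, one_mul]
      abel
    rw [this, sub_mul, hpe, hee, sub_self, zero_add]
  rw [a1, ← mul_assoc, mul_smul_comm, a2, mul_assoc, a3, smul_mul_assoc, mul_smul_comm, smul_smul,
    rot_cc, mul_sub, h1, h5, sub_zero]

end AM
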