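import Pool.Agent.H77.AM.Gp
import Pool.Agent.H77.AM.Cj
import Pool.Agent.H77.AM.Ad
import Pool.Agent.H77.AM.Gh
import Pool.Agent.H77.AM.Gr

/-!
# Gm: the algebra of the generation step

Setting: `e ≤ p` projections, `star v * v = e`, `v * star v = 1 - p`, `y ∈ CHaar τ e`, `y' ∈ CHaar τ (p - e)`, `a₁ = y + y'`,
`b = v y v* ∈ CHaar τ (1 - p)` (`chaar_iso`), `z = a₁ + b ∈ CHaar τ 1`.
`gen_add`: for `u ∈ COrb τ U p a₁` we have `u + b ∈ COrb τ U 1 z` (`cpath_add`, `chaar_add`).
`gen_corner`: if `M` is closed and contains `COrb τ U 1 z` then it contains `COrb τ U p a₁` (as `u = ((u + b) - (-u + b)) / 2`, and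
`-u = (-1) • u` is in the orbit of `a₁` by `corb_smul`), so it contains `pNp` by the hypothesis `hgen`.
`gen_conj`: for a unitary `w` with `w z = z w` and `x` with `p x = x = x p`, `w x w* ∈ M`: apply `gen_corner` to
`M₁ = {x | w x w* ∈ M}`, closed, which contains `COrb τ U 1 z` because `w (COrb τ U 1 z) w* = COrb τ U 1 (w z w*) =
COrb τ U 1 z` (`cpath_conj`, `chaar_conj` with `p = 1`).
`gen_all`, first part: take (AM/Gr: `rot_unitary`, `rot_comm`, `rot_e`) `w = (p - e) + (√2)⁻¹ (e + (1 - p) + v - v*)`, a unitary commuting with `z`.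
`w e w* = (1/2) (e + v) (e + v*) = (1/2) (e + v* + v + (1 - p))`, so `(1 - p) (w e w*) e = v / 2`; `1 - p = b* b ∈ M`
(`b = z - a₁ ∈ M`), `e ∈ M`; so `v ∈ M`.
`gen_all`: `x = p x p + p x r + r x p + r x r` with `r = 1 - p = v v*`; `r x p = v (v* x p)`, `r x r = v (v* x v) v*`,
`p x r = star (r (star x) p)`.
-/

open Filter Topology

namespace AM

open SC ST

variable {N : Type*} [CStarAlgebra N] {τ : N →ₗ[ℂ] ℂ} {U : Ultrafilter ℕ}

theorem gen_add (h : IsII1 τ) {p e v y y' u : N} (hp : IsProj p) (he : IsProj e) (hpe : p * e = e)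
    (hep : e * p = e) (hv : star v * v = e) (hv' : v * star v = 1 - p) (hy : y ∈ CHaar τ e)
    (hy' : y' ∈ CHaar τ (p - e)) (hu : u ∈ COrb τ U p (y + y')) :
    u + v * y * star v ∈ COrb τ U 1 (y + y' + v * y * star v) := by
  have hb : v * y * star v ∈ CHaar τ (1 - p) := by
    have h1 := chaar_iso h he hv hy
    rwa [hv'] at h1
  have h1 : p * (1 - p) = 0 := by rw [mul_sub, mul_one, hp.2, sub_self]
  have h2 : (1 - p) * p = 0 := by rw [sub_mul, one_mul, hp.2, sub_self]
  have h3 : p + (1 - p) = 1 := by abel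
  obtain ⟨hu1, n, hu2⟩ := hu
  refine ⟨?_, n, ?_⟩
  · have h4 := chaar_add h1 h2 hu1 hb
    rwa [h3] at h4
  · have h4 := cpath_add h1 h2 hu2 hb
    rwa [h3] at h4

theorem gen_corner (h : IsII1 τ) {p e v y y' : N} (hp : IsProj p) (he : IsProj e) (hpe : p * e = e)
    (hep : e * p = e) (hv : star v * v = e) (hv' : v * star v = 1 - p) (hy : y ∈ CHaar τ e)
    (hy' : y' ∈ CHaar τ (p - e))
    (hgen : ∀ M : NonUnitalStarSubalgebra ℂ N, Closed2 τ (M : Set N) →
      COrb τ U p (y + y') ⊆ (M : Set N) → ∀ x : N, p * x = x → x * p = x → x ∈ M)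
    (M : NonUnitalStarSubalgebra ℂ N) (hM : Closed2 τ (M : Set N))
    (hO : COrb τ U 1 (y + y' + v * y * star v) ⊆ (M : Set N)) :
    v * y * star v ∈ M ∧ ∀ x : N, p * x = x → x * p = x → x ∈ M := by
  have hb : v * y * star v ∈ CHaar τ (1 - p) := by
    have h1 := chaar_iso h he hv hy
    rwa [hv'] at h1
  have ha : y + y' ∈ CHaar τ p := by
    have h1 : e * (p - e) = 0 := by rw [mul_sub, hep, he.2, sub_self]
    have h2 : (p - e) * e = 0 := by rw [sub_mul, hpe, he.2, sub_self]
    have h3 := chaar_add h1 h2 hy hy'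
    have h4 : e + (p - e) = p := by abel
    rwa [h4] at h3
  have hz : y + y' + v * y * star v ∈ CHaar τ 1 := by
    have h1 : p * (1 - p) = 0 := by rw [mul_sub, mul_one, hp.2, sub_self]
    have h2 : (1 - p) * p = 0 := by rw [sub_mul, one_mul, hp.2, sub_self]
    have h3 := chaar_add h1 h2 ha hb
    have h4 : p + (1 - p) = 1 := by abel
    rwa [h4] at h3
  have key : ∀ x : N, p * x = x → x * p = x → x ∈ M := by
    refine hgen M hM fun u hu => ?_
    have h1 := hO (gen_add h hp he hpe hep hv hv' hy hy' hu)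
    have h2 := hO (gen_add h hp he hpe hep hv hv' hy hy'
      (corb_smul hu (c := -1) (by rw [norm_neg, norm_one])))
    have h3 : u = (2 : ℂ)⁻¹ • ((u + v * y * star v) - ((-1 : ℂ) • u + v * y * star v)) := by
      have h4 : (u + v * y * star v) - ((-1 : ℂ) • u + v * y * star v) = (2 : ℂ) • u := by
        rw [neg_one_smul, two_smul]
        abel
      rw [h4, smul_smul, inv_mul_cancel₀ (two_ne_zero), one_smul]
    rw [h3]
    exact SMulMemClass.smul_mem _ (sub_mem h1 h2)
  refine ⟨?_, key⟩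
  have h1 : y + y' + v * y * star v ∈ M := hO ⟨hz, cpath_comm hz hz rfl⟩
  have h2 : y + y' ∈ M := key _ ha.1.1 ha.1.2.1
  have h3 : v * y * star v = (y + y' + v * y * star v) - (y + y') := by abel
  rw [h3]
  exact sub_mem h1 h2

theorem gen_conj (h : IsII1 τ) {p e v y y' w : N} (hp : IsProj p) (he : IsProj e)
    (hpe : p * e = e) (hep : e * p = e) (hv : star v * v = e) (hv' : v * star v = 1 - p)
    (hy : y ∈ CHaar τ e) (hy' : y' ∈ CHaar τ (p - e))
    (hgen : ∀ M : NonUnitalStarSubalgebra ℂ N, Closed2 τ (M : Set N) →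
      COrb τ U p (y + y') ⊆ (M : Set N) → ∀ x : N, p * x = x → x * p = x → x ∈ M)
    (M : NonUnitalStarSubalgebra ℂ N) (hM : Closed2 τ (M : Set N))
    (hO : COrb τ U 1 (y + y' + v * y * star v) ⊆ (M : Set N)) (hw : w ∈ unitary N)
    (hwz : w * (y + y' + v * y * star v) = (y + y' + v * y * star v) * w) {x : N}
    (hx : p * x = x) (hx' : x * p = x) : w * x * star w ∈ M := by
  have hw1 : w * star w = 1 := Unitary.mul_star_self_of_mem hw
  let M1 : NonUnitalStarSubalgebra ℂ N := {
    carrier := {x | w * x * star w ∈ M}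
    add_mem' := fun {a b} ha hb => by
      change w * (a + b) * star w ∈ M
      rw [mul_add, add_mul]
      exact add_mem ha hb
    zero_mem' := by
      change w * 0 * star w ∈ M
      rw [mul_zero, zero_mul]
      exact zero_mem M
    mul_mem' := fun {a b} ha hb => by
      change w * (a * b) * star w ∈ M
      rw [← conj_mul hw]
      exact mul_mem ha hb
    smul_mem' := fun c {a} ha => by
      change w * (c • a) * star w ∈ M
      rw [mul_smul_comm, smul_mul_assoc]
      exact SMulMemClass.smul_mem c ha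
    star_mem' := fun {a} ha => by
      change w * star a * star w ∈ M
      rw [← conj_star]
      exact star_mem ha }
  have hM1 : ∀ a : N, a ∈ M1 ↔ w * a * star w ∈ M := fun a => Iff.rfl
  have hcl : Closed2 τ (M1 : Set N) := by
    intro a ha
    apply hM
    intro ε hε
    obtain ⟨c, hc, hc2⟩ := ha ε hε
    refine ⟨w * c * star w, hc, ?_⟩
    rwa [← sub_mul, ← mul_sub, n2_conj h hw]
  have hO1 : COrb τ U 1 (y + y' + v * y * star v) ⊆ (M1 : Set N) := by
    rintro u ⟨hu1, n, hu2⟩
    change w * u * star w ∈ M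
    apply hO
    have h1 := chaar_conj h hw hu1
    have h2 := cpath_conj h hw hu2
    rw [mul_one, hw1] at h1 h2
    rw [hwz, mul_assoc _ w, hw1, mul_one] at h2
    exact ⟨h1, n, h2⟩
  exact (gen_corner h hp he hpe hep hv hv' hy hy' hgen M1 hcl hO1).2 x hx hx'

theorem gen_all (h : IsII1 τ) {p e v y y' : N} (hp : IsProj p) (he : IsProj e)
    (hpe : p * e = e) (hep : e * p = e) (hv : star v * v = e) (hv' : v * star v = 1 - p)
    (hy : y ∈ CHaar τ e) (hy' : y' ∈ CHaar τ (p - e))
    (hgen : ∀ M : NonUnitalStarSubalgebra ℂ N, Closed2 τ (M : Set N) →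
      COrb τ U p (y + y') ⊆ (M : Set N) → ∀ x : N, p * x = x → x * p = x → x ∈ M)
    (M : NonUnitalStarSubalgebra ℂ N) (hM : Closed2 τ (M : Set N))
    (hO : COrb τ U 1 (y + y' + v * y * star v) ⊆ (M : Set N)) (x : N) : x ∈ M := by
  have hb : v * y * star v ∈ CHaar τ (1 - p) := by
    have h1 := chaar_iso h he hv hy
    rwa [hv'] at h1
  obtain ⟨hbM, hcor⟩ := gen_corner h hp he hpe hep hv hv' hy hy' hgen M hM hO
  have heM : e ∈ M := hcor e hpe hep
  have hrM : 1 - p ∈ M := by
    rw [← hb.1.2.2.1]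
    exact mul_mem (star_mem hbM) hbM
  have hwM := gen_conj h hp he hpe hep hv hv' hy hy' hgen M hM hO
    (rot_unitary hp he hpe hep hv hv') (rot_comm hp he hpe hep hv hv' hy hy') hpe hep
  have hvM : v ∈ M := by
    have h1 := mul_mem (mul_mem hrM hwM) heM
    rw [rot_e hp he hpe hep hv hv'] at h1
    have h2 := SMulMemClass.smul_mem (2 : ℂ) h1
    rwa [smul_smul, mul_inv_cancel₀ (two_ne_zero), one_smul] at h2
  have hve : v * e = v := right_of e v he.2 he.1 hv
  have hvp : v * p = v := by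
    calc v * p = v * e * p := by rw [hve]
      _ = v := by rw [mul_assoc, hep, hve]
  have hpv : p * star v = star v := by
    have h1 := congrArg star hvp
    rwa [star_mul, hp.1] at h1
  have hA : ∀ a : N, (1 - p) * a * p ∈ M := by
    intro a
    have h1 : star v * a * p ∈ M := by
      apply hcor
      · rw [← mul_assoc, ← mul_assoc, hpv]
      · rw [mul_assoc, hp.2]
    have h2 : (1 - p) * a * p = v * (star v * a * p) := by
      rw [← hv']
      simp only [mul_assoc]
    rw [h2]
    exact mul_mem hvM h1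
  have hB : p * x * (1 - p) ∈ M := by
    have h1 : p * x * (1 - p) = star ((1 - p) * star x * p) := by
      rw [star_mul, star_mul, star_star, star_sub, star_one, hp.1, mul_assoc]
    rw [h1]
    exact star_mem (hA _)
  have hC : (1 - p) * x * (1 - p) ∈ M := by
    have h1 : star v * x * v ∈ M := by
      apply hcor
      · rw [← mul_assoc, ← mul_assoc, hpv]
      · rw [mul_assoc, hvp]
    have h2 : (1 - p) * x * (1 - p) = v * (star v * x * v) * star v := by
      rw [← hv']
      simp only [mul_assoc]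
    rw [h2]
    exact mul_mem (mul_mem hvM h1) (star_mem hvM)
  have hD : p * x * p ∈ M := by
    apply hcor
    · rw [← mul_assoc, ← mul_assoc, hp.2]
    · rw [mul_assoc, hp.2]
  have h1 : x = p * x * p + p * x * (1 - p) + (1 - p) * x * p + (1 - p) * x * (1 - p) := by
    noncomm_ring
  rw [h1]
  exact add_mem (add_mem (add_mem hD hB) (hA x)) hC

end AM
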