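import Pool.Agent.H77.AM.Gp
import Pool.Agent.H77.AM.Ne
import Pool.Agent.H77.AM.Ad
import Pool.Agent.H77.AM.Gh

/-!
# Gs: data for the generation step

Let `b₀ ∈ CHaar τ (1 - p)` (`chaar_nonempty`), `u = a + b₀ ∈ Haar τ` (`chaar_add`, `chaar_one`).  `proj_trace` for `u` and
`p` gives `e` with `p e = e`, commuting with `u`, `τ e = τ (1 - p)` (which is `≤ τ p`).  `haar_corner` gives `y ∈ CHaar τ e`
and `y' ∈ CHaar τ (p - e)` commuting with `u`, hence with `a = p u`.  `SC.proj_equiv` gives `v`.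
-/

open Filter Topology

namespace AM

open SC ST

variable {N : Type*} [CStarAlgebra N] {τ : N →ₗ[ℂ] ℂ} {U : Ultrafilter ℕ}

theorem gen_data (h : IsII1 τ) (hne : (Haar τ).Nonempty) {p : N} (hp : IsProj p)
    (ht : 1 / 2 ≤ (τ p).re) {a : N} (ha : a ∈ CHaar τ p) :
    ∃ e y y' v : N, IsProj e ∧ p * e = e ∧ e * p = e ∧ y ∈ CHaar τ e ∧ y' ∈ CHaar τ (p - e) ∧
      (y + y') * a = a * (y + y') ∧ star v * v = e ∧ v * star v = 1 - p := by
  have hT : IsTr τ := isTr_of_isII1 h
  obtain ⟨hps, hpp⟩ := hp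
  have hf : IsProj (1 - p) := by
    refine ⟨by rw [star_sub, star_one, hps], ?_⟩
    rw [sub_mul, mul_sub, mul_sub, hpp, one_mul, mul_one, one_mul]
    abel
  have hpf : p * (1 - p) = 0 := by rw [mul_sub, mul_one, hpp, sub_self]
  have hfp : (1 - p) * p = 0 := by rw [sub_mul, one_mul, hpp, sub_self]
  obtain ⟨b, hb⟩ := chaar_nonempty h hne hf
  have hu : a + b ∈ Haar τ := by
    have h1 := chaar_add hpf hfp ha hb
    have h2 : p + (1 - p) = 1 := by abel
    rw [h2, chaar_one] at h1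
    exact h1
  obtain ⟨⟨a1, a2, -, -⟩, -⟩ := ha
  obtain ⟨⟨b1, b2, -, -⟩, -⟩ := hb
  have hpb : p * b = 0 := by rw [← b1, ← mul_assoc, hpf, zero_mul]
  have hbp : b * p = 0 := by rw [← b2, mul_assoc, hfp, mul_zero]
  have hpu : p * (a + b) = a := by rw [mul_add, a1, hpb, add_zero]
  have hup : (a + b) * p = a := by rw [add_mul, a2, hbp, add_zero]
  obtain ⟨i1, i2, i3, -⟩ := proj_tau hT hf
  have hsub : (τ (1 - p)).re = 1 - (τ p).re := by
    rw [map_sub, h.map_one]; simp
  obtain ⟨e, he, heu, hpe, hte⟩ := proj_trace hT hu ⟨hps, hpp⟩ (hpu.trans hup.symm)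
    (τ (1 - p)).re i2 (by rw [hsub]; linarith)
  have hep : e * p = e := by
    have := congrArg star hpe
    rw [star_mul, he.1, hps] at this
    exact this
  have he' : IsProj (p - e) := by
    refine ⟨by rw [star_sub, hps, he.1], ?_⟩
    rw [sub_mul, mul_sub, mul_sub, hpp, hpe, hep, he.2]
    abel
  have heu' : (p - e) * (a + b) = (a + b) * (p - e) := by
    rw [sub_mul, mul_sub, hpu, hup, heu]
  obtain ⟨y, y0, y1, y2, y3, y4, y5⟩ := haar_corner hT hu he heu
  obtain ⟨z, z0, z1, z2, z3, z4, z5⟩ := haar_corner hT hu he' heu'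
  have hcomm : ∀ w : N, w * (a + b) = (a + b) * w → p * w = w → w * p = w → w * a = a * w := by
    intro w h1 h2 h3
    calc w * a = w * (p * (a + b)) := by rw [hpu]
      _ = (w * p) * (a + b) := by rw [mul_assoc]
      _ = w * (a + b) := by rw [h3]
      _ = (a + b) * w := h1
      _ = (a + b) * (p * w) := by rw [h2]
      _ = ((a + b) * p) * w := by rw [mul_assoc]
      _ = a * w := by rw [hup]
  have hy1 : p * y = y := by
    calc p * y = p * (e * y) := by rw [y1]
      _ = (p * e) * y := by rw [mul_assoc]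
      _ = y := by rw [hpe, y1]
  have hy2 : y * p = y := by
    calc y * p = (y * e) * p := by rw [y2]
      _ = y * (e * p) := by rw [mul_assoc]
      _ = y := by rw [hep, y2]
  have hppe : p * (p - e) = p - e := by rw [mul_sub, hpp, hpe]
  have hpep : (p - e) * p = p - e := by rw [sub_mul, hpp, hep]
  have hz1 : p * z = z := by
    calc p * z = p * ((p - e) * z) := by rw [z1]
      _ = (p * (p - e)) * z := by rw [mul_assoc]
      _ = z := by rw [hppe, z1]
  have hz2 : z * p = z := by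
    calc z * p = (z * (p - e)) * p := by rw [z2]
      _ = z * ((p - e) * p) := by rw [mul_assoc]
      _ = z := by rw [hpep, z2]
  have hre : τ (1 - p) = (((τ (1 - p)).re : ℝ) : ℂ) := Complex.ext (Complex.ofReal_re _).symm (by rw [i1, Complex.ofReal_im])
  obtain ⟨v, v1, v2⟩ := proj_equiv h he.1 he.2 hf.1 hf.2 (hte.trans hre.symm)
  refine ⟨e, y, z, v, he, hpe, hep, ⟨⟨y1, y2, y3, y4⟩, y5⟩, ⟨⟨z1, z2, z3, z4⟩, z5⟩, ?_, v1, v2⟩
  rw [add_mul, mul_add, hcomm y y0 hy1 hy2, hcomm z z0 hz1 hz2]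

end AM
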