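import Pool.Agent.H77.AM.Gd
import Pool.Agent.H77.AM.Ct

/-!
# Gt: transfer of `GenOne` between the corner type `Cn q hq` and the corners inside `N`

`→`: for `M` closed in `N` take `M' = {x : Cn q hq | val x ∈ M}`, closed by `n2_cn`; orbits correspond by
`chaar_cn`, `cpath_cn` (an element of `CHaar τ (val p)` is of the form `val v`).
`←`: for `M'` closed in `Cn q hq` take `M = {x | ∃ x' ∈ M', val x' = x}`.  It is closed in `N`: if `x` is a limit of
elements of `M` in the 2-norm then so is `q x q` and `x = q x q`.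
-/

open Filter Topology

namespace AM

open SC ST

variable {N : Type*} [CStarAlgebra N] {τ : N →ₗ[ℂ] ℂ} {U : Ultrafilter ℕ}

/-- the elements of `Cn q hq` whose inclusion lies in `M` -/
private def Gt_pull {q : N} {hq : IsProj q} (M : NonUnitalStarSubalgebra ℂ N) :
    NonUnitalStarSubalgebra ℂ (Cn q hq) where
  carrier := {x | val x ∈ M}
  add_mem' := by
    intro a b ha hb
    exact M.add_mem' ha hb
  zero_mem' := M.zero_mem'
  mul_mem' := by
    intro a b ha hb
    exact M.mul_mem' ha hb
  smul_mem' := by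
    intro c a ha
    exact M.smul_mem' c ha
  star_mem' := by
    intro a ha
    exact M.star_mem' ha

/-- the image of `M'` in `N` -/
private def Gt_push {q : N} {hq : IsProj q} (M : NonUnitalStarSubalgebra ℂ (Cn q hq)) :
    NonUnitalStarSubalgebra ℂ N where
  carrier := {x | ∃ x' ∈ M, val x' = x}
  add_mem' := by
    rintro _ _ ⟨a, ha, rfl⟩ ⟨b, hb, rfl⟩
    exact ⟨a + b, M.add_mem' ha hb, val_add a b⟩
  zero_mem' := ⟨0, M.zero_mem', val_zero⟩
  mul_mem' := by
    rintro _ _ ⟨a, ha, rfl⟩ ⟨b, hb, rfl⟩
    exact ⟨a * b, M.mul_mem' ha hb, val_mul a b⟩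
  smul_mem' := by
    rintro c _ ⟨a, ha, rfl⟩
    exact ⟨c • a, M.smul_mem' c ha, val_smul c a⟩
  star_mem' := by
    rintro _ ⟨a, ha, rfl⟩
    exact ⟨star a, M.star_mem' ha, val_star a⟩

private theorem Gt_corner {q : N} {hq : IsProj q} {p : Cn q hq} {w : N}
    (h1 : val p * w = w) (h2 : w * val p = w) : q * w = w ∧ w * q = w := by
  constructor
  · calc q * w = q * (val p * w) := by rw [h1]
      _ = (q * val p) * w := by rw [mul_assoc]
      _ = w := by rw [(val_mem p).1, h1]
  · calc w * q = (w * val p) * q := by rw [h2]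
      _ = w * (val p * q) := by rw [mul_assoc]
      _ = w := by rw [(val_mem p).2, h2]

theorem genOne_cn (h : IsII1 τ) {q : N} {hq : IsProj q} (hq0 : q ≠ 0) {p : Cn q hq} :
    GenOne (ctau τ q hq) U p ↔ GenOne τ U (val p) := by
  have hs : 0 < Real.sqrt (τ q).re := Real.sqrt_pos.2 (tau_pos h hq hq0).1
  set s := Real.sqrt (τ q).re with hsd
  have hn : ∀ z : Cn q hq, n2 (ctau τ q hq) z = s⁻¹ * n2 τ (val z) := fun z => n2_cn h hq hq0 z
  constructor
  · rintro ⟨u, hu, hM⟩
    refine ⟨val u, (chaar_cn h hq0).1 hu, ?_⟩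
    intro M hMc hMo x hx1 hx2
    have hxq := Gt_corner hx1 hx2
    have key : mk (hq := hq) x hxq ∈ (Gt_pull M : NonUnitalStarSubalgebra ℂ (Cn q hq)) := by
      apply hM (Gt_pull M)
      · intro y hy
        show val y ∈ M
        apply hMc
        intro ε hε
        obtain ⟨z, hz, hyz⟩ := hy (s⁻¹ * ε) (by positivity)
        refine ⟨val z, hz, ?_⟩
        rw [hn, val_sub] at hyz
        exact lt_of_mul_lt_mul_left hyz (by positivity)
      · rintro v ⟨hv, n, hp⟩
        exact hMo ⟨(chaar_cn h hq0).1 hv, n, (cpath_cn h hq0).1 hp⟩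
      · exact val_inj hx1
      · exact val_inj hx2
    exact key
  · rintro ⟨u, hu, hM⟩
    obtain ⟨u', rfl⟩ : ∃ u' : Cn q hq, val u' = u := ⟨mk u (Gt_corner hu.1.1 hu.1.2.1), rfl⟩
    refine ⟨u', (chaar_cn h hq0).2 hu, ?_⟩
    intro M hMc hMo x hx1 hx2
    have hq1 : ‖q‖ ≤ 1 := cc_proj_norm hq
    have key : val x ∈ Gt_push M := by
      apply hM (Gt_push M)
      · intro y hy
        have hqy : q * y * q = y := by
          have h0 : n2 τ (q * y * q - y) = 0 := by
            apply le_antisymm _ (SC.n2_nonneg _)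
            apply le_of_forall_pos_le_add
            intro ε hε
            obtain ⟨_, ⟨z, hz, rfl⟩, hyz⟩ := hy (ε / 2) (by positivity)
            have e1 : q * y * q - y = q * (y - val z) * q - (y - val z) := by
              rw [mul_sub, sub_mul, (val_mem z).1, (val_mem z).2]
              abel
            have h1 : n2 τ (q * (y - val z) * q) ≤ n2 τ (y - val z) := by
              have h2 := SC.n2_mul_le' h (q * (y - val z)) q
              have h3 := SC.n2_mul_le h q (y - val z)
              have h4 := SC.n2_nonneg (τ := τ) (y - val z)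
              have h5 := SC.n2_nonneg (τ := τ) (q * (y - val z))
              have h6 : n2 τ (q * (y - val z)) * ‖q‖ ≤ n2 τ (q * (y - val z)) * 1 :=
                mul_le_mul_of_nonneg_left hq1 h5
              have h7 : ‖q‖ * n2 τ (y - val z) ≤ 1 * n2 τ (y - val z) :=
                mul_le_mul_of_nonneg_right hq1 h4
              linarith
            have h8 := SC.n2_sub_le h (q * (y - val z) * q) 0 (y - val z)
            rw [sub_zero, zero_sub, SC.n2_neg] at h8
            rw [e1]
            linarith
          exact sub_eq_zero.1 (SC.n2_eq_zero h h0)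
        have hmem : q * y = y ∧ y * q = y := by
          constructor
          · calc q * y = q * (q * y * q) := by rw [hqy]
              _ = (q * q) * y * q := by simp only [mul_assoc]
              _ = y := by rw [hq.2, hqy]
          · calc y * q = (q * y * q) * q := by rw [hqy]
              _ = q * y * (q * q) := by simp only [mul_assoc]
              _ = y := by rw [hq.2, hqy]
        refine ⟨mk (hq := hq) y hmem, ?_, rfl⟩
        apply hMc
        intro ε hε
        obtain ⟨_, ⟨z, hz, rfl⟩, hyz⟩ := hy (s * ε) (by positivity)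
        refine ⟨z, hz, ?_⟩
        rw [hn, val_sub, val_mk]
        calc s⁻¹ * n2 τ (y - val z) < s⁻¹ * (s * ε) := mul_lt_mul_of_pos_left hyz (by positivity)
          _ = ε := by field_simp
      · rintro v ⟨hv, n, hp⟩
        obtain ⟨v', rfl⟩ : ∃ v' : Cn q hq, val v' = v := ⟨mk v (Gt_corner hv.1.1 hv.1.2.1), rfl⟩
        exact ⟨v', hMo ⟨(chaar_cn h hq0).2 hv, n, (cpath_cn h hq0).2 hp⟩, rfl⟩
      · rw [← val_mul, hx1]
      · rw [← val_mul, hx2]
    obtain ⟨x', hx', e⟩ := key
    rw [← val_inj e]
    exact hx'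

end AM
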