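import Pool.Agent.H77.AM.In
import Pool.Agent.H77.AM.Gj
import Pool.Agent.H77.AM.Gt
import Pool.Agent.H77.AM.Gi
import Pool.Agent.H77.AM.Gs
import Pool.Agent.H77.AM.Gm

/-!
# Gn: assembly for generating orbits
-/

open Filter Topology

namespace AM

open SC ST

variable {N : Type*} [CStarAlgebra N] {τ : N →ₗ[ℂ] ℂ} {U : Ultrafilter ℕ}

theorem genOne_step (h : IsII1 τ) {p : N} (hp : IsProj p) (ht : 1 / 2 ≤ (τ p).re)
    (hg : GenOne τ U p) : GenOne τ U (1 : N) := by
  have hp0 : p ≠ 0 := by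
    rintro rfl
    rw [map_zero, Complex.zero_re] at ht
    norm_num at ht
  obtain ⟨a, ha, hgen⟩ := hg
  have hne := haar_up h hp hp0 ⟨a, ha⟩
  obtain ⟨e, y, y', v, he, hpe, hep, hy, hy', hya, hv, hv'⟩ := gen_data h hne hp ht ha
  have hoe : e * (p - e) = 0 := by rw [mul_sub, hep, he.2, sub_self]
  have hoe' : (p - e) * e = 0 := by rw [sub_mul, hpe, he.2, sub_self]
  have hyy : y + y' ∈ CHaar τ p := by
    have := chaar_add hoe hoe' hy hy'
    rwa [add_sub_cancel] at this
  have hb := chaar_iso h he hv hy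
  rw [hv'] at hb
  have hz : y + y' + v * y * star v ∈ CHaar τ (1 : N) := by
    have := chaar_add (e := p) (f := 1 - p) (by rw [mul_sub, mul_one, hp.2, sub_self])
      (by rw [sub_mul, one_mul, hp.2, sub_self]) hyy hb
    rwa [add_sub_cancel] at this
  refine ⟨_, hz, fun M hM hO x _ _ => ?_⟩
  refine gen_all h hp he hpe hep hv hv' hy hy' (fun M' hM' hO' => hgen M' hM' ?_) M hM hO x
  rw [corb_eq ha hyy hya.symm]
  exact hO'

theorem genOne_step_cn (h : IsII1 τ) {p q : N} (hp : IsProj p) (hq : IsProj q) (hq0 : q ≠ 0)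
    (hne : (CHaar τ q).Nonempty)
    (hpq : q * p = p) (ht : 1 / 2 * (τ q).re ≤ (τ p).re) (hu : GenOne τ U p) : GenOne τ U q := by
  have hII := cn_II1 h hq hq0 hne
  have hpq' : p * q = p := by
    have := congrArg star hpq
    rwa [star_mul, hp.1, hq.1] at this
  obtain ⟨hpos, hre⟩ := tau_pos h hq hq0
  have hP : IsProj (mk (hq := hq) p ⟨hpq, hpq'⟩) :=
    ⟨val_inj (by rw [val_star, val_mk, hp.1]), val_inj (by rw [val_mul, val_mk, hp.2])⟩
  have h1 : GenOne (ctau τ q hq) U (mk (hq := hq) p ⟨hpq, hpq'⟩) :=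
    (genOne_cn h hq0).2 (by rwa [val_mk])
  have h2 : 1 / 2 ≤ (ctau τ q hq (mk (hq := hq) p ⟨hpq, hpq'⟩)).re := by
    rw [ctau_apply, val_mk, hre, ← Complex.ofReal_inv, Complex.re_ofReal_mul]
    rw [inv_mul_eq_div, le_div_iff₀ hpos]
    exact ht
  have h3 := genOne_step hII hP h2 h1
  rwa [genOne_cn h hq0, val_one] at h3

theorem genOne_aux (h : IsII1 τ) {p : N} (hp : IsProj p) (hp0 : p ≠ 0) (hu : GenOne τ U p) (n : ℕ) :
    ∀ q : N, IsProj q → (τ p).re ≤ (τ q).re → (τ q).re ≤ 2 ^ n * (τ p).re → GenOne τ U q := by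
  obtain ⟨hpos, hpre⟩ := tau_pos h hp hp0
  have hne : (Haar τ).Nonempty := by
    obtain ⟨a, ha, -⟩ := hu
    exact haar_up h hp hp0 ⟨a, ha⟩
  induction n with
  | zero =>
    intro q hq h1 h2
    rw [pow_zero, one_mul] at h2
    have hq0 : q ≠ 0 := by
      rintro rfl
      rw [map_zero, Complex.zero_re] at h1
      linarith
    refine genOne_conj h hp hq ?_ hu
    rw [hpre, (tau_pos h hq hq0).2, le_antisymm h2 h1]
  | succ n ih =>
    intro q hq h1 h2
    have hq0 : q ≠ 0 := by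
      rintro rfl
      rw [map_zero, Complex.zero_re] at h1
      linarith
    obtain ⟨hqpos, hqre⟩ := tau_pos h hq hq0
    set s : ℝ := max (τ p).re (1 / 2 * (τ q).re) with hs
    have hsq : s ≤ (τ q).re := max_le h1 (by linarith)
    obtain ⟨e, heP, hqe, hτe⟩ := sub_proj h hne hq s (le_trans hpos.le (le_max_left _ _)) hsq
    have h3 : GenOne τ U e := by
      refine ih _ heP ?_ ?_
      · rw [hτe, Complex.ofReal_re]
        exact le_max_left _ _
      · rw [hτe, Complex.ofReal_re]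
        refine max_le ?_ ?_
        · have : (1 : ℝ) ≤ 2 ^ n := one_le_pow₀ (by norm_num)
          nlinarith
        · rw [pow_succ] at h2
          linarith
    refine genOne_step_cn h heP hq hq0 (chaar_nonempty h hne hq) hqe ?_ h3
    rw [hτe, Complex.ofReal_re]
    exact le_max_right _ _

/-- generation by a single orbit passes to larger corners -/
theorem genOne_mono (h : IsII1 τ) {p q : N} (hp : IsProj p) (hq : IsProj q) (hp0 : p ≠ 0)
    (ht : (τ p).re ≤ (τ q).re) (hu : GenOne τ U p) : GenOne τ U q := by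
  obtain ⟨hpos, -⟩ := tau_pos h hp hp0
  obtain ⟨n, hn⟩ := pow_unbounded_of_one_lt ((τ q).re / (τ p).re) (show (1 : ℝ) < 2 by norm_num)
  rw [div_lt_iff₀ hpos] at hn
  exact genOne_aux h hp hp0 hu n q hq ht hn.le

/-- if the fundamental group is non-trivial then generation by a single orbit does not depend on
the corner -/
theorem genOne_all (h : IsII1 τ) {r : N} {φ : N →⋆ₙₐ[ℂ] N} (hφ : CornerIso τ r φ) (hr : r ≠ 1)
    {p q : N} (hp : IsProj p) (hq : IsProj q) (hp0 : p ≠ 0) (hq0 : q ≠ 0) (hu : GenOne τ U p) :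
    GenOne τ U q := by
  have h1P : IsProj (1 : N) := ⟨star_one _, one_mul _⟩
  have hrC : IsProj (1 - r) := ⟨by rw [star_sub, star_one, hφ.proj.1], by
    rw [sub_mul, one_mul, mul_sub, mul_one, hφ.proj.2, sub_self, sub_zero]⟩
  obtain ⟨hrpos, hrre⟩ := tau_pos h hφ.proj hφ.ne_zero
  have hr1 : (τ r).re < 1 := by
    have := (tau_pos h hrC (sub_ne_zero.2 (Ne.symm hr))).1
    rw [map_sub, h.map_one, Complex.sub_re, Complex.one_re] at this
    linarith
  have hp1 : (τ p).re ≤ 1 := by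
    by_cases h0 : 1 - p = 0
    · rw [← sub_eq_zero.1 h0, h.map_one, Complex.one_re]
    · have hpC : IsProj (1 - p) := ⟨by rw [star_sub, star_one, hp.1], by
        rw [sub_mul, one_mul, mul_sub, mul_one, hp.2, sub_self, sub_zero]⟩
      have := (tau_pos h hpC h0).1
      rw [map_sub, h.map_one, Complex.sub_re, Complex.one_re] at this
      linarith
  have hU1 : GenOne τ U (1 : N) :=
    genOne_mono h hp h1P hp0 (by rw [h.map_one, Complex.one_re]; exact hp1) hu
  have key : ∀ n : ℕ, ∃ e : N, IsProj e ∧ τ e = τ r ^ n ∧ GenOne τ U e := by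
    intro n
    induction n with
    | zero => exact ⟨1, h1P, by rw [h.map_one, pow_zero], hU1⟩
    | succ n ih =>
      obtain ⟨e, he, hte, hue⟩ := ih
      exact ⟨φ e, isProj_map he, by rw [hφ.trace, hte, pow_succ'], genOne_iso h hφ he hue⟩
  obtain ⟨hqpos, -⟩ := tau_pos h hq hq0
  obtain ⟨n, hn⟩ := exists_pow_lt_of_lt_one hqpos hr1
  obtain ⟨e, he, hte, hue⟩ := key n
  have hte' : (τ e).re = (τ r).re ^ n := by
    rw [hte, hrre, ← Complex.ofReal_pow, Complex.ofReal_re, Complex.ofReal_re]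
  have he0 : e ≠ 0 := by
    rintro rfl
    rw [map_zero, Complex.zero_re] at hte'
    exact absurd hte'.symm (pow_pos hrpos n).ne'
  exact genOne_mono h he hq he0 (by rw [hte']; exact hn.le) hue

end AM
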