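import Pool.Agent.H77.AM.Gd
import Pool.Agent.H77.SC.P0
import Pool.Agent.H77.SC.P1

/-!
# Gp: paths in corners

Copies of `SC.path_comm`, `SC.path_trans`, `SC.path_symm` (SC/P0, SC/P1) for `CPath`; see there for the proofs.
`cpath_smul`: `c • u` commutes with `u`.
-/

open Filter Topology

namespace AM

open SC ST

variable {N : Type*} [CStarAlgebra N] {τ : N →ₗ[ℂ] ℂ} {U : Ultrafilter ℕ}

private theorem const_chaar {p u : N} (hh : CHaarSeq τ U p (fun _ => u)) : u ∈ CHaar τ p := by
  refine ⟨hh.1 0, fun m hm => ?_⟩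
  exact tendsto_nhds_unique (tendsto_const_nhds) (hh.2 m hm)

private theorem chaar_const {p u : N} (hu : u ∈ CHaar τ p) : CHaarSeq τ U p (fun _ => u) := by
  refine ⟨fun _ => hu.1, fun m hm => ?_⟩
  rw [show (fun _ : ℕ => τ (u ^ m)) = fun _ => 0 from funext fun _ => hu.2 m hm]
  exact tendsto_const_nhds

private theorem comm_symm {a b : ℕ → N} (hc : CommSeq τ U a b) : CommSeq τ U b a := by
  unfold CommSeq at *
  refine hc.congr fun k => n2_sub_comm _ _

theorem cpath_comm {p u v : N} (hu : u ∈ CHaar τ p) (hv : v ∈ CHaar τ p) (huv : u * v = v * u) :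
    ∃ n, CPath τ U p n u v := by
  refine ⟨0, fun i => if i = 0 then (fun _ => u) else (fun _ => v), by simp, by simp,
    fun i hi => ?_, fun i hi => ?_⟩
  · by_cases h0 : i = 0
    · simp only [h0, if_true]
      exact chaar_const hu
    · simp only [h0, if_false]
      exact chaar_const hv
  · have : i = 0 := by omega
    subst this
    simp only [if_true, zero_add, one_ne_zero, if_false]
    unfold CommSeq
    simp only [huv, sub_self, n2_zero]
    exact tendsto_const_nhds

theorem cpath_symm {p u v : N} {n : ℕ} (hp : CPath τ U p n u v) : CPath τ U p n v u := by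
  obtain ⟨w, h0, h1, h2, h3⟩ := hp
  refine ⟨fun i => w (n + 1 - i), by simpa using h1, by simpa using h0,
    fun i hi => h2 _ (Nat.sub_le _ _), fun i hi => ?_⟩
  have := h3 (n - i) (Nat.sub_le _ _)
  have e1 : n - i + 1 = n + 1 - i := by omega
  have e2 : n + 1 - (i + 1) = n - i := by omega
  show CommSeq τ U (w (n + 1 - i)) (w (n + 1 - (i + 1)))
  rw [e2, ← e1]
  exact comm_symm this

theorem cpath_trans {p u v z : N} {n m : ℕ} (hp : CPath τ U p n u v) (hq : CPath τ U p m v z) :
    ∃ l, CPath τ U p l u z := by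
  obtain ⟨w, h0, h1, h2, h3⟩ := hp
  obtain ⟨w', g0, g1, g2, g3⟩ := hq
  refine ⟨n + m + 1, fun i => if i ≤ n + 1 then w i else w' (i - (n + 1)), by simpa using h0, ?_,
    fun i hi => ?_, fun i hi => ?_⟩
  · have : ¬ (n + m + 1 + 1 ≤ n + 1) := by omega
    simp only [this, if_false]
    rw [show n + m + 1 + 1 - (n + 1) = m + 1 by omega]
    exact g1
  · by_cases hle : i ≤ n + 1
    · simp only [hle, if_true]
      exact h2 i hle
    · simp only [hle, if_false]
      exact g2 _ (by omega)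
  · by_cases hle : i + 1 ≤ n + 1
    · have hle' : i ≤ n + 1 := by omega
      simp only [hle, hle', if_true]
      exact h3 i (by omega)
    · by_cases hle' : i ≤ n + 1
      · have hi' : i = n + 1 := by omega
        subst hi'
        simp only [le_refl, if_true, hle, if_false]
        rw [show n + 1 + 1 - (n + 1) = 1 by omega, h1, ← g0]
        exact g3 0 (Nat.zero_le _)
      · simp only [hle, hle', if_false]
        rw [show i + 1 - (n + 1) = (i - (n + 1)) + 1 by omega]
        exact g3 _ (by omega)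

theorem chaar_smul {p u : N} (hu : u ∈ CHaar τ p) {c : ℂ} (hc : ‖c‖ = 1) : c • u ∈ CHaar τ p := by
  obtain ⟨⟨h1, h2, h3, h4⟩, h5⟩ := hu
  have hcc : star c * c = 1 := by
    have := Complex.conj_mul' c
    rw [hc] at this
    simpa using this
  refine ⟨⟨?_, ?_, ?_, ?_⟩, fun m hm => ?_⟩
  · rw [mul_smul_comm, h1]
  · rw [smul_mul_assoc, h2]
  · rw [star_smul, smul_mul_smul_comm, hcc, h3, one_smul]
  · rw [star_smul, smul_mul_smul_comm, mul_comm c, hcc, h4, one_smul]
  · rw [smul_pow, map_smul, h5 m hm, smul_zero]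

theorem corb_smul {p u v : N} (hv : v ∈ COrb τ U p u) {c : ℂ} (hc : ‖c‖ = 1) :
    c • v ∈ COrb τ U p u := by
  obtain ⟨h1, n, h2⟩ := hv
  have h3 := chaar_smul h1 hc
  obtain ⟨m, h4⟩ := cpath_comm (U := U) h1 h3 (by rw [mul_smul_comm, smul_mul_assoc])
  exact ⟨h3, cpath_trans h2 h4⟩

theorem corb_comm {p u v w : N} (hv : v ∈ COrb τ U p u) (hw : w ∈ CHaar τ p) (hvw : v * w = w * v) :
    w ∈ COrb τ U p u := by
  obtain ⟨h1, n, h2⟩ := hv
  obtain ⟨m, h4⟩ := cpath_comm (U := U) h1 hw hvw
  exact ⟨hw, cpath_trans h2 h4⟩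

/-- the orbits of `u` and of a commuting `w` agree -/
theorem corb_eq {p u w : N} (hu : u ∈ CHaar τ p) (hw : w ∈ CHaar τ p) (huw : u * w = w * u) :
    COrb τ U p u = COrb τ U p w := by
  obtain ⟨m, h4⟩ := cpath_comm (U := U) hu hw huw
  ext v
  constructor
  · rintro ⟨h1, n, h2⟩
    exact ⟨h1, cpath_trans (cpath_symm h4) h2⟩
  · rintro ⟨h1, n, h2⟩
    exact ⟨h1, cpath_trans h4 h2⟩

end AM
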