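import Pool.Agent.H77.AM.Df
import Pool.Agent.H77.ST.Mp
import Pool.Agent.H77.ST.Cm
import Pool.Agent.H77.ST.Gx

/-!
# Mt: the meet of two projections has trace at least `τ e + τ f - 1`

Proof idea: `max_pi h (f := e) (g := 1 - f)` (ST/Mp) gives a partial isometry `x` with
`(1-f) * x = x`, `x * e = x` and `((1-f) - x x*) a (e - x* x) = 0` for all `a`.  That is for
comparison; here we need the meet.  One way: take `y = (1 - f) * e` (if `y = 0` then `f * e = e` and
`r = e` works).  Let `g` be the right support projection of `y` (`polar2` in ST/P2 or `polar` in SC/Cp1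
gives a partial isometry; use a maximal partial isometry/exhaustion, or the 2-norm limit of
`(y* y)^{1/n}` / of `1 - exp(-n y* y)`, with `g` such that `y * g = y`, and `g * c = 0` whenever
`y * c = 0`), and `g' ` its left support, `τ g = τ g'` since `τ (f (y* y)) = τ (f (y y*))`.
`g ≤ e`, `g' ≤ 1 - f`.  Then `r = e - g` is a projection with `e r = r`, `y r = 0`, i.e. `f r = f e r = e r = r`,
and `τ r = τ e - τ g = τ e - τ g' ≥ τ e - τ (1 - f)`.
Another way: von Neumann's `r = lim (e f e)^n` (decreasing positive contractions, 2-norm Cauchy since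
`τ ((efe)^n)` decreases), then `1 - r`: trace inequality still needs the supports.
-/

open Filter Topology

namespace AM

open SC ST

variable {N : Type*} [CStarAlgebra N] {τ : N →ₗ[ℂ] ℂ}

theorem meet (h : IsTr τ) {e f : N} (he : IsProj e) (hf : IsProj f) :
    ∃ r : N, IsProj r ∧ e * r = r ∧ f * r = r ∧ (τ e).re + (τ f).re - 1 ≤ (τ r).re := by
  have hf1 : (τ f).re ≤ 1 := (proj_tau h hf).2.2.1
  obtain ⟨e1, e2⟩ := he
  obtain ⟨f1, f2⟩ := hf
  by_cases hy : (1 - f) * e = 0
  · have hfe : f * e = e := by
      rw [sub_mul, one_mul, sub_eq_zero] at hy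
      exact hy.symm
    exact ⟨e, ⟨e1, e2⟩, e2, hfe, by linarith⟩
  · have hc : IsProj (1 - f) := by
      refine ⟨by rw [star_sub, star_one, f1], ?_⟩
      rw [sub_mul, one_mul, mul_sub, mul_one, f2, sub_self, sub_zero]
    obtain ⟨v, -, hv, hvl, hvr, -, hyv⟩ := polar2 h _ hy
    have hp : PIso v := piso_of_proj hv
    have hp' : PIso (star v) := by
      have h1 : v * star v * v = v := hp
      have h2 := congrArg star h1
      rw [star_mul, star_mul, star_star, ← mul_assoc] at h2
      unfold PIso
      rw [star_star]
      exact h2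
    have hcv : (1 - f) * v = v := hvl _ (by rw [← mul_assoc, hc.2])
    have hve : v * e = v := hvr _ e1 (by rw [mul_assoc, e2])
    have hev : e * star v = star v := by
      have h1 := congrArg star hve
      rwa [star_mul, e1] at h1
    have hr : IsProj (e - star v * v) := by
      have h1 := isProj_sub ⟨e1, e2⟩ hp' hev
      rwa [star_star] at h1
    have her : e * (e - star v * v) = e - star v * v := by
      rw [mul_sub, e2, ← mul_assoc, hev]
    have hyr : (1 - f) * (e - star v * v) = 0 := by
      have h1 : (1 - f) * e * (e - star v * v) = 0 := by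
        rw [mul_sub, hyv, mul_assoc, e2, sub_self]
      rw [← her, ← mul_assoc]
      exact h1
    refine ⟨e - star v * v, hr, her, ?_, ?_⟩
    · rw [sub_mul, one_mul, sub_eq_zero] at hyr
      exact hyr.symm
    · have h1 := (proj_tau h (isProj_sub hc hp hcv)).2.1
      rw [map_sub, map_sub, h.map_one, Complex.sub_re, Complex.sub_re, Complex.one_re,
        h.tracial v (star v)] at h1
      rw [map_sub, Complex.sub_re]
      linarith

end AM
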