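import Pool.Agent.H77.AM.Ne
import Pool.Agent.H77.AM.Ad
import Pool.Agent.H77.AM.Mt
import Pool.Agent.H77.SC.P0
import Pool.Agent.H77.SC.P1

/-!
# St: if `pNp` has a unique orbit and `τ p ≥ 2/3` then `N` has a unique orbit

Proof.  Let `t = τ p`, `x, y ∈ Haar τ`.  By `proj_trace` (with `p = 1`) there are projections `q` commuting
with `x` and `q'` commuting with `y`, both of trace `t`.  By `haar_corner` (ST/Hk) there are
`a ∈ CHaar τ q`, `b ∈ CHaar τ (1 - q)` commuting with `x`, and `a', b'` for `y`.  So `x` is joined to `a + b`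
and `y` to `a' + b'` (`path_comm`, `chaar_add`, `chaar_one`; `SC.path_trans`, `SC.path_symm`).
By `meet` and `sub_proj` there is a projection `r` with `q r = r`, `q' r = r`, `τ r = 1 - t` (as
`2 t - 1 ≥ 1 - t`).  Choose (`chaar_nonempty`) `g ∈ CHaar τ r`, `c ∈ CHaar τ (q - r)`, `c' ∈ CHaar τ (q' - r)`.
`Uniq q` (`uniq_conj`) and `cpath_add` (with `b`): `a + b ~ (g + c) + b`.  Same: `a' + b' ~ (g + c') + b'`.
`c + b` and `c' + b'` are in `CHaar τ (1 - r)`, `τ (1 - r) = t`, so `Uniq (1 - r)` and `cpath_add` (with `g`)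
give `g + (c + b) ~ g + (c' + b')`.
-/

open Filter Topology

namespace AM

open SC ST

variable {N : Type*} [CStarAlgebra N] {τ : N →ₗ[ℂ] ℂ} {U : Ultrafilter ℕ}

private theorem compl_proj {q : N} (hq : IsProj q) : IsProj (1 - q) :=
  ⟨by rw [star_sub, star_one, hq.1],
    by rw [sub_mul, mul_sub, mul_sub, hq.2, one_mul, mul_one, one_mul, sub_self, sub_zero]⟩

/-- `x` is joined to a sum of Haar unitaries of complementary corners -/
private theorem key1 (h : IsII1 τ) {x : N} (hx : x ∈ Haar τ) {t : ℝ} (h0 : 0 ≤ t) (h1 : t ≤ 1) :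
    ∃ q a b : N, IsProj q ∧ τ q = (t : ℂ) ∧ a ∈ CHaar τ q ∧ b ∈ CHaar τ (1 - q) ∧
      Path τ U 0 x (a + b) := by
  have hT := isTr_of_isII1 h
  obtain ⟨q, hq, hqx, -, hqt⟩ := proj_trace hT hx (p := 1) ⟨star_one _, mul_one _⟩
    (by rw [one_mul, mul_one]) t h0 (by rw [h.map_one, Complex.one_re]; exact h1)
  obtain ⟨a, a1, a2, a3, a4, a5, a6⟩ := haar_corner hT hx hq hqx
  obtain ⟨b, b1, b2, b3, b4, b5, b6⟩ := haar_corner hT hx (p := 1 - q) (compl_proj hq)
    (by rw [sub_mul, mul_sub, hqx, one_mul, mul_one])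
  have ha : a ∈ CHaar τ q := ⟨⟨a2, a3, a4, a5⟩, a6⟩
  have hb : b ∈ CHaar τ (1 - q) := ⟨⟨b2, b3, b4, b5⟩, b6⟩
  have e1 : q * (1 - q) = 0 := by rw [mul_sub, mul_one, hq.2, sub_self]
  have e2 : (1 - q) * q = 0 := by rw [sub_mul, one_mul, hq.2, sub_self]
  have hab : a + b ∈ Haar τ := by
    have h2 := chaar_add e1 e2 ha hb
    rwa [add_sub_cancel, chaar_one] at h2
  refine ⟨q, a, b, hq, hqt, ha, hb, path_comm hx hab ?_⟩
  rw [mul_add, add_mul, a1, b1]

/-- replace `a` by `g + c` -/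
private theorem key2 {q a b c g r : N} (hq : IsProj q) (hr : IsProj r)
    (hqr : q * r = r) (hrq : r * q = r) (hu : Uniq τ U q) (ha : a ∈ CHaar τ q)
    (hb : b ∈ CHaar τ (1 - q)) (hg : g ∈ CHaar τ r) (hc : c ∈ CHaar τ (q - r)) :
    (∃ n, Path τ U n (a + b) ((g + c) + b)) ∧ c + b ∈ CHaar τ (1 - r) := by
  have e1 : q * (1 - q) = 0 := by rw [mul_sub, mul_one, hq.2, sub_self]
  have e2 : (1 - q) * q = 0 := by rw [sub_mul, one_mul, hq.2, sub_self]
  have e3 : r * (q - r) = 0 := by rw [mul_sub, hrq, hr.2, sub_self]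
  have e4 : (q - r) * r = 0 := by rw [sub_mul, hqr, hr.2, sub_self]
  have e5 : (q - r) * (1 - q) = 0 := by
    rw [mul_sub, mul_one, sub_mul, hq.2, hrq, sub_self]
  have e6 : (1 - q) * (q - r) = 0 := by
    rw [sub_mul, one_mul, mul_sub, hq.2, hqr, sub_self]
  have hgc : g + c ∈ CHaar τ q := by
    have h2 := chaar_add e3 e4 hg hc
    rwa [add_sub_cancel] at h2
  obtain ⟨n, hn⟩ := hu a ha (g + c) hgc
  refine ⟨⟨n, ?_⟩, ?_⟩
  · have h2 := cpath_add e1 e2 hn hb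
    rwa [add_sub_cancel, cpath_one] at h2
  · have h2 := chaar_add e5 e6 hc hb
    have e7 : q - r + (1 - q) = 1 - r := by abel
    rwa [e7] at h2

theorem step (h : IsII1 τ) {p : N} (hp : IsProj p) (ht : 2 / 3 ≤ (τ p).re) (hu : Uniq τ U p) :
    Uniq τ U (1 : N) := by
  have hT := isTr_of_isII1 h
  obtain ⟨him, h0, h1, -⟩ := proj_tau hT hp
  obtain ⟨t, htd⟩ : ∃ t : ℝ, t = (τ p).re := ⟨_, rfl⟩
  have hpt : τ p = (t : ℂ) := by
    apply Complex.ext
    · rw [Complex.ofReal_re, htd]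
    · rw [Complex.ofReal_im, him]
  rw [← htd] at ht h0 h1
  intro x hx y hy
  rw [chaar_one] at hx hy
  have hne : (Haar τ).Nonempty := ⟨x, hx⟩
  obtain ⟨q, a, b, hq, hqt, ha, hb, hxp⟩ := key1 (U := U) h hx h0 h1
  obtain ⟨q', a', b', hq', hqt', ha', hb', hyp⟩ := key1 (U := U) h hy h0 h1
  obtain ⟨r0, hr0, hqr0, hqr0', htr0⟩ := meet hT hq hq'
  rw [hqt, hqt', Complex.ofReal_re] at htr0
  obtain ⟨r, hr, hr0r, hrt⟩ := sub_proj h hne hr0 (1 - t) (by linarith) (by linarith)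
  have hqr : q * r = r := by rw [← hr0r, ← mul_assoc, hqr0]
  have hqr' : q' * r = r := by rw [← hr0r, ← mul_assoc, hqr0']
  have hrq : r * q = r := by
    have := congrArg star hqr
    rwa [star_mul, hq.1, hr.1] at this
  have hrq' : r * q' = r := by
    have := congrArg star hqr'
    rwa [star_mul, hq'.1, hr.1] at this
  have hqrp : IsProj (q - r) := ⟨by rw [star_sub, hq.1, hr.1],
    by rw [sub_mul, mul_sub, mul_sub, hq.2, hqr, hrq, hr.2, sub_self, sub_zero]⟩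
  have hqrp' : IsProj (q' - r) := ⟨by rw [star_sub, hq'.1, hr.1],
    by rw [sub_mul, mul_sub, mul_sub, hq'.2, hqr', hrq', hr.2, sub_self, sub_zero]⟩
  obtain ⟨g, hg⟩ := chaar_nonempty h hne hr
  obtain ⟨c, hc⟩ := chaar_nonempty h hne hqrp
  obtain ⟨c', hc'⟩ := chaar_nonempty h hne hqrp'
  obtain ⟨⟨n1, h1p⟩, hcb⟩ := key2 hq hr hqr hrq (uniq_conj h hp hq (by rw [hpt, hqt]) hu)
    ha hb hg hc
  obtain ⟨⟨n2', h2p⟩, hcb'⟩ := key2 hq' hr hqr' hrq' (uniq_conj h hp hq' (by rw [hpt, hqt']) hu)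
    ha' hb' hg hc'
  have hur : Uniq τ U (1 - r) := by
    refine uniq_conj h hp (compl_proj hr) ?_ hu
    rw [map_sub, h.map_one, hrt, hpt]
    push_cast
    ring
  obtain ⟨n3, h3p⟩ := hur _ hcb _ hcb'
  have e1 : (1 - r) * r = 0 := by rw [sub_mul, one_mul, hr.2, sub_self]
  have e2 : r * (1 - r) = 0 := by rw [mul_sub, mul_one, hr.2, sub_self]
  have h4p := cpath_add e1 e2 h3p hg
  rw [sub_add_cancel, cpath_one] at h4p
  have e3 : c + b + g = g + c + b := by abel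
  have e4 : c' + b' + g = g + c' + b' := by abel
  rw [e3, e4] at h4p
  exact ⟨_, cpath_one.2 (path_trans (path_trans (path_trans (path_trans hxp h1p) h4p)
    (path_symm h2p)) (path_symm hyp))⟩

end AM
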