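import Pool.Agent.H77.AM.Ct
import Pool.Agent.H77.AM.St
import Pool.Agent.H77.AM.Is

/-!
# In: assembly
-/

open Filter Topology

namespace AM

open SC ST

variable {N : Type*} [CStarAlgebra N] {τ : N →ₗ[ℂ] ℂ} {U : Ultrafilter ℕ}

theorem step_cn (h : IsII1 τ) {p q : N} (hp : IsProj p) (hq : IsProj q) (hq0 : q ≠ 0)
    (hpq : q * p = p) (ht : 2 / 3 * (τ q).re ≤ (τ p).re) (hu : Uniq τ U p) : Uniq τ U q := by
  intro u hu1 v hv1
  have hII := cn_II1 h hq hq0 ⟨u, hu1⟩
  have hpq' : p * q = p := by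
    have := congrArg star hpq
    rwa [star_mul, hp.1, hq.1] at this
  obtain ⟨hpos, hre⟩ := tau_pos h hq hq0
  have hP : IsProj (mk (hq := hq) p ⟨hpq, hpq'⟩) :=
    ⟨val_inj (by rw [val_star, val_mk, hp.1]), val_inj (by rw [val_mul, val_mk, hp.2])⟩
  have h1 : Uniq (ctau τ q hq) U (mk (hq := hq) p ⟨hpq, hpq'⟩) := (uniq_cn h hq0).2 (by rwa [val_mk])
  have h2 : 2 / 3 ≤ (ctau τ q hq (mk (hq := hq) p ⟨hpq, hpq'⟩)).re := by
    rw [ctau_apply, val_mk, hre, ← Complex.ofReal_inv, Complex.re_ofReal_mul]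
    rw [inv_mul_eq_div, le_div_iff₀ hpos]
    exact ht
  have h3 := step hII hP h2 h1
  rw [uniq_cn h hq0, val_one] at h3
  exact h3 u hu1 v hv1

theorem uniq_aux (h : IsII1 τ) {p : N} (hp : IsProj p) (hp0 : p ≠ 0) (hu : Uniq τ U p) (n : ℕ) :
    ∀ q : N, IsProj q → (τ p).re ≤ (τ q).re → (τ q).re ≤ (3 / 2) ^ n * (τ p).re → Uniq τ U q := by
  obtain ⟨hpos, hpre⟩ := tau_pos h hp hp0
  induction n with
  | zero =>
    intro q hq h1 h2
    rw [pow_zero, one_mul] at h2
    have hq0 : q ≠ 0 := by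
      rintro rfl
      rw [map_zero, Complex.zero_re] at h1
      linarith
    refine uniq_conj h hp hq ?_ hu
    rw [hpre, (tau_pos h hq hq0).2, le_antisymm h2 h1]
  | succ n ih =>
    intro q hq h1 h2
    have hq0 : q ≠ 0 := by
      rintro rfl
      rw [map_zero, Complex.zero_re] at h1
      linarith
    obtain ⟨hqpos, hqre⟩ := tau_pos h hq hq0
    intro u hu1 v hv1
    have hII := cn_II1 h hq hq0 ⟨u, hu1⟩
    have hne : (Haar (ctau τ q hq)).Nonempty := by
      rw [← chaar_one]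
      refine ⟨mk (hq := hq) u ⟨hu1.1.1, hu1.1.2.1⟩, ?_⟩
      rw [chaar_cn h hq0, val_one, val_mk]
      exact hu1
    set s : ℝ := max (τ p).re (2 / 3 * (τ q).re) with hs
    have hsq : s ≤ (τ q).re := max_le h1 (by linarith)
    have h1P : IsProj (1 : Cn q hq) := ⟨star_one _, one_mul _⟩
    have hone : (ctau τ q hq 1) = 1 := hII.map_one
    obtain ⟨e, he, -, hte⟩ := sub_proj hII hne h1P (s / (τ q).re)
      (div_nonneg (le_trans hpos.le (le_max_left _ _)) hqpos.le) (by
        rw [hone, Complex.one_re, div_le_one hqpos]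
        exact hsq)
    have heP : IsProj (val e) := ⟨by rw [← val_star, he.1], by rw [← val_mul, he.2]⟩
    have hτe : τ (val e) = (s : ℂ) := by
      have hc : ((τ q).re : ℂ) ≠ 0 := by exact_mod_cast hqpos.ne'
      have h5 : ((τ q).re : ℂ)⁻¹ * τ (val e) = (s : ℂ) / ((τ q).re : ℂ) := by
        rw [← Complex.ofReal_div, ← hte, ctau_apply, ← hqre]
      rw [inv_mul_eq_div, div_eq_iff hc, div_mul_cancel₀ _ hc] at h5
      exact h5
    have h3 : Uniq τ U (val e) := by
      refine ih _ heP ?_ ?_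
      · rw [hτe, Complex.ofReal_re]
        exact le_max_left _ _
      · rw [hτe, Complex.ofReal_re]
        refine max_le ?_ ?_
        · have : (1 : ℝ) ≤ (3 / 2) ^ n := one_le_pow₀ (by norm_num)
          nlinarith
        · rw [pow_succ] at h2
          linarith
    refine step_cn h heP hq hq0 (val_mem e).1 ?_ h3 u hu1 v hv1
    rw [hτe, Complex.ofReal_re]
    exact le_max_right _ _

/-- uniqueness of the orbit passes to larger corners -/
theorem uniq_mono (h : IsII1 τ) {p q : N} (hp : IsProj p) (hq : IsProj q) (hp0 : p ≠ 0)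
    (ht : (τ p).re ≤ (τ q).re) (hu : Uniq τ U p) : Uniq τ U q := by
  obtain ⟨hpos, -⟩ := tau_pos h hp hp0
  obtain ⟨n, hn⟩ := pow_unbounded_of_one_lt ((τ q).re / (τ p).re) (show (1 : ℝ) < 3 / 2 by norm_num)
  rw [div_lt_iff₀ hpos] at hn
  exact uniq_aux h hp hp0 hu n q hq ht hn.le

theorem isProj_map {φ : N →⋆ₙₐ[ℂ] N} {p : N} (hp : IsProj p) : IsProj (φ p) :=
  ⟨by rw [← map_star, hp.1], by rw [← map_mul, hp.2]⟩

/-- if the fundamental group is non-trivial then uniqueness of the orbit does not depend on the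
corner -/
theorem uniq_all (h : IsII1 τ) {r : N} {φ : N →⋆ₙₐ[ℂ] N} (hφ : CornerIso τ r φ) (hr : r ≠ 1)
    {p q : N} (hp : IsProj p) (hq : IsProj q) (hp0 : p ≠ 0) (hq0 : q ≠ 0) (hu : Uniq τ U p) :
    Uniq τ U q := by
  have h1P : IsProj (1 : N) := ⟨star_one _, one_mul _⟩
  have hrC : IsProj (1 - r) := ⟨by rw [star_sub, star_one, hφ.proj.1], by
    rw [sub_mul, one_mul, mul_sub, mul_one, hφ.proj.2, sub_self, sub_zero]⟩
  obtain ⟨hrpos, hrre⟩ := tau_pos h hφ.proj hφ.ne_zero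
  have hr1 : (τ r).re < 1 := by
    have := (tau_pos h hrC (sub_ne_zero.2 (Ne.symm hr))).1
    rw [map_sub, h.map_one, Complex.sub_re, Complex.one_re] at this
    linarith
  have hp1 : (τ p).re ≤ 1 := by
    by_cases h0 : 1 - p = 0
    · rw [← sub_eq_zero.1 h0, h.map_one, Complex.one_re]
    · have hpC : IsProj (1 - p) := ⟨by rw [star_sub, star_one, hp.1], by
        rw [sub_mul, one_mul, mul_sub, mul_one, hp.2, sub_self, sub_zero]⟩
      have := (tau_pos h hpC h0).1
      rw [map_sub, h.map_one, Complex.sub_re, Complex.one_re] at this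
      linarith
  have hU1 : Uniq τ U (1 : N) :=
    uniq_mono h hp h1P hp0 (by rw [h.map_one, Complex.one_re]; exact hp1) hu
  have key : ∀ n : ℕ, ∃ e : N, IsProj e ∧ τ e = τ r ^ n ∧ Uniq τ U e := by
    intro n
    induction n with
    | zero => exact ⟨1, h1P, by rw [h.map_one, pow_zero], hU1⟩
    | succ n ih =>
      obtain ⟨e, he, hte, hue⟩ := ih
      exact ⟨φ e, isProj_map he, by rw [hφ.trace, hte, pow_succ'], uniq_iso h hφ he hue⟩
  obtain ⟨hqpos, -⟩ := tau_pos h hq hq0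
  obtain ⟨n, hn⟩ := exists_pow_lt_of_lt_one hqpos hr1
  obtain ⟨e, he, hte, hue⟩ := key n
  have hte' : (τ e).re = (τ r).re ^ n := by
    rw [hte, hrre, ← Complex.ofReal_pow, Complex.ofReal_re, Complex.ofReal_re]
  have he0 : e ≠ 0 := by
    rintro rfl
    rw [map_zero, Complex.zero_re] at hte'
    exact absurd hte'.symm (pow_pos hrpos n).ne'
  exact uniq_mono h he hq he0 (by rw [hte']; exact hn.le) hue

end AM
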