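import Pool.Agent.H77.AM.Ne
import Pool.Agent.H77.AM.Ad
import Pool.Agent.H77.AM.Gh
import Pool.Agent.H77.SC.O1

/-!
# Ph: a swap in the normaliser of an orbit containing a slice

`O` an orbit of `N` with `a + b ∈ O` for all `a ∈ CHaar τ e`; `b ∈ CHaar τ (1 - e)`; `e₁ ≤ e`, `f ≤ 1 - e`, `f` commutes with `b`,
`τ e₁ = τ f`.  `SC.proj_equiv`: `v` with `star v * v = f`, `v * star v = e₁`.
`u = a₀ + b ∈ Haar τ` (`a₀ ∈ CHaar τ e`, `chaar_nonempty`; `chaar_add`) commutes with `f` and `1 - e - f`; `ST.haar_corner` gives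
`b₁ ∈ CHaar τ f`, `b₂ ∈ CHaar τ (1 - e - f)` commuting with `u`, hence with `b = (1 - e) u`.
`a₁ = v b₁ v* ∈ CHaar τ e₁` (`chaar_iso` in AM/Gh), `a₂ ∈ CHaar τ (e - e₁)`.  `z = (a₁ + a₂) + (b₁ + b₂)` commutes with
`(a₁ + a₂) + b ∈ O`, so `z ∈ O` (`path_comm`, `orb_of_path`).  `w = v + v* + (1 - e₁ - f)` is a self-adjoint unitary commuting with `z`, so
`w ∈ Nz O` (`nz_comm`).
-/

open Filter Topology

namespace AM

open SC ST

variable {N : Type*} [CStarAlgebra N] {τ : N →ₗ[ℂ] ℂ} {U : Ultrafilter ℕ} {O : Set N}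

theorem ph_sq {R : Type*} [Ring R] {v s e₁ f : R} (vf : v * f = v) (ev : e₁ * v = v)
    (fs : f * s = s) (se : s * e₁ = s) (vs : v * s = e₁) (sv : s * v = f) (fe : f * e₁ = 0)
    (ef : e₁ * f = 0) (ee : e₁ * e₁ = e₁) (ff : f * f = f) :
    (v + s + (1 - e₁ - f)) * (v + s + (1 - e₁ - f)) = 1 ∧
      (v + s + (1 - e₁ - f)) * e₁ = f * (v + s + (1 - e₁ - f)) ∧
      ∀ x : R, e₁ * x = 0 → f * x = 0 → (v + s + (1 - e₁ - f)) * x = x := by
  have ve : v * e₁ = 0 := by rw [← vf, mul_assoc, fe, mul_zero]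
  have fv : f * v = 0 := by rw [← ev, ← mul_assoc, fe, zero_mul]
  have es : e₁ * s = 0 := by rw [← fs, ← mul_assoc, ef, zero_mul]
  have sf : s * f = 0 := by rw [← se, mul_assoc, ef, mul_zero]
  have vv : v * v = 0 := by
    calc v * v = v * (e₁ * v) := by rw [ev]
      _ = (v * e₁) * v := by rw [mul_assoc]
      _ = 0 := by rw [ve, zero_mul]
  have ss : s * s = 0 := by
    calc s * s = s * (f * s) := by rw [fs]
      _ = (s * f) * s := by rw [mul_assoc]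
      _ = 0 := by rw [sf, zero_mul]
  refine ⟨?_, ?_, fun x h1 h2 => ?_⟩
  · simp only [mul_add, add_mul, mul_sub, sub_mul, mul_one, one_mul, vv, ss, vs, sv, ve, vf, es, se,
      sf, fs, fv, ev, ef, fe, ee, ff]
    abel
  · simp only [mul_add, add_mul, mul_sub, sub_mul, mul_one, one_mul, vv, ss, vs, sv, ve, vf, es, se,
      sf, fs, fv, ev, ef, fe, ee, ff]
    abel
  · have h3 : v * x = 0 := by rw [← vf, mul_assoc, h2, mul_zero]
    have h4 : s * x = 0 := by rw [← se, mul_assoc, h1, mul_zero]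
    simp only [add_mul, sub_mul, one_mul, h1, h2, h3, h4]
    abel

theorem ph_comm {R : Type*} [Ring R] {v s e₁ f a₁ b₁ z : R} (vf : v * f = v) (ev : e₁ * v = v)
    (fs : f * s = s) (se : s * e₁ = s) (sv : s * v = f)
    (ha₁ : a₁ = v * b₁ * s) (hbf : b₁ * f = b₁) (hfb : f * b₁ = b₁)
    (h1 : e₁ * z = a₁) (h2 : z * e₁ = a₁) (h3 : f * z = b₁) (h4 : z * f = b₁) :
    (v + s + (1 - e₁ - f)) * z = z * (v + s + (1 - e₁ - f)) := by
  have k1 : v * z = v * b₁ := by rw [← h3, ← mul_assoc, vf]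
  have k2 : z * v = v * b₁ := by
    calc z * v = z * (e₁ * v) := by rw [ev]
      _ = (z * e₁) * v := by rw [mul_assoc]
      _ = v * b₁ * (s * v) := by rw [h2, ha₁, mul_assoc (v * b₁) s v]
      _ = v * b₁ := by rw [sv, mul_assoc, hbf]
  have k3 : s * z = b₁ * s := by
    calc s * z = (s * e₁) * z := by rw [se]
      _ = s * (e₁ * z) := by rw [mul_assoc]
      _ = (s * v) * b₁ * s := by rw [h1, ha₁]; noncomm_ring
      _ = b₁ * s := by rw [sv, hfb]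
  have k4 : z * s = b₁ * s := by
    calc z * s = z * (f * s) := by rw [fs]
      _ = (z * f) * s := by rw [mul_assoc]
      _ = b₁ * s := by rw [h4]
  simp only [add_mul, mul_add, sub_mul, mul_sub, one_mul, mul_one, k1, k2, k3, k4, h1, h2, h3, h4]

theorem ph_c2 {R : Type*} [Ring R] {A B b : R} (hAb : A * b = 0) (hbA : b * A = 0)
    (hAB : A * B = 0) (hBA : B * A = 0) (hBb : B * b = b * B) :
    (A + b) * (A + B) = (A + B) * (A + b) := by
  simp only [mul_add, add_mul, hAb, hbA, hAB, hBA, hBb]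

theorem swap_nz (h : IsII1 τ) (hO : IsOrb τ U O) {e b : N} (he : IsProj e)
    (hb : b ∈ CHaar τ (1 - e)) (hsl : ∀ a ∈ CHaar τ e, a + b ∈ O) {e₁ f : N} (he₁ : IsProj e₁)
    (hf : IsProj f) (hee₁ : e * e₁ = e₁) (hef : e * f = 0) (hfb : f * b = b * f)
    (ht : τ e₁ = τ f) :
    ∃ w ∈ Nz O, star w = w ∧ w * e₁ = f * w ∧
      ∀ x : N, e₁ * x = 0 → f * x = 0 → w * x = x := by
  have hT : IsTr τ := isTr_of_isII1 h
  have hne : (Haar τ).Nonempty := by
    obtain ⟨x, hx⟩ := orb_nonempty hO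
    exact ⟨x, orb_haar hO hx⟩
  have hfe : f * e = 0 := by
    have := congrArg star hef
    rwa [star_mul, he.1, hf.1, star_zero] at this
  have hee₁' : e₁ * e = e₁ := by
    have := congrArg star hee₁
    rwa [star_mul, he.1, he₁.1] at this
  have hfe₁ : f * e₁ = 0 := by rw [← hee₁, ← mul_assoc, hfe, zero_mul]
  have he₁f : e₁ * f = 0 := by rw [← hee₁', mul_assoc, hef, mul_zero]
  obtain ⟨g, hg⟩ : ∃ g, g = 1 - e - f := ⟨_, rfl⟩
  obtain ⟨e₂, he₂⟩ : ∃ e₂, e₂ = e - e₁ := ⟨_, rfl⟩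
  have hgP : IsProj g := by
    refine ⟨?_, ?_⟩
    · rw [hg, star_sub, star_sub, star_one, he.1, hf.1]
    · rw [hg]
      simp only [mul_sub, sub_mul, mul_one, one_mul, he.2, hf.2, hef, hfe]
      abel
  have he₂P : IsProj e₂ := by
    refine ⟨?_, ?_⟩
    · rw [he₂, star_sub, he.1, he₁.1]
    · rw [he₂]
      simp only [mul_sub, sub_mul, he.2, he₁.2, hee₁, hee₁']
      abel
  have hge : g * e = 0 := by
    rw [hg]
    simp only [sub_mul, one_mul, he.2, hfe]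
    abel
  have heg : e * g = 0 := by
    rw [hg]
    simp only [mul_sub, mul_one, he.2, hef]
    abel
  have hgf : g * f = 0 := by
    rw [hg]
    simp only [sub_mul, one_mul, hf.2, hef]
    abel
  have hfg : f * g = 0 := by
    rw [hg]
    simp only [mul_sub, mul_one, hf.2, hfe]
    abel
  have h12 : e₁ * e₂ = 0 := by rw [he₂, mul_sub, hee₁', he₁.2, sub_self]
  have h21 : e₂ * e₁ = 0 := by rw [he₂, sub_mul, hee₁, he₁.2, sub_self]
  have hfe₂ : f * e₂ = 0 := by rw [he₂, mul_sub, hfe, hfe₁, sub_self]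
  have he₂f : e₂ * f = 0 := by rw [he₂, sub_mul, hef, he₁f, sub_self]
  have he1 : e * (1 - e) = 0 := by rw [mul_sub, mul_one, he.2, sub_self]
  have h1e : (1 - e) * e = 0 := by rw [sub_mul, one_mul, he.2, sub_self]
  -- the partial isometry
  obtain ⟨v, hv1, hv2⟩ := SC.proj_equiv h hf.1 hf.2 he₁.1 he₁.2 ht.symm
  have hpi : v * star v * v = v := piso_of_proj (by rw [hv1]; exact hf.2)
  have vf : v * f = v := by rw [← hv1, ← mul_assoc, hpi]
  have ev : e₁ * v = v := by rw [← hv2, hpi]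
  have fs : f * star v = star v := by
    have := congrArg star vf
    rwa [star_mul, hf.1] at this
  have se : star v * e₁ = star v := by
    have := congrArg star ev
    rwa [star_mul, he₁.1] at this
  -- the Haar unitary u
  obtain ⟨a₀, ha₀⟩ := chaar_nonempty h hne he
  have hu : a₀ + b ∈ Haar τ := orb_haar hO (hsl a₀ ha₀)
  have eb : e * b = 0 := by rw [← hb.1.1, ← mul_assoc, he1, zero_mul]
  have be : b * e = 0 := by rw [← hb.1.2.1, mul_assoc, h1e, mul_zero]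
  have fa : f * a₀ = 0 := by rw [← ha₀.1.1, ← mul_assoc, hfe, zero_mul]
  have af : a₀ * f = 0 := by rw [← ha₀.1.2.1, mul_assoc, hef, mul_zero]
  have ga : g * a₀ = 0 := by rw [← ha₀.1.1, ← mul_assoc, hge, zero_mul]
  have ag : a₀ * g = 0 := by rw [← ha₀.1.2.1, mul_assoc, heg, mul_zero]
  have hfu : f * (a₀ + b) = (a₀ + b) * f := by rw [mul_add, add_mul, fa, af, hfb]
  have hgu : g * (a₀ + b) = (a₀ + b) * g := by
    rw [mul_add, add_mul, ga, ag, zero_add, zero_add, hg]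
    simp only [sub_mul, mul_sub, one_mul, mul_one, eb, be, hfb]
  obtain ⟨b₁, c1, c2, c3, c4, c5, c6⟩ := ST.haar_corner hT hu hf hfu
  obtain ⟨b₂, d1, d2, d3, d4, d5, d6⟩ := ST.haar_corner hT hu hgP hgu
  have hb₁ : b₁ ∈ CHaar τ f := ⟨⟨c2, c3, c4, c5⟩, c6⟩
  have hb₂ : b₂ ∈ CHaar τ g := ⟨⟨d2, d3, d4, d5⟩, d6⟩
  have b₁a : b₁ * a₀ = 0 := by rw [← c3, mul_assoc, fa, mul_zero]
  have ab₁ : a₀ * b₁ = 0 := by rw [← c2, ← mul_assoc, af, zero_mul]
  have b₂a : b₂ * a₀ = 0 := by rw [← d3, mul_assoc, ga, mul_zero]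
  have ab₂ : a₀ * b₂ = 0 := by rw [← d2, ← mul_assoc, ag, zero_mul]
  have k1 : b₁ * b = b * b₁ := by
    rw [mul_add, add_mul, b₁a, ab₁, zero_add, zero_add] at c1
    exact c1
  have k2 : b₂ * b = b * b₂ := by
    rw [mul_add, add_mul, b₂a, ab₂, zero_add, zero_add] at d1
    exact d1
  -- the corner of e
  obtain ⟨a₁, ha₁e⟩ : ∃ a₁, a₁ = v * b₁ * star v := ⟨_, rfl⟩
  have ha₁ : a₁ ∈ CHaar τ e₁ := by
    have := chaar_iso h hf hv1 hb₁
    rw [hv2, ← ha₁e] at this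
    exact this
  obtain ⟨a₂, ha₂⟩ := chaar_nonempty h hne he₂P
  have hA : a₁ + a₂ ∈ CHaar τ e := by
    have := chaar_add h12 h21 ha₁ ha₂
    have e0 : e₁ + e₂ = e := by rw [he₂]; abel
    rwa [e0] at this
  have hB : b₁ + b₂ ∈ CHaar τ (1 - e) := by
    have := chaar_add hfg hgf hb₁ hb₂
    have e0 : f + g = 1 - e := by rw [hg]; abel
    rwa [e0] at this
  have hz : (a₁ + a₂) + (b₁ + b₂) ∈ Haar τ := by
    have := chaar_add he1 h1e hA hB
    have e0 : e + (1 - e) = 1 := by abel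
    rwa [e0, chaar_one] at this
  have hy : (a₁ + a₂) + b ∈ O := hsl _ hA
  have hAb : (a₁ + a₂) * b = 0 := orth_mul he1 hA.1.2.1 hb.1.1
  have hbA : b * (a₁ + a₂) = 0 := orth_mul h1e hb.1.2.1 hA.1.1
  have hAB : (a₁ + a₂) * (b₁ + b₂) = 0 := orth_mul he1 hA.1.2.1 hB.1.1
  have hBA : (b₁ + b₂) * (a₁ + a₂) = 0 := orth_mul h1e hB.1.2.1 hA.1.1
  have hBb : (b₁ + b₂) * b = b * (b₁ + b₂) := by rw [add_mul, mul_add, k1, k2]
  have hyz : ((a₁ + a₂) + b) * ((a₁ + a₂) + (b₁ + b₂))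
      = ((a₁ + a₂) + (b₁ + b₂)) * ((a₁ + a₂) + b) := ph_c2 hAb hbA hAB hBA hBb
  have hzO : (a₁ + a₂) + (b₁ + b₂) ∈ O :=
    orb_of_path hO hy (path_comm (orb_haar hO hy) hz hyz)
  -- products with e₁ and f
  have m1 : e₁ * ((a₁ + a₂) + (b₁ + b₂)) = a₁ := by
    have x1 : e₁ * a₂ = 0 := by rw [← ha₂.1.1, ← mul_assoc, h12, zero_mul]
    have x2 : e₁ * (b₁ + b₂) = 0 := by
      rw [← hB.1.1, ← mul_assoc, ← hee₁', mul_assoc e₁ e (1 - e), he1, mul_zero, zero_mul]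
    rw [mul_add, mul_add, ha₁.1.1, x1, x2, add_zero, add_zero]
  have m2 : ((a₁ + a₂) + (b₁ + b₂)) * e₁ = a₁ := by
    have x1 : a₂ * e₁ = 0 := by rw [← ha₂.1.2.1, mul_assoc, h21, mul_zero]
    have x2 : (b₁ + b₂) * e₁ = 0 := by
      rw [← hB.1.2.1, mul_assoc, ← hee₁, ← mul_assoc (1 - e) e e₁, h1e, zero_mul, mul_zero]
    rw [add_mul, add_mul, ha₁.1.2.1, x1, x2, add_zero, add_zero]
  have m3 : f * ((a₁ + a₂) + (b₁ + b₂)) = b₁ := by
    have x1 : f * (a₁ + a₂) = 0 := by rw [← hA.1.1, ← mul_assoc, hfe, zero_mul]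
    have x2 : f * b₂ = 0 := by rw [← d2, ← mul_assoc, hfg, zero_mul]
    rw [mul_add, mul_add f b₁ b₂, x1, c2, x2, add_zero, zero_add]
  have m4 : ((a₁ + a₂) + (b₁ + b₂)) * f = b₁ := by
    have x1 : (a₁ + a₂) * f = 0 := by rw [← hA.1.2.1, mul_assoc, hef, mul_zero]
    have x2 : b₂ * f = 0 := by rw [← d3, mul_assoc, hgf, mul_zero]
    rw [add_mul, add_mul b₁ b₂ f, x1, c3, x2, add_zero, zero_add]
  obtain ⟨s1, s2, s3⟩ := ph_sq vf ev fs se hv2 hv1 hfe₁ he₁f he₁.2 hf.2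
  have hcomm := ph_comm vf ev fs se hv1 ha₁e c3 c2 m1 m2 m3 m4
  have hstar : star (v + star v + (1 - e₁ - f)) = v + star v + (1 - e₁ - f) := by
    rw [star_add, star_add, star_star, star_sub, star_sub, star_one, he₁.1, hf.1]
    abel
  refine ⟨v + star v + (1 - e₁ - f), nz_comm h hO hzO ?_ hcomm, hstar, s2, s3⟩
  rw [Unitary.mem_iff, hstar]
  exact ⟨s1, s1⟩

end AM
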