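import Pool.Agent.H77.AM.Pg
import Pool.Agent.H77.AM.Ph
import Pool.Agent.H77.AM.Ci
import Pool.Agent.H77.SC.O4

/-!
# Pc: an orbit containing a slice is everything
-/

open Filter Topology

namespace AM

open SC ST

variable {N : Type*} [CStarAlgebra N] {τ : N →ₗ[ℂ] ℂ} {U : Ultrafilter ℕ} {O : Set N}

theorem proj_compl' {p : N} (hp : IsProj p) : IsProj (1 - p) :=
  ⟨by rw [star_sub, star_one, hp.1], by
    rw [sub_mul, one_mul, mul_sub, mul_one, hp.2, sub_self, sub_zero]⟩

/-- the projection of the slice is good -/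
theorem slice_good (h : IsII1 τ) (hO : IsOrb τ U O) (hne : (Haar τ).Nonempty) {e b : N}
    (he : IsProj e) (hb : b ∈ CHaar τ (1 - e)) (hsl : ∀ a ∈ CHaar τ e, a + b ∈ O) :
    Good (Nz O) e := by
  refine ⟨he, fun c hc => ?_⟩
  obtain ⟨a, ha⟩ := chaar_nonempty h hne he
  have hee : e * (1 - e) = 0 := by rw [mul_sub, mul_one, he.2, sub_self]
  have hee' : (1 - e) * e = 0 := by rw [sub_mul, one_mul, he.2, sub_self]
  obtain ⟨hc1, hc2, hc3, hc4⟩ := hc
  have hcs : star c * e = star c := by
    have := congrArg star hc1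
    rwa [star_mul, he.1] at this
  have hcs' : e * star c = star c := by
    have := congrArg star hc2
    rwa [star_mul, he.1] at this
  have h1 : (1 - e) * c = 0 := by rw [sub_mul, one_mul, hc1, sub_self]
  have h2 : c * (1 - e) = 0 := by rw [mul_sub, mul_one, hc2, sub_self]
  have h3 : (1 - e) * star c = 0 := by rw [sub_mul, one_mul, hcs', sub_self]
  have h4 : star c * (1 - e) = 0 := by rw [mul_sub, mul_one, hcs, sub_self]
  have hst : star (c + (1 - e)) = star c + (1 - e) := by
    rw [star_add, star_sub, star_one, he.1]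
  have hcu : c + (1 - e) ∈ unitary N := by
    rw [Unitary.mem_iff, hst]
    constructor
    · rw [add_mul, mul_add, mul_add, hc3, h4, h1, (proj_compl' he).2]
      abel
    · rw [add_mul, mul_add, mul_add, hc4, h2, h3, (proj_compl' he).2]
      abel
  obtain ⟨⟨hb1, hb2, -, -⟩, -⟩ := hb
  obtain ⟨⟨ha1, ha2, ha3, ha4⟩, ha5⟩ := ha
  have hcb : c * b = 0 := by rw [← hb1, ← mul_assoc, h2, zero_mul]
  have hbc : b * star c = 0 := by rw [← hb2, mul_assoc, h3, mul_zero]
  have hea : (1 - e) * a = 0 := by rw [sub_mul, one_mul, ha1, sub_self]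
  have hae : a * (1 - e) = 0 := by rw [mul_sub, mul_one, ha2, sub_self]
  have hconj : (c + (1 - e)) * (a + b) * star (c + (1 - e)) = c * a * star c + b := by
    have s1 : (c + (1 - e)) * (a + b) = c * a + b := by
      rw [add_mul, mul_add, mul_add, hcb, hea, hb1, add_zero, zero_add]
    rw [hst, s1, add_mul, mul_add, mul_add, hbc, hb2, mul_assoc c a (1 - e), hae, mul_zero,
      add_zero, zero_add]
  have hca : c * a * star c ∈ CHaar τ e := by
    have hcc : ∀ m : ℕ, 1 ≤ m → (c * a * star c) ^ m = c * a ^ m * star c := by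
      intro m hm
      induction m, hm using Nat.le_induction with
      | base => rw [pow_one, pow_one]
      | succ n hn ih =>
        have hee2 : e * a = a := ha1
        calc (c * a * star c) ^ (n + 1) = (c * a ^ n * star c) * (c * a * star c) := by
              rw [pow_succ, ih]
          _ = c * a ^ n * (star c * c) * a * star c := by simp only [mul_assoc]
          _ = c * a ^ n * (e * a) * star c := by rw [hc3]; simp only [mul_assoc]
          _ = c * a ^ (n + 1) * star c := by rw [hee2, mul_assoc c, ← pow_succ]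
    refine ⟨⟨?_, ?_, ?_, ?_⟩, fun m hm => ?_⟩
    · rw [← mul_assoc, ← mul_assoc, hc1]
    · rw [mul_assoc, hcs]
    · rw [star_mul, star_mul, star_star]
      calc c * (star a * star c) * (c * a * star c) = c * star a * (star c * c) * a * star c := by
            simp only [mul_assoc]
        _ = c * (star a * (e * a)) * star c := by rw [hc3]; simp only [mul_assoc]
        _ = e := by rw [ha1, ha3, hc2, hc4]
    · rw [star_mul, star_mul, star_star]
      calc c * a * star c * (c * (star a * star c)) = c * a * (star c * c) * star a * star c := by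
            simp only [mul_assoc]
        _ = c * ((a * e) * star a) * star c := by rw [hc3]; simp only [mul_assoc]
        _ = e := by rw [ha2, ha4, hc2, hc4]
    · rw [hcc m hm, h.tracial, ← mul_assoc, hc3]
      have : e * a ^ m = a ^ m := by
        obtain ⟨k, rfl⟩ := Nat.exists_eq_add_of_le' hm
        rw [pow_succ', ← mul_assoc, ha1]
      rw [this, ha5 m hm]
  refine nz_of h hO hcu (hsl a ⟨⟨ha1, ha2, ha3, ha4⟩, ha5⟩) ?_
  rw [hconj]
  exact hsl _ hca

theorem nz_mul' (x : N) (hx : x ∈ Nz O) (y : N) (hy : y ∈ Nz O) : x * y ∈ Nz O := nz_mul hx hy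
theorem nz_star' (x : N) (hx : x ∈ Nz O) : star x ∈ Nz O := nz_star hx

theorem slice_aux (h : IsII1 τ) (hO : IsOrb τ U O) (hne : (Haar τ).Nonempty) {e b : N}
    (he : IsProj e) (he0 : e ≠ 0) (hb : b ∈ CHaar τ (1 - e)) (hsl : ∀ a ∈ CHaar τ e, a + b ∈ O)
    (n : ℕ) : ∀ F : N, Good (Nz O) F → F * e = e → F * b = b * F →
      1 - (τ F).re ≤ n * ((τ e).re / 2) → Good (Nz O) 1 := by
  obtain ⟨hepos, here⟩ := tau_pos h he he0
  induction n with
  | zero =>
    intro F hF _ _ h1
    rw [Nat.cast_zero, zero_mul] at h1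
    have h2 : 1 - F = 0 := by
      by_contra h0
      have := (tau_pos h (proj_compl' hF.1) h0).1
      rw [map_sub, h.map_one, Complex.sub_re, Complex.one_re] at this
      linarith
    rwa [← sub_eq_zero.1 h2] at hF
  | succ n ih =>
    intro F hF hFe hFb h1
    have hFp := hF.1
    have hFC := proj_compl' hFp
    by_cases hF1 : 1 - F = 0
    · rwa [← sub_eq_zero.1 hF1] at hF
    have hCpos := (tau_pos h hFC hF1).1
    have hτC : (τ (1 - F)).re = 1 - (τ F).re := by
      rw [map_sub, h.map_one, Complex.sub_re, Complex.one_re]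
    rw [hτC] at hCpos
    have heF : e * F = e := by
      have := congrArg star hFe
      rwa [star_mul, he.1, hFp.1] at this
    obtain ⟨a₀, ha₀⟩ := chaar_nonempty h hne he
    have hee : e * (1 - e) = 0 := by rw [mul_sub, mul_one, he.2, sub_self]
    have hee' : (1 - e) * e = 0 := by rw [sub_mul, one_mul, he.2, sub_self]
    have hu : a₀ + b ∈ Haar τ := by
      rw [← chaar_one]
      have := chaar_add hee hee' ha₀ hb
      rwa [add_sub_cancel] at this
    have hFa : F * a₀ = a₀ := by rw [← ha₀.1.1, ← mul_assoc, hFe]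
    have haF : a₀ * F = a₀ := by rw [← ha₀.1.2.1, mul_assoc, heF]
    have hCu : (1 - F) * (a₀ + b) = (a₀ + b) * (1 - F) := by
      rw [sub_mul, mul_sub, one_mul, mul_one, mul_add, add_mul, hFa, haF, hFb]
    set s : ℝ := min ((τ e).re / 2) (1 - (τ F).re) with hs
    have hs0 : 0 ≤ s := le_min (by linarith) hCpos.le
    obtain ⟨f, hf, hfu, hCf, hτf⟩ := proj_trace (isTr_of_isII1 h) hu hFC hCu s hs0
      (by rw [hτC]; exact min_le_right _ _)
    obtain ⟨e₁, he₁, hee₁, hτe₁⟩ := sub_proj h hne he s hs0 ((min_le_left _ _).trans (by linarith))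
    have hFf : F * f = 0 := by
      rw [← hCf, ← mul_assoc, mul_sub, mul_one, hFp.2, sub_self, zero_mul]
    have hfF : f * F = 0 := by
      have := congrArg star hFf
      rwa [star_mul, hFp.1, hf.1, star_zero] at this
    have hef : e * f = 0 := by rw [← heF, mul_assoc, hFf, mul_zero]
    have hfe : f * e = 0 := by rw [← hFe, ← mul_assoc, hfF, zero_mul]
    have hfa : f * a₀ = 0 := by rw [← ha₀.1.1, ← mul_assoc, hfe, zero_mul]
    have haf : a₀ * f = 0 := by rw [← ha₀.1.2.1, mul_assoc, hef, mul_zero]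
    have hfb : f * b = b * f := by
      rw [mul_add, add_mul, hfa, haf, zero_add, zero_add] at hfu
      exact hfu
    obtain ⟨w, hw, hws, hwe, hwx⟩ := swap_nz h hO he hb hsl he₁ hf hee₁ hef hfb
      (by rw [hτe₁, hτf])
    have hwu : w ∈ unitary N := hw.1
    have hFe₁ : F * e₁ = e₁ := by rw [← hee₁, ← mul_assoc, hFe]
    have he₁e : e₁ * e = e₁ := by
      have := congrArg star hee₁
      rwa [star_mul, he.1, he₁.1] at this
    have he₁F : e₁ * F = e₁ := by rw [← he₁e, mul_assoc, heF]
    have hm : IsProj (F - e₁) := ⟨by rw [star_sub, hFp.1, he₁.1], by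
      rw [sub_mul, mul_sub, mul_sub, hFp.2, hFe₁, he₁F, he₁.2, sub_self, sub_zero]⟩
    have hfe₁ : f * e₁ = 0 := by rw [← hee₁, ← mul_assoc, hfe, zero_mul]
    have hww : w * w = 1 := by
      have := Unitary.star_mul_self_of_mem hwu
      rwa [hws] at this
    have hwm : w * (F - e₁) = F - e₁ := by
      apply hwx
      · rw [mul_sub, he₁F, he₁.2, sub_self]
      · rw [mul_sub, hfF, hfe₁, sub_self]
    have hmw : (F - e₁) * w = F - e₁ := by
      have := congrArg star hwm
      rwa [star_mul, hws, hm.1] at this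
    have hconj : w * F * star w = (F - e₁) + f := by
      rw [hws]
      calc w * F * w = w * (F - e₁) * w + w * e₁ * w := by
            rw [← add_mul, ← mul_add, sub_add_cancel]
        _ = (F - e₁) + f := by rw [hwm, hmw, hwe, mul_assoc, hww, mul_one]
    have hE : Good (Nz O) ((F - e₁) + f) := by
      rw [← hconj]
      exact good_conj nz_mul' nz_star' hF hw hwu
    have hτm : (τ (F - e₁)).re = (τ F).re - s := by
      rw [map_sub, Complex.sub_re, hτe₁, Complex.ofReal_re]
    have heF' : (τ e).re ≤ (τ F).re := by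
      have h5 : IsProj (F - e) := ⟨by rw [star_sub, hFp.1, he.1], by
        rw [sub_mul, mul_sub, mul_sub, hFp.2, hFe, heF, he.2, sub_self, sub_zero]⟩
      by_cases h0 : F - e = 0
      · rw [sub_eq_zero.1 h0]
      · have := (tau_pos h h5 h0).1
        rw [map_sub, Complex.sub_re] at this
        linarith
    have hG := good_step h hne nz_mul' nz_star' hF hf hm
      (by rw [mul_sub, hFp.2, hFe₁]) hFf hE (by
        rw [hτm, hτf, Complex.ofReal_re]
        have : s ≤ (τ e).re / 2 := min_le_left _ _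
        linarith)
    have hτFf : (τ (F + f)).re = (τ F).re + s := by
      rw [map_add, Complex.add_re, hτf, Complex.ofReal_re]
    refine ih (F + f) hG ?_ ?_ ?_
    · rw [add_mul, hFe, hfe, add_zero]
    · rw [add_mul, mul_add, hFb, hfb]
    · rw [hτFf]
      push_cast at h1
      rcases min_cases ((τ e).re / 2) (1 - (τ F).re) with ⟨h6, -⟩ | ⟨h6, -⟩
      · rw [hs, h6]
        linarith
      · rw [hs, h6]
        have : 0 ≤ (n : ℝ) * ((τ e).re / 2) := by positivity
        linarith

/-- an orbit containing a slice `H(eNe) + b` is all of `H(N)` -/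
theorem slice_all (h : IsII1 τ) (hU : (U : Filter ℕ) ≤ cofinite) {e b : N} (he : IsProj e)
    (he0 : e ≠ 0) (hb : b ∈ CHaar τ (1 - e))
    (hsl : ∀ a ∈ CHaar τ e, ∀ a' ∈ CHaar τ e, ∃ n, Path τ U n (a + b) (a' + b)) :
    ∃ n, ∀ u ∈ Haar τ, ∀ v ∈ Haar τ, Path τ U n u v := by
  by_cases hne : (Haar τ).Nonempty
  · obtain ⟨a₀, ha₀⟩ := chaar_nonempty h hne he
    have hee : e * (1 - e) = 0 := by rw [mul_sub, mul_one, he.2, sub_self]
    have hee' : (1 - e) * e = 0 := by rw [sub_mul, one_mul, he.2, sub_self]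
    have hH : ∀ a ∈ CHaar τ e, a + b ∈ Haar τ := by
      intro a ha
      rw [← chaar_one]
      have := chaar_add hee hee' ha hb
      rwa [add_sub_cancel] at this
    have hO : IsOrb τ U (Orb τ U (a₀ + b)) := ⟨_, hH a₀ ha₀, rfl⟩
    have hsl' : ∀ a ∈ CHaar τ e, a + b ∈ Orb τ U (a₀ + b) :=
      fun a ha => ⟨hH a ha, hsl a₀ ha₀ a ha⟩
    obtain ⟨hepos, -⟩ := tau_pos h he he0
    obtain ⟨n, hn⟩ := exists_nat_gt (1 / ((τ e).re / 2))
    rw [div_lt_iff₀ (by positivity)] at hn
    have hg := slice_good h hO hne he hb hsl'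
    have hb1 : e * b = 0 := by rw [← hb.1.1, ← mul_assoc, hee, zero_mul]
    have hb2 : b * e = 0 := by rw [← hb.1.2.1, mul_assoc, hee', mul_zero]
    have h1 := slice_aux h hO hne he he0 hb hsl' n e hg he.2 (by rw [hb1, hb2]) (by linarith)
    refine uniform_length h hU hO fun w hw => ?_
    have := h1.2 w ⟨one_mul _, mul_one _, Unitary.star_mul_self_of_mem hw,
      Unitary.mul_star_self_of_mem hw⟩
    rwa [sub_self, add_zero] at this
  · exact ⟨0, fun u hu => absurd ⟨u, hu⟩ hne⟩

end AM
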