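import Pool.Agent.H77.AM.Df
import Pool.Agent.H77.SC.O1

/-!
# Good projections: definition
-/

open Filter Topology

namespace AM

open SC ST

variable {N : Type*} [CStarAlgebra N]

/-- All unitaries of the corner `fNf`, extended by `1 - f`, are in `G`. -/
def Good (G : Set N) (f : N) : Prop := IsProj f ∧ ∀ c ∈ CUnit f, c + (1 - f) ∈ G

end AM
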