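import Pool.Agent.H77.AM.Mt
import Pool.Agent.H77.ST.Mp
import Pool.Agent.H77.ST.Cm

/-!
# Pe: the left support of `x` with `x f = x` has trace at most `τ f`

See the proof of `meet` in AM/Mt (there the supports of `(1 - f) * e` are built with `ST.max_pi`/`exhaust`/`polar2`).
Idea: let `x f = x`.  `L` = left support (`L x = x`, and `c x = x → c L = L`), `R` = right support, `R ≤ f`,
`τ L = τ R ≤ τ f`.
One way with `ST.max_pi h (f := f) (g := 1)`?  Not needed: use a maximal partial isometry `w` with
`w f = w` and (`∀ c, c x = x → c w = w`) (`exhaust` as in ST/Mp); if `x' = (1 - w w*) x ≠ 0` then also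
`x' (f - w* w) ≠ 0` or argue as in AM/Mt; `polar2` for `x'` enlarges `w`.
-/

open Filter Topology

namespace AM

open SC ST

variable {N : Type*} [CStarAlgebra N] {τ : N →ₗ[ℂ] ℂ}

theorem left_supp (h : IsTr τ) {f x : N} (hf : IsProj f) (hxf : x * f = x) :
    ∃ L : N, IsProj L ∧ L * x = x ∧ (τ L).re ≤ (τ f).re ∧
      ∀ c : N, star c = c → c * x = x → c * L = L := by
  by_cases hx0 : x = 0
  · refine ⟨0, ⟨star_zero _, zero_mul _⟩, by rw [hx0, zero_mul], ?_, fun c _ _ => mul_zero _⟩
    rw [map_zero, Complex.zero_re]
    exact (proj_tau h hf).2.1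
  · have hy0 : star x ≠ 0 := by
      intro h0
      exact hx0 (star_eq_zero.1 h0)
    obtain ⟨v, -, hv, hvl, hvr, -, hyv⟩ := polar2 h (star x) hy0
    have hp : PIso v := piso_of_proj hv
    have hfx : f * star x = star x := by
      have h1 := congrArg star hxf
      rwa [star_mul, hf.1] at h1
    have hfv : f * v = v := hvl f hfx
    have hLs : star (star v * v) = star v * v := by rw [star_mul, star_star]
    refine ⟨star v * v, ⟨hLs, hv⟩, ?_, ?_, ?_⟩
    · have h1 := congrArg star hyv
      rwa [star_mul, star_star, hLs] at h1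
    · have h1 := (proj_tau h (isProj_sub hf hp hfv)).2.1
      rw [map_sub, Complex.sub_re, h.tracial v (star v)] at h1
      linarith
    · intro c hc hcx
      have h1 : star x * c = star x := by
        have h2 := congrArg star hcx
        rwa [star_mul, hc] at h2
      have h3 : v * c = v := hvr c hc h1
      have h4 : star v * v * c = star v * v := by rw [mul_assoc, h3]
      have h5 := congrArg star h4
      rwa [star_mul, hc, hLs] at h5

end AM
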