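import Pool.Agent.H77.AM.Pd
import Pool.Agent.H77.AM.Ne
import Pool.Agent.H77.AM.Cj

/-!
# Pf: moving projections inside a corner

`equiv_in`: `SC.proj_equiv` for `f₁, f₂` and for `E - f₁, E - f₂` gives `v, v'`; `g = v + v'` is in `CUnit E` (all of `v, v'` are in the
corner `E`: `v v* v = v`).
`move_under`: `sub_proj` gives `m₁` with `m m₁ = m₁`, `τ m₁ = τ L`; apply `equiv_in` to `L, m₁` in `F`; then
`m (c L c*) = m m₁ = m₁`.
`good_sub`: for `c ∈ CUnit f`, `c + (E - f) ∈ CUnit E` and `c + (E - f) + (1 - E) = c + (1 - f)`.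
`good_conj`: for `c ∈ CUnit (w F w*)`, `w* c w ∈ CUnit F` and `w (w* c w + (1 - F)) w* = c + (1 - w F w*)`.
-/

open Filter Topology

namespace AM

open SC ST

variable {N : Type*} [CStarAlgebra N] {τ : N →ₗ[ℂ] ℂ}

private theorem pf_star_right {E f : N} (hE : IsProj E) (hf : IsProj f) (h : E * f = f) : f * E = f := by
  have h1 := congrArg star h
  rwa [star_mul, hE.1, hf.1] at h1

private theorem pf_sub {E f : N} (hE : IsProj E) (hf : IsProj f) (h : E * f = f) : IsProj (E - f) := by
  have h1 := pf_star_right hE hf h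
  refine ⟨by rw [star_sub, hE.1, hf.1], ?_⟩
  rw [sub_mul, mul_sub, mul_sub, hE.2, h, h1, hf.2, sub_self, sub_zero]

private theorem pf_cross {Q Q' v v' : N} (hQ : IsProj Q) (l1 : Q * v = v) (l2 : Q' * v' = v') (h0 : Q * Q' = 0) :
    star v * v' = 0 := by
  calc star v * v' = star (Q * v) * (Q' * v') := by rw [l1, l2]
    _ = star v * (Q * Q') * v' := by rw [star_mul, hQ.1]; simp only [mul_assoc]
    _ = 0 := by rw [h0, mul_zero, zero_mul]

theorem equiv_in (h : IsII1 τ) {E f₁ f₂ : N} (hE : IsProj E) (h1 : IsProj f₁) (h2 : IsProj f₂)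
    (hE1 : E * f₁ = f₁) (hE2 : E * f₂ = f₂) (ht : τ f₁ = τ f₂) :
    ∃ g ∈ CUnit E, g * f₁ * star g = f₂ := by
  have hs1 := pf_sub hE h1 hE1
  have hs2 := pf_sub hE h2 hE2
  have hr1 := pf_star_right hE h1 hE1
  have hr2 := pf_star_right hE h2 hE2
  obtain ⟨v, hv1, hv2⟩ := proj_equiv h h1.1 h1.2 h2.1 h2.2 ht
  obtain ⟨v', hv1', hv2'⟩ := proj_equiv h hs1.1 hs1.2 hs2.1 hs2.2 (by rw [map_sub, map_sub, ht])
  have r1 := right_of f₁ v h1.2 h1.1 hv1
  have r2 := right_of (E - f₁) v' hs1.2 hs1.1 hv1'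
  have l1 := left_of f₂ v h2.2 h2.1 hv2
  have l2 := left_of (E - f₂) v' hs2.2 hs2.1 hv2'
  have z1 : f₁ * (E - f₁) = 0 := by rw [mul_sub, hr1, h1.2, sub_self]
  have z2 : f₂ * (E - f₂) = 0 := by rw [mul_sub, hr2, h2.2, sub_self]
  have z3 : (E - f₁) * f₁ = 0 := by rw [sub_mul, hE1, h1.2, sub_self]
  have c1 : star v * v' = 0 := pf_cross h2 l1 l2 z2
  have c2 : star v' * v = 0 := by
    have h3 := congrArg star c1
    rwa [star_mul, star_star, star_zero] at h3
  have s1 : f₁ * star v = star v := by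
    have h3 := congrArg star r1
    rwa [star_mul, h1.1] at h3
  have s2 : (E - f₁) * star v' = star v' := by
    have h3 := congrArg star r2
    rwa [star_mul, hs1.1] at h3
  have c3 : v * star v' = 0 := by
    have h3 := pf_cross h1 s1 s2 z1
    rwa [star_star] at h3
  have c4 : v' * star v = 0 := by
    have h3 := congrArg star c3
    rwa [star_mul, star_star, star_zero] at h3
  have e1 : E * v = v := by
    calc E * v = E * (f₂ * v) := by rw [l1]
      _ = v := by rw [← mul_assoc, hE2, l1]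
  have e2 : E * v' = v' := by
    calc E * v' = E * ((E - f₂) * v') := by rw [l2]
      _ = v' := by rw [← mul_assoc, mul_sub, hE.2, hE2, l2]
  have e3 : v * E = v := by
    calc v * E = v * f₁ * E := by rw [r1]
      _ = v := by rw [mul_assoc, hr1, r1]
  have e4 : v' * E = v' := by
    calc v' * E = v' * (E - f₁) * E := by rw [r2]
      _ = v' := by rw [mul_assoc, sub_mul, hE.2, hr1, r2]
  have e5 : v' * f₁ = 0 := by
    calc v' * f₁ = v' * (E - f₁) * f₁ := by rw [r2]
      _ = 0 := by rw [mul_assoc, z3, mul_zero]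
  refine ⟨v + v', ⟨?_, ?_, ?_, ?_⟩, ?_⟩
  · rw [mul_add, e1, e2]
  · rw [add_mul, e3, e4]
  · rw [star_add, add_mul, mul_add, mul_add, hv1, hv1', c1, c2]
    abel
  · rw [star_add, add_mul, mul_add, mul_add, hv2, hv2', c3, c4]
    abel
  · rw [add_mul, r1, e5, add_zero, star_add, mul_add, hv2, c3, add_zero]

theorem move_under (h : IsII1 τ) (hne : (Haar τ).Nonempty) {L m F : N} (hL : IsProj L)
    (hm : IsProj m) (hF : IsProj F) (hFL : F * L = L) (hFm : F * m = m)
    (ht : (τ L).re ≤ (τ m).re) :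
    ∃ c ∈ CUnit F, m * (c * L * star c) = c * L * star c := by
  obtain ⟨i1, i2, -, -⟩ := proj_tau (isTr_of_isII1 h) hL
  obtain ⟨m₁, hm₁, hmm, htm⟩ := sub_proj h hne hm (τ L).re i2 ht
  have hre : τ L = (((τ L).re : ℝ) : ℂ) := Complex.ext (by simp) (by simp [i1])
  have hFm₁ : F * m₁ = m₁ := by
    calc F * m₁ = F * (m * m₁) := by rw [hmm]
      _ = m₁ := by rw [← mul_assoc, hFm, hmm]
  obtain ⟨c, hc, hcL⟩ := equiv_in h hF hL hm₁ hFL hFm₁ (by rw [htm]; exact hre)
  exact ⟨c, hc, by rw [hcL, hmm]⟩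

theorem good_sub {G : Set N} {E f : N} (hE : Good G E) (hf : IsProj f) (hEf : E * f = f) :
    Good G f := by
  obtain ⟨hEp, hEG⟩ := hE
  refine ⟨hf, fun c hc => ?_⟩
  obtain ⟨c1, c2, c3, c4⟩ := hc
  have hfE := pf_star_right hEp hf hEf
  have hs := pf_sub hEp hf hEf
  have e1 : E * c = c := by
    calc E * c = E * (f * c) := by rw [c1]
      _ = c := by rw [← mul_assoc, hEf, c1]
  have e2 : c * E = c := by
    calc c * E = c * f * E := by rw [c2]
      _ = c := by rw [mul_assoc, hfE, c2]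
  have z1 : f * (E - f) = 0 := by rw [mul_sub, hfE, hf.2, sub_self]
  have e3 : c * (E - f) = 0 := by
    calc c * (E - f) = c * f * (E - f) := by rw [c2]
      _ = 0 := by rw [mul_assoc, z1, mul_zero]
  have e4 : star c * (E - f) = 0 := by
    have h3 : star c * f = star c := by
      have h4 := congrArg star c1
      rwa [star_mul, hf.1] at h4
    calc star c * (E - f) = star c * f * (E - f) := by rw [h3]
      _ = 0 := by rw [mul_assoc, z1, mul_zero]
  have e5 : (E - f) * c = 0 := by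
    have h4 := congrArg star e4
    rwa [star_mul, star_star, hs.1, star_zero] at h4
  have e6 : (E - f) * star c = 0 := by
    have h4 := congrArg star e3
    rwa [star_mul, hs.1, star_zero] at h4
  have hc' : c + (E - f) ∈ CUnit E := by
    refine ⟨?_, ?_, ?_, ?_⟩
    · rw [mul_add, e1, mul_sub, hEp.2, hEf]
    · rw [add_mul, e2, sub_mul, hEp.2, hfE]
    · rw [star_add, hs.1, add_mul, mul_add, mul_add, c3, e4, e5, hs.2]
      abel
    · rw [star_add, hs.1, add_mul, mul_add, mul_add, c4, e3, e6, hs.2]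
      abel
  have h5 := hEG _ hc'
  have h6 : c + (E - f) + (1 - E) = c + (1 - f) := by abel
  rwa [h6] at h5

theorem good_conj {G : Set N} (hmul : ∀ x ∈ G, ∀ y ∈ G, x * y ∈ G) (hstar : ∀ x ∈ G, star x ∈ G)
    {F w : N} (hF : Good G F) (hw : w ∈ G) (hwu : w ∈ unitary N) : Good G (w * F * star w) := by
  obtain ⟨hFp, hFG⟩ := hF
  have u1 : star w * w = 1 := Unitary.star_mul_self_of_mem hwu
  have u2 : w * star w = 1 := Unitary.mul_star_self_of_mem hwu
  refine ⟨⟨by rw [conj_star, hFp.1], by rw [conj_mul hwu, hFp.2]⟩, fun c hc => ?_⟩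
  have h1 := cunit_conj (Unitary.star_mem hwu) hc
  have h2 : star w * (w * F * star w) * star (star w) = F := by
    rw [star_star]
    calc star w * (w * F * star w) * w = (star w * w) * F * (star w * w) := by simp only [mul_assoc]
      _ = F := by rw [u1, one_mul, mul_one]
  rw [h2] at h1
  have h3 := hmul _ (hmul _ hw _ (hFG _ h1)) _ (hstar _ hw)
  have h4 : w * (star w * c * star (star w) + (1 - F)) * star w = c + (1 - w * F * star w) := by
    rw [star_star]
    calc w * (star w * c * w + (1 - F)) * star w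
        = (w * star w) * c * (w * star w) + (w * star w - w * F * star w) := by noncomm_ring
      _ = c + (1 - w * F * star w) := by rw [u2, one_mul, mul_one]
  rwa [h4] at h3

end AM
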