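import Pool.Agent.H77.AM.Pe
import Pool.Agent.H77.AM.Pf

/-!
# Pg: enlarging a good projection

`F, f` orthogonal projections, `m ≤ F` with `τ f ≤ τ m`, `F` good and `E = m + f` good.  Then `F + f` is good.
Proof: let `c₀ ∈ CUnit (F + f)`, `w' = c₀ + (1 - (F + f))` (a unitary of `N`), `f' = c₀ f c₀*`, a projection `≤ F + f` with
`τ f' = τ f`.  Let `L` be the left support of `x = F f'` (`left_supp`, `x f' = x`; `F x = x` gives `F L = L`),
`τ L ≤ τ f' = τ f ≤ τ m`.  `move_under`: `c ∈ CUnit F` with `m (c L c*) = c L c*`.  Put `c' = c + (1 - F) ∈ G`,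
`f'' = c' f' c'*`.  Then `E f'' = f''`: `F f'' = c F f' c'* = c x c'*` and `m (c x) = m (c L x) = m (c L c* c x) = c L c* c x = c x`;
`(1 - F) f'' = f f''` since `(F + f) f'' = f''` (`c'` commutes with `F` and `f`).
`equiv_in`: `g ∈ CUnit E` with `g f'' g* = f`; `g' = g + (1 - E) ∈ G`.  `W = g' c' w'` is a unitary with `W f W* = f`, so it
commutes with `f`, and with `F + f`, so with `F`.  `W F + (1 - F) ∈ G` (`F` good), `W f + (1 - f) ∈ G` (`f ≤ E`, `good_sub`), and `W` is the
product of these two (as `W (1 - F - f) = 1 - F - f`).  So `W ∈ G`, `w' = c'* g'* W ∈ G`.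
-/

open Filter Topology

namespace AM

open SC ST

variable {N : Type*} [CStarAlgebra N] {τ : N →ₗ[ℂ] ℂ}

theorem pg_unit {p c : N} (hp : IsProj p) (hc : c ∈ CUnit p) : c + (1 - p) ∈ unitary N := by
  obtain ⟨h1, h2, h3, h4⟩ := hc
  obtain ⟨hs, hpp⟩ := hp
  have h5 : star c * p = star c := by
    have h := congrArg star h1
    rwa [star_mul, hs] at h
  have h6 : p * star c = star c := by
    have h := congrArg star h2
    rwa [star_mul, hs] at h
  rw [Unitary.mem_iff]
  constructor
  · rw [star_add, star_sub, star_one, hs]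
    simp only [mul_add, add_mul, mul_sub, sub_mul, mul_one, one_mul, h1, h3, h5, hpp]
    abel
  · rw [star_add, star_sub, star_one, hs]
    simp only [mul_add, add_mul, mul_sub, sub_mul, mul_one, one_mul, h2, h4, h6, hpp]
    abel

theorem pg_corner {p W : N} (hp : IsProj p) (hW : W ∈ unitary N) (hc : W * p = p * W) :
    W * p ∈ CUnit p := by
  obtain ⟨hs, hpp⟩ := hp
  have h1 : star W * W = 1 := Unitary.star_mul_self_of_mem hW
  have h2 : W * star W = 1 := Unitary.mul_star_self_of_mem hW
  refine ⟨?_, ?_, ?_, ?_⟩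
  · rw [← mul_assoc, ← hc, mul_assoc, hpp]
  · rw [mul_assoc, hpp]
  · rw [star_mul, hs]
    calc p * star W * (W * p) = p * (star W * W) * p := by simp only [mul_assoc]
      _ = p := by rw [h1, mul_one, hpp]
  · rw [star_mul, hs]
    calc W * p * (p * star W) = W * (p * p) * star W := by simp only [mul_assoc]
      _ = W * p * star W := by rw [hpp]
      _ = p * (W * star W) := by rw [hc, mul_assoc]
      _ = p := by rw [h2, mul_one]

theorem good_step (h : IsII1 τ) (hne : (Haar τ).Nonempty) {G : Set N}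
    (hmul : ∀ x ∈ G, ∀ y ∈ G, x * y ∈ G) (hstar : ∀ x ∈ G, star x ∈ G) {F f m : N}
    (hF : Good G F) (hf : IsProj f) (hm : IsProj m) (hFm : F * m = m) (hFf : F * f = 0)
    (hE : Good G (m + f)) (ht : (τ f).re ≤ (τ m).re) : Good G (F + f) := by
  obtain ⟨hFp, hFc⟩ := hF
  have hEp := hE.1
  have hEc := hE.2
  have hFs := hFp.1
  have hFF := hFp.2
  have hfs := hf.1
  have hff := hf.2
  have hms := hm.1
  have hfF : f * F = 0 := by
    have h1 := congrArg star hFf
    rwa [star_mul, hFs, hfs, star_zero] at h1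
  have hmF : m * F = m := by
    have h1 := congrArg star hFm
    rwa [star_mul, hFs, hms] at h1
  have hmf : m * f = 0 := by rw [← hmF, mul_assoc, hFf, mul_zero]
  have hfm : f * m = 0 := by rw [← hFm, ← mul_assoc, hfF, zero_mul]
  have hPp : IsProj (F + f) := by
    refine ⟨by rw [star_add, hFs, hfs], ?_⟩
    simp only [mul_add, add_mul, hFF, hff, hFf, hfF]
    abel
  refine ⟨hPp, fun c₀ hc₀ => ?_⟩
  obtain ⟨P, hP⟩ : ∃ P : N, P = F + f := ⟨_, rfl⟩
  obtain ⟨E, hEeq⟩ : ∃ E : N, E = m + f := ⟨_, rfl⟩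
  rw [← hEeq] at hE hEp hEc
  rw [← hP] at hPp hc₀ ⊢
  have hPf : P * f = f := by rw [hP, add_mul, hFf, hff, zero_add]
  have hfP : f * P = f := by rw [hP, mul_add, hfF, hff, zero_add]
  have hPF : P * F = F := by rw [hP, add_mul, hFF, hfF, add_zero]
  have hFP : F * P = F := by rw [hP, mul_add, hFF, hFf, add_zero]
  have hEf : E * f = f := by rw [hEeq, add_mul, hmf, hff, zero_add]
  have hPE : P * E = E := by
    rw [hP, hEeq]
    simp only [mul_add, add_mul, hFm, hFf, hfm, hff]
    abel
  have hEP : E * P = E := by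
    have h1 := congrArg star hPE
    rwa [star_mul, hPp.1, hEp.1] at h1
  have hw'u := pg_unit hPp hc₀
  obtain ⟨hc1, hc2, hc3, hc4⟩ := hc₀
  obtain ⟨w', hw'⟩ : ∃ w' : N, w' = c₀ + (1 - P) := ⟨_, rfl⟩
  rw [← hw'] at hw'u ⊢
  have hw'f : w' * f = c₀ * f := by
    rw [hw', add_mul, sub_mul, one_mul, hPf, sub_self, add_zero]
  have hfw' : f * star w' = f * star c₀ := by
    have h1 := congrArg star hw'f
    rwa [star_mul, star_mul, hfs] at h1
  have hPw' : P * w' = w' * P := by
    rw [hw']
    simp only [mul_add, add_mul, mul_sub, sub_mul, mul_one, one_mul, hc1, hc2, hPp.2]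
  have hw'P : w' * (1 - P) = 1 - P := by
    rw [hw']
    simp only [mul_sub, add_mul, sub_mul, mul_one, one_mul, hc2, hPp.2]
    abel
  obtain ⟨f', hf'⟩ : ∃ f' : N, f' = c₀ * f * star c₀ := ⟨_, rfl⟩
  have hf'p : IsProj f' := by
    rw [hf']
    refine ⟨by rw [star_mul, star_mul, star_star, hfs, mul_assoc], ?_⟩
    calc c₀ * f * star c₀ * (c₀ * f * star c₀) = c₀ * (f * (star c₀ * c₀) * f) * star c₀ := by
          simp only [mul_assoc]
      _ = c₀ * f * star c₀ := by rw [hc3, hfP, hff]
  have hPf' : P * f' = f' := by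
    rw [hf', ← mul_assoc, ← mul_assoc, hc1]
  have htf' : τ f' = τ f := by
    rw [hf', h.tracial, ← mul_assoc, hc3, hPf]
  have hw'c : w' * f * star w' = f' := by
    calc w' * f * star w' = w' * (f * f) * star w' := by rw [hff]
      _ = (w' * f) * (f * star w') := by simp only [mul_assoc]
      _ = (c₀ * f) * (f * star c₀) := by rw [hw'f, hfw']
      _ = c₀ * (f * f) * star c₀ := by simp only [mul_assoc]
      _ = f' := by rw [hff, hf']
  obtain ⟨x, hx⟩ : ∃ x : N, x = F * f' := ⟨_, rfl⟩
  have hxf : x * f' = x := by rw [hx, mul_assoc, hf'p.2]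
  have hFx : F * x = x := by rw [hx, ← mul_assoc, hFF]
  obtain ⟨L, hL, hLx, hLt, hLc⟩ := left_supp (isTr_of_isII1 h) hf'p hxf
  have hFL : F * L = L := hLc F hFs hFx
  obtain ⟨c, hc, hmc⟩ := move_under h hne hL hm hFp hFL hFm (by rw [htf'] at hLt; exact hLt.trans ht)
  have hc'G := hFc c hc
  have hc'u := pg_unit hFp hc
  obtain ⟨hd1, hd2, hd3, hd4⟩ := hc
  obtain ⟨c', hc'⟩ : ∃ c' : N, c' = c + (1 - F) := ⟨_, rfl⟩
  rw [← hc'] at hc'G hc'u
  have hfc : f * c = 0 := by rw [← hd1, ← mul_assoc, hfF, zero_mul]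
  have hcf : c * f = 0 := by rw [← hd2, mul_assoc, hFf, mul_zero]
  have hFc' : F * c' = c := by
    rw [hc']
    simp only [mul_add, mul_sub, mul_one, hd1, hFF]
    abel
  have hc'F : c' * F = c := by
    rw [hc']
    simp only [add_mul, sub_mul, one_mul, hd2, hFF]
    abel
  have hfc' : f * c' = f := by
    rw [hc']
    simp only [mul_add, mul_sub, mul_one, hfc, hfF]
    abel
  have hc'f : c' * f = f := by
    rw [hc']
    simp only [add_mul, sub_mul, one_mul, hcf, hFf]
    abel
  have hPc' : P * c' = c' * P := by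
    rw [hP, add_mul, mul_add, hFc', hc'F, hfc', hc'f]
  have hc'P : c' * (1 - P) = 1 - P := by
    rw [mul_sub, mul_one, hP, mul_add, hc'F, hc'f, hc']
    abel
  obtain ⟨f2, hf2⟩ : ∃ f2 : N, f2 = c' * f' * star c' := ⟨_, rfl⟩
  have hc's : star c' * c' = 1 := Unitary.star_mul_self_of_mem hc'u
  have hf2p : IsProj f2 := by
    rw [hf2]
    refine ⟨by rw [star_mul, star_mul, star_star, hf'p.1, mul_assoc], ?_⟩
    rw [conj_mul hc'u, hf'p.2]
  have hPf2 : P * f2 = f2 := by
    rw [hf2, ← mul_assoc, ← mul_assoc, hPc', mul_assoc c' P, hPf']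
  have htf2 : τ f2 = τ f := by rw [hf2, tau_conj h hc'u, htf']
  have hcx : m * (c * x) = c * x := by
    have h1 : c * x = c * L * star c * (c * x) := by
      calc c * x = c * (L * (F * x)) := by rw [hFx, hLx]
        _ = c * (L * (star c * c * x)) := by rw [hd3]
        _ = c * L * star c * (c * x) := by simp only [mul_assoc]
    rw [h1, ← mul_assoc, hmc]
  have hFf2 : F * f2 = c * x * star c' := by
    calc F * f2 = (F * c') * f' * star c' := by rw [hf2]; simp only [mul_assoc]
      _ = (c * F) * f' * star c' := by rw [hFc', hd2]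
      _ = c * x * star c' := by rw [hx]; simp only [mul_assoc]
  have hmf2 : m * f2 = F * f2 := by
    calc m * f2 = m * (F * f2) := by rw [← mul_assoc, hmF]
      _ = m * (c * x) * star c' := by rw [hFf2]; simp only [mul_assoc]
      _ = F * f2 := by rw [hcx, hFf2]
  have hEf2 : E * f2 = f2 := by
    rw [hEeq, add_mul, hmf2, ← add_mul, ← hP, hPf2]
  obtain ⟨g, hg, hgf⟩ := equiv_in h hEp hf2p hf hEf2 hEf htf2
  have hg'G := hEc g hg
  have hg'u := pg_unit hEp hg
  obtain ⟨he1, he2, he3, he4⟩ := hg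
  obtain ⟨g', hg'⟩ : ∃ g' : N, g' = g + (1 - E) := ⟨_, rfl⟩
  rw [← hg'] at hg'G hg'u
  have hPg : P * g = g := by rw [← he1, ← mul_assoc, hPE]
  have hgP : g * P = g := by rw [← he2, mul_assoc, hEP]
  have hPg' : P * g' = g' * P := by
    rw [hg']
    simp only [mul_add, add_mul, mul_sub, sub_mul, mul_one, one_mul, hPg, hgP, hPE, hEP]
  have hg'P : g' * (1 - P) = 1 - P := by
    rw [hg']
    simp only [mul_sub, add_mul, sub_mul, mul_one, one_mul, hgP, hEP]
    abel
  have hg'f2 : g' * f2 = g * f2 := by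
    rw [hg', add_mul, sub_mul, one_mul, hEf2, sub_self, add_zero]
  have hg'c : g' * f2 * star g' = f := by
    have h1 : f2 * star g' = f2 * star g := by
      have h2 := congrArg star hg'f2
      rwa [star_mul, star_mul, hf2p.1] at h2
    calc g' * f2 * star g' = g * (f2 * star g') := by rw [hg'f2, mul_assoc]
      _ = g * f2 * star g := by rw [h1, mul_assoc]
      _ = f := hgf
  obtain ⟨W, hW⟩ : ∃ W : N, W = g' * (c' * w') := ⟨_, rfl⟩
  have hWu : W ∈ unitary N := by
    rw [hW]
    exact mul_mem hg'u (mul_mem hc'u hw'u)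
  have hWW : star W * W = 1 := Unitary.star_mul_self_of_mem hWu
  have hWf' : W * f * star W = f := by
    calc W * f * star W = g' * (c' * (w' * f * star w') * star c') * star g' := by
          rw [hW, star_mul, star_mul]
          simp only [mul_assoc]
      _ = f := by rw [hw'c, ← hf2, hg'c]
  have hWf : W * f = f * W := by
    calc W * f = W * f * (star W * W) := by rw [hWW, mul_one]
      _ = W * f * star W * W := by simp only [mul_assoc]
      _ = f * W := by rw [hWf']
  have hWP : W * P = P * W := by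
    rw [hW]
    calc g' * (c' * w') * P = g' * (c' * (w' * P)) := by simp only [mul_assoc]
      _ = g' * ((c' * P) * w') := by rw [← hPw']; simp only [mul_assoc]
      _ = (g' * P) * (c' * w') := by rw [← hPc']; simp only [mul_assoc]
      _ = P * (g' * (c' * w')) := by rw [← hPg', mul_assoc]
  have hWF : W * F = F * W := by
    have h1 : F = P - f := by rw [hP, add_sub_cancel_right]
    rw [h1, mul_sub, sub_mul, hWP, hWf]
  have hW1 : W * (1 - P) = 1 - P := by
    rw [hW]
    calc g' * (c' * w') * (1 - P) = g' * (c' * (w' * (1 - P))) := by simp only [mul_assoc]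
      _ = 1 - P := by rw [hw'P, hc'P, hg'P]
  have hGf : Good G f := good_sub hE hf hEf
  have h1 := hFc _ (pg_corner hFp hWu hWF)
  have h2 := hGf.2 _ (pg_corner hf hWu hWf)
  have h3 : (W * F + (1 - F)) * (W * f + (1 - f)) = W := by
    have e1 : W * F * (W * f) = 0 := by
      calc W * F * (W * f) = W * (F * W) * f := by simp only [mul_assoc]
        _ = W * W * (F * f) := by rw [← hWF]; simp only [mul_assoc]
        _ = 0 := by rw [hFf, mul_zero]
    have e2 : W * F * f = 0 := by rw [mul_assoc, hFf, mul_zero]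
    have e3 : F * (W * f) = 0 := by rw [← mul_assoc, ← hWF, e2]
    have e4 : W * F + W * f + (1 - P) = W := by
      have h4 : W * P + W * (1 - P) = W := by rw [← mul_add, add_sub_cancel, mul_one]
      rw [hW1, hP, mul_add] at h4
      rw [hP]
      exact h4
    calc (W * F + (1 - F)) * (W * f + (1 - f)) = W * F + W * f + (1 - P) := by
          rw [hP]
          simp only [mul_add, add_mul, mul_sub, sub_mul, mul_one, one_mul, e1, e2, e3, hFf]
          abel
      _ = W := e4
  have hWG : W ∈ G := by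
    rw [← h3]
    exact hmul _ h1 _ h2
  have h5 : w' = star c' * (star g' * W) := by
    have h6 : star g' * g' = 1 := Unitary.star_mul_self_of_mem hg'u
    rw [hW, ← mul_assoc (star g'), h6, one_mul, ← mul_assoc, hc's, one_mul]
  rw [h5]
  exact hmul _ (hstar _ hc'G) _ (hmul _ (hstar _ hg'G) _ hWG)

end AM
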