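import Pool.Agent.H77.AM.Df
import Pool.Agent.H77.ST.Hc
import Pool.Agent.H77.ST.Hk

/-!
# Pt: projections of every trace commuting with a Haar unitary

Proof idea: (i) by `half_comm` repeatedly there are, below every projection `f` commuting with `u`,
projections commuting with `u` of trace `2^{-k} τ f`.  (ii) Build an increasing sequence
`e_k ≤ p` of projections commuting with `u` with `τ p · (digits of s/τ p up to 2^{-k})`, i.e.
`s - τ p / 2^k ≤ τ e_k ≤ s`, and take the 2-norm limit (`h.complete`; the limit commutes with `u`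
and is a projection, `lim_unique2`, `tendsto_mul2` in ST/Pl or ST/Pa may help).
Alternatively use `exhaust` (ST/Ex or wherever it lives) with the order `e ≤ e'` and the bound
`τ e ≤ s`: a maximal `e` has `τ e = s`, because otherwise `half_comm` iterated gives
a nonzero projection `g ≤ p - e` commuting with `u` with `τ g ≤ s - τ e`.  Model: the proof of
`half_comm` in ST/Hc.lean (which is the case `s = τ p / 2`), and `small_comm` there.
-/

open Filter Topology

namespace AM

open SC ST

variable {N : Type*} [CStarAlgebra N] {τ : N →ₗ[ℂ] ℂ}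

private theorem pt_tau_mono (h : IsTr τ) {x y : N} (hx : IsProj x) (hy : IsProj y) (hxy : y * x = x) :
    IsProj (y - x) ∧ (τ x).re ≤ (τ y).re := by
  have h1 : x * y = x := by
    have := congrArg star hxy
    rwa [star_mul, hx.1, hy.1] at this
  have h2 : IsProj (y - x) := by
    refine ⟨?_, ?_⟩
    · rw [star_sub, hy.1, hx.1]
    · calc (y - x) * (y - x) = y * y - y * x - x * y + x * x := by noncomm_ring
        _ = y - x := by rw [hy.2, hxy, h1, hx.2]; noncomm_ring
  refine ⟨h2, ?_⟩
  have h3 := (proj_tau h h2).2.1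
  rw [map_sub, Complex.sub_re] at h3
  linarith

/-- the set of subprojections -/
private abbrev PtS (τ : N →ₗ[ℂ] ℂ) (u p : N) (s : ℝ) : Type _ :=
  {e : N // IsProj e ∧ e * u = u * e ∧ p * e = e ∧ (τ e).re ≤ s}

private theorem pt_norm {p : N} (hp : IsProj p) : ‖p‖ ≤ 1 :=
  piso_norm (show p * star p * p = p by rw [hp.1, hp.2, hp.2])

theorem proj_trace (h : IsTr τ) {u : N} (hu : u ∈ Haar τ) {p : N} (hp : IsProj p)
    (hpu : p * u = u * p) (s : ℝ) (hs : 0 ≤ s) (hsp : s ≤ (τ p).re) :
    ∃ e : N, IsProj e ∧ e * u = u * e ∧ p * e = e ∧ τ e = (s : ℂ) := by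
  have hu1 : ‖u‖ ≤ 1 := norm_unitary_le hu.1
  have hp1 : ‖p‖ ≤ 1 := pt_norm hp
  obtain ⟨hpi, hp0, hple, -⟩ := proj_tau h hp
  have h0 : IsProj (0 : N) := ⟨star_zero N, mul_zero 0⟩
  obtain ⟨e, -, hmax⟩ := exhaust (S := PtS τ u p s) (fun x y => y.1 * x.1 = x.1) (fun x => x.2.1.2)
    (fun x y z h1 h2 => by
      show z.1 * x.1 = x.1
      rw [← h1, ← mul_assoc, h2])
    (fun x => (τ x.1).re) (fun x y hxy => (pt_tau_mono h x.2.1 y.2.1 hxy).2)
    ⟨1, fun x => (proj_tau h x.2.1).2.2.1⟩
    (by
      intro x hx
      have hpx : ∀ k, PIso (x k).1 := by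
        intro k
        show (x k).1 * star (x k).1 * (x k).1 = (x k).1
        rw [(x k).2.1.1, (x k).2.1.2, (x k).2.1.2]
      obtain ⟨y, hy1, hy2, hy3⟩ := pi_limit h (fun k => (x k).1) hpx (fun k => by
        show (x (k + 1)).1 * (star (x k).1 * (x k).1) = (x k).1
        rw [(x k).2.1.1, (x k).2.1.2]
        exact hx k)
      have hy2' : ∀ k, y * (x k).1 = (x k).1 := by
        intro k
        have := hy2 k
        unfold Extends at this
        rwa [(x k).2.1.1, (x k).2.1.2] at this
      have hyn : ‖y‖ ≤ 1 := piso_norm hy1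
      have hxn : ∀ k, ‖(x k).1‖ ≤ 1 := fun k => pt_norm (x k).2.1
      have hst : star y = y := by
        refine lim_unique2 h (x := fun k => (x k).1) ?_ hy3
        refine hy3.congr fun k => ?_
        rw [← n2_star h, star_sub, (x k).2.1.1]
      have hsq : y * y = y := by
        have h1 := tendsto_mul2 h (x := fun k => (x k).1) (y := fun k => (x k).1) (a := y) (b := y) 1 hxn hyn hy3 hy3
        refine lim_unique2 h (x := fun k => (x k).1) ?_ hy3
        refine h1.congr fun k => ?_
        rw [(x k).2.1.2]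
      have hyu : y * u = u * y := by
        refine lim_unique2 h (x := fun k => (x k).1 * u) ?_ ?_
        · refine squeeze_zero (fun k => n2_nonneg _) (fun k => ?_) hy3
          rw [← sub_mul]
          refine (n2_mul_le' h _ _).trans ?_
          exact mul_le_of_le_one_right (n2_nonneg _) hu1
        · refine squeeze_zero (fun k => n2_nonneg _) (fun k => ?_) hy3
          rw [(x k).2.2.1, ← mul_sub]
          refine (n2_mul_le h _ _).trans ?_
          exact mul_le_of_le_one_left (n2_nonneg _) hu1
      have hpy : p * y = y := by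
        refine lim_unique2 h (x := fun k => (x k).1) ?_ hy3
        refine squeeze_zero (fun k => n2_nonneg _) (fun k => ?_) hy3
        have e : (x k).1 - p * y = p * ((x k).1 - y) := by
          rw [mul_sub, (x k).2.2.2.1]
        rw [e]
        refine (n2_mul_le h _ _).trans ?_
        exact mul_le_of_le_one_left (n2_nonneg _) hp1
      have hty : (τ y).re ≤ s := by
        have h1 : Tendsto (fun k => (τ (x k).1).re) atTop (𝓝 (τ y).re) := by
          rw [tendsto_iff_norm_sub_tendsto_zero]
          refine squeeze_zero (fun k => norm_nonneg _) (fun k => ?_) hy3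
          rw [← Complex.sub_re, ← map_sub, Real.norm_eq_abs]
          exact (Complex.abs_re_le_norm _).trans (tau_le_n2 h _)
        exact le_of_tendsto' h1 fun k => (x k).2.2.2.2
      exact ⟨⟨y, ⟨hst, hsq⟩, hyu, hpy, hty⟩, hy2'⟩)
    ⟨0, h0, by rw [zero_mul, mul_zero], mul_zero p, by rw [map_zero, Complex.zero_re]; exact hs⟩
  obtain ⟨he, heu, hpe, hte⟩ := e.2
  have hei := (proj_tau h he).1
  have he0 := (proj_tau h he).2.1
  have hep : e.1 * p = e.1 := by
    have := congrArg star hpe
    rwa [star_mul, he.1, hp.1] at this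
  refine ⟨e.1, he, heu, hpe, ?_⟩
  have hre : (τ e.1).re = s := by
    by_contra hne
    have hlt : (τ e.1).re < s := lt_of_le_of_ne hte hne
    obtain ⟨hq, -⟩ := pt_tau_mono h he hp hpe
    have hqu : (p - e.1) * u = u * (p - e.1) := by
      rw [sub_mul, mul_sub, hpu, heu]
    have hq0 : p - e.1 ≠ 0 := by
      intro h1
      have h2 : (τ p).re = (τ e.1).re := congrArg (fun x => (τ x).re) (sub_eq_zero.1 h1)
      linarith
    obtain ⟨d, hd1, hd2, hd3, hd4, hd5⟩ := small_comm h hu hq hqu hq0 (s - (τ e.1).re) (by linarith)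
    have hed : e.1 * d = 0 := by
      rw [← hd3, ← mul_assoc, mul_sub, hep, he.2, sub_self, zero_mul]
    have hde : d * e.1 = 0 := by
      have := congrArg star hed
      rwa [star_mul, he.1, hd1.1, star_zero] at this
    have hpd : p * d = d := by
      have h1 : p * (p - e.1) = p - e.1 := by rw [mul_sub, hp.2, hpe]
      rw [← hd3, ← mul_assoc, h1]
    have hproj : IsProj (e.1 + d) := by
      refine ⟨?_, ?_⟩
      · rw [star_add, he.1, hd1.1]
      · calc (e.1 + d) * (e.1 + d) = e.1 * e.1 + e.1 * d + d * e.1 + d * d := by noncomm_ring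
          _ = e.1 + d := by rw [he.2, hed, hde, hd1.2, add_zero, add_zero]
    have hdp : 0 < (τ d).re := by
      obtain ⟨-, h1, -, h2⟩ := proj_tau h hd1
      exact lt_of_le_of_ne h1 fun h3 => hd4 (h2 h3.symm)
    have h1 := hmax ⟨e.1 + d, hproj, by rw [add_mul, mul_add, heu, hd2], by rw [mul_add, hpe, hpd], by
      rw [map_add, Complex.add_re]; linarith⟩ (by
        show (e.1 + d) * e.1 = e.1
        rw [add_mul, he.2, hde, add_zero])
    have h2 : (τ (e.1 + d)).re ≤ (τ e.1).re := h1
    rw [map_add, Complex.add_re] at h2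
    linarith
  apply Complex.ext
  · rw [hre, Complex.ofReal_re]
  · rw [hei, Complex.ofReal_im]

end AM
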