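import Pool.Agent.H77.AM.Df
import Pool.Agent.H77.AM.Pg
import Pool.Agent.H77.SC.O4

/-!
# Qa: local version of `SC.O4_near` and `SC.O4_exp`

`Loc e` is the set of unitaries `w` of `N` with `w (1 - e) = 1 - e = (1 - e) w`.  `loc_near` is `SC.O4_near` (SC/O4.lean, copy
the proof) with `unitary N` replaced by `LocU e` (which is 2-norm closed: `unitary_closed`, and `n2 (w (1 - e) - (1 - e))`
is continuous; it is closed under products and star).  `loc_exp` is `SC.O4_exp` for `y` in the corner: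
`exp (k⁻¹ y) ∈ LocU e` by `exp_corner`.
`exp_corner`: `(exp y - 1) (1 - e) = 0` because `y (1 - e) = 0` (e.g. `NormedSpace.exp_eq_tsum`/`expSeries_hasSum_exp`
multiplied by `1 - e`: all terms with `n ≥ 1` vanish; or `x = 1 - e` commutes with `y` and ...).
-/

open Filter Topology

namespace AM

open SC ST

variable {N : Type*} [CStarAlgebra N] {τ : N →ₗ[ℂ] ℂ} {U : Ultrafilter ℕ}

/-- unitaries of `eNe`, extended by `1 - e` -/
def LocU (e : N) : Set N := {w | w ∈ unitary N ∧ w * (1 - e) = 1 - e ∧ (1 - e) * w = 1 - e}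

theorem exp_corner {e y : N} (he : IsProj e) (h1 : e * y = y) (h2 : y * e = y) :
    NormedSpace.exp y * (1 - e) = 1 - e ∧ (1 - e) * NormedSpace.exp y = 1 - e := by
  have _ := he
  have hz1 : y * (1 - e) = 0 := by rw [mul_sub, mul_one, h2, sub_self]
  have hz2 : (1 - e) * y = 0 := by rw [sub_mul, one_mul, h1, sub_self]
  have hs := NormedSpace.exp_series_hasSum_exp' (𝕂 := ℂ) y
  constructor
  · have h3 := hs.mul_right (1 - e)
    have h4 : HasSum (fun n : ℕ => ((n.factorial : ℂ)⁻¹ • y ^ n) * (1 - e))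
        (((Nat.factorial 0 : ℂ)⁻¹ • y ^ 0) * (1 - e)) := by
      apply hasSum_single 0
      intro n hn
      obtain ⟨k, rfl⟩ := Nat.exists_eq_succ_of_ne_zero hn
      rw [smul_mul_assoc, pow_succ, mul_assoc, hz1, mul_zero, smul_zero]
    have h5 := h3.unique h4
    rw [h5]
    simp
  · have h3 := hs.mul_left (1 - e)
    have h4 : HasSum (fun n : ℕ => (1 - e) * ((n.factorial : ℂ)⁻¹ • y ^ n))
        ((1 - e) * ((Nat.factorial 0 : ℂ)⁻¹ • y ^ 0)) := by
      apply hasSum_single 0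
      intro n hn
      obtain ⟨k, rfl⟩ := Nat.exists_eq_succ_of_ne_zero hn
      rw [mul_smul_comm, pow_succ', ← mul_assoc, hz2, zero_mul, smul_zero]
    have h5 := h3.unique h4
    rw [h5]
    simp

theorem locU_mul {e w w' : N} (hw : w ∈ LocU e) (hw' : w' ∈ LocU e) : w * w' ∈ LocU e := by
  refine ⟨mul_mem hw.1 hw'.1, ?_, ?_⟩
  · rw [mul_assoc, hw'.2.1, hw.2.1]
  · rw [← mul_assoc, hw.2.2, hw'.2.2]

theorem locU_one {e : N} : (1 : N) ∈ LocU e :=
  ⟨one_mem (unitary N), one_mul _, mul_one _⟩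

theorem locU_closed (h : IsII1 τ) (e : N) : Closed2 τ (LocU e) := by
  intro x hx
  have hxu : x ∈ (unitary N : Set N) := SC.unitary_closed h x fun ε hε => by
    obtain ⟨y, hy, hlt⟩ := hx ε hε
    exact ⟨y, hy.1, hlt⟩
  refine ⟨hxu, ?_, ?_⟩
  · rw [← sub_eq_zero]
    apply SC.n2_eq_zero h
    refine le_antisymm (le_of_forall_pos_le_add fun ε hε => ?_) (SC.n2_nonneg _)
    rw [zero_add]
    obtain ⟨y, hy, hlt⟩ := hx (ε / (‖(1 - e : N)‖ + 1)) (by positivity)
    have e1 : x * (1 - e) - (1 - e) = (x - y) * (1 - e) := by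
      rw [sub_mul, hy.2.1]
    rw [e1]
    refine (SC.n2_mul_le' h _ _).trans ?_
    rw [lt_div_iff₀ (by positivity)] at hlt
    have h3 : n2 τ (x - y) * ‖(1 - e : N)‖ ≤ n2 τ (x - y) * (‖(1 - e : N)‖ + 1) :=
      mul_le_mul_of_nonneg_left (by linarith) (SC.n2_nonneg _)
    linarith
  · rw [← sub_eq_zero]
    apply SC.n2_eq_zero h
    refine le_antisymm (le_of_forall_pos_le_add fun ε hε => ?_) (SC.n2_nonneg _)
    rw [zero_add]
    obtain ⟨y, hy, hlt⟩ := hx (ε / (‖(1 - e : N)‖ + 1)) (by positivity)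
    have e1 : (1 - e) * x - (1 - e) = (1 - e) * (x - y) := by
      rw [mul_sub (1 - e), hy.2.2]
    rw [e1]
    refine (SC.n2_mul_le h _ _).trans ?_
    rw [lt_div_iff₀ (by positivity)] at hlt
    have h3 : ‖(1 - e : N)‖ * n2 τ (x - y) ≤ (‖(1 - e : N)‖ + 1) * n2 τ (x - y) :=
      mul_le_mul_of_nonneg_right (by linarith) (SC.n2_nonneg _)
    linarith

theorem loc_near (h : IsII1 τ) (hU : (U : Filter ℕ) ≤ cofinite) {e u : N} (he : IsProj e)
    (hu : u ∈ Haar τ) (hinv : ∀ w ∈ LocU e, ∃ n, Path τ U n u (w * u * star w)) :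
    ∃ m : ℕ, ∃ r : ℝ, 0 < r ∧ ∀ w ∈ LocU e, n2 τ (w - 1) < r →
      Path τ U m u (w * u * star w) := by
  have _ := he
  have hH := hu
  have hcl : ∀ n : ℕ, ∀ x ∈ LocU e, (∀ ε : ℝ, 0 < ε → ∃ y ∈ LocU e,
      y ∈ {w : N | Path τ U n u (w * u * star w)} ∧ n2 τ (x - y) < ε) →
      x ∈ {w : N | Path τ U n u (w * u * star w)} := by
    intro n x hx hc
    have hx' : x ∈ unitary N := hx.1
    refine SC.path_closed h hU n hH (SC.haar_conj h hH hx') fun ε hε => ?_
    obtain ⟨y, hy, hyp, hlt⟩ := hc (ε / 2) (half_pos hε)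
    have hy' : y ∈ unitary N := hy.1
    refine ⟨u, y * u * star y, hyp, ?_, ?_⟩
    · rw [sub_self, SC.n2_zero]
      exact hε
    · have := SC.n2_conj_sub h hH.1 hx' hy'
      linarith
  obtain ⟨n, w₀, hw₀, r, hr, hball⟩ := SC.baire2 h (LocU e) (fun x hx => hx.1)
    ⟨1, locU_one⟩ (locU_closed h e)
    (fun n => {w : N | Path τ U n u (w * u * star w)}) hcl hinv
  have hw₀' : w₀ ∈ unitary N := hw₀.1
  refine ⟨n + n + 1, r, hr, fun w hw hwr => ?_⟩
  have h0 : Path τ U n u (w₀ * u * star w₀) :=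
    hball w₀ hw₀ (by rw [sub_self, SC.n2_zero]; exact hr)
  have h1 : Path τ U n u (w₀ * w * u * star (w₀ * w)) := by
    refine hball (w₀ * w) (locU_mul hw₀ hw) ?_
    have e : w₀ * w - w₀ = w₀ * (w - 1) := by rw [mul_sub, mul_one]
    rw [e, SC.n2_unitary_left hw₀']
    exact hwr
  have h2 := SC.path_conj h (SC.star_mem' hw₀') (SC.path_trans (SC.path_symm h0) h1)
  have e1 : ∀ x : N, star w₀ * (w₀ * x * star w₀) * star (star w₀) = x := by
    intro x
    rw [star_star]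
    calc star w₀ * (w₀ * x * star w₀) * w₀ = (star w₀ * w₀) * x * (star w₀ * w₀) := by
          simp only [mul_assoc]
      _ = x := by rw [Unitary.star_mul_self_of_mem hw₀', one_mul, mul_one]
  have e2 : w₀ * w * u * star (w₀ * w) = w₀ * (w * u * star w) * star w₀ := by
    rw [star_mul]
    simp only [mul_assoc]
  rw [e2, e1, e1] at h2
  exact h2

theorem loc_exp (h : IsII1 τ) (hU : (U : Filter ℕ) ≤ cofinite) {e u : N} (he : IsProj e)
    (hu : u ∈ Haar τ) (hinv : ∀ w ∈ LocU e, ∃ n, Path τ U n u (w * u * star w)) :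
    ∃ L : ℕ, ∀ y : N, star y = -y → e * y = y → y * e = y → ‖y‖ ≤ 7 →
      Path τ U L u (NormedSpace.exp y * u * star (NormedSpace.exp y)) := by
  obtain ⟨m, r, hr, hp⟩ := loc_near h hU he hu hinv
  obtain ⟨k, hk⟩ := exists_nat_gt (7 / r)
  have hk0 : (0 : ℝ) < k := lt_trans (by positivity) hk
  have hk7 : 7 < k * r := by
    rw [div_lt_iff₀ hr] at hk
    exact hk
  refine ⟨k * (m + 1), fun y hy hey hye hy7 => ?_⟩
  have hkC : (k : ℂ) ≠ 0 := by
    intro h0
    rw [Nat.cast_eq_zero] at h0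
    rw [h0, Nat.cast_zero] at hk0
    exact lt_irrefl _ hk0
  have hs : star ((k : ℂ)⁻¹ • y) = -((k : ℂ)⁻¹ • y) := by
    rw [star_smul, hy, smul_neg]
    congr 2
    simp
  have hu1 : NormedSpace.exp ((k : ℂ)⁻¹ • y) ∈ unitary N := SC.exp_skew_unitary hs
  have hc := exp_corner he (y := (k : ℂ)⁻¹ • y) (by rw [mul_smul_comm, hey])
    (by rw [smul_mul_assoc, hye])
  have hu2 : NormedSpace.exp ((k : ℂ)⁻¹ • y) ∈ LocU e := ⟨hu1, hc.1, hc.2⟩
  have hpow : NormedSpace.exp ((k : ℂ)⁻¹ • y) ^ k = NormedSpace.exp y := by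
    let _ : NormedAlgebra ℚ N := NormedAlgebra.restrictScalars ℚ ℂ N
    rw [← NormedSpace.exp_nsmul, ← Nat.cast_smul_eq_nsmul ℂ, smul_smul, mul_inv_cancel₀ hkC,
      one_smul]
  have hn : n2 τ (NormedSpace.exp ((k : ℂ)⁻¹ • y) - 1) < r := by
    have h1 := SC.exp_lip h hs (z := 0) (by rw [star_zero, neg_zero])
    rw [NormedSpace.exp_zero, sub_zero, SC.n2_smul h, norm_inv, Complex.norm_natCast] at h1
    have h2 : (k : ℝ)⁻¹ * n2 τ y ≤ (k : ℝ)⁻¹ * 7 :=
      mul_le_mul_of_nonneg_left ((SC.n2_le_norm h y).trans hy7) (by positivity)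
    have h3 : (k : ℝ)⁻¹ * 7 < r := by
      rw [inv_mul_lt_iff₀ hk0]
      exact hk7
    linarith
  have h4 := SC.O4_pow h hu hu1 (hp _ hu2 hn) k
  rw [hpow] at h4
  exact h4

end AM
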