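import Pool.Agent.H77.AM.Cg
import Pool.Agent.H77.AM.Ct
import Pool.Agent.H77.SC.Ux
import Pool.Agent.H77.SC.Cp4

/-!
# Qd: conjugates of a Haar unitary of the corner are dense

In the II₁ factor `Cn e` (`cn_II1`): `SC.haar_conj_dense` gives `c ∈ unitary (Cn e)` with `c a₀ c*` close to `a'`, `SC.unitary_exp`
gives `y'` with `star y' = -y'`, `‖y'‖ ≤ 7` and `exp y'` close to `c` (`SC.n2_conj_sub`).  Take `y = val y'`; `n2_cn`.
`exp_val`: `exp (val y') = val (exp y') + (1 - e)`: the map `Cn e → N`, `x ↦ val x + ` (unit part) is not unital, so compare the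
series: `val (y'^n) = (val y')^n` for `n ≥ 1` (`val_pow`), `val 1 = e`; `val` is linear and continuous (norm preserving),
`NormedSpace.exp_eq_tsum` / `NormedSpace.expSeries_div_hasSum_exp`.
(Alternatively: `g(t) = val (exp (t y')) + (1 - e)` solves `g' = (val y') g`, `g(0) = 1`.)
-/

open Filter Topology

namespace AM

open SC ST

variable {N : Type*} [CStarAlgebra N] {τ : N →ₗ[ℂ] ℂ} {U : Ultrafilter ℕ}

theorem exp_val {e : N} {he : IsProj e} (y : Cn e he) :
    NormedSpace.exp (val y) = val (NormedSpace.exp y) + (1 - e) := by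
  have h1 := NormedSpace.exp_series_hasSum_exp' (𝕂 := ℂ) y
  have hc : Continuous (fun x : Cn e he => val x) := by
    have hi : Isometry (fun x : Cn e he => val x) :=
      Isometry.of_dist_eq fun a b => by rw [dist_eq_norm, dist_eq_norm, ← val_sub, norm_val]
    exact hi.continuous
  let V : Cn e he →+ N :=
    { toFun := fun x => val x
      map_zero' := val_zero
      map_add' := val_add }
  have h2 := h1.map V hc
  have h3 := NormedSpace.exp_series_hasSum_exp' (𝕂 := ℂ) (val y)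
  have h4 := h3.sub h2
  have h5 : HasSum (fun n : ℕ => ((Nat.factorial n : ℂ)⁻¹) • val y ^ n -
      (V ∘ fun n : ℕ => ((Nat.factorial n : ℂ)⁻¹) • y ^ n) n) (1 - e) := by
    have h6 := hasSum_single (f := fun n : ℕ => ((Nat.factorial n : ℂ)⁻¹) • val y ^ n -
      (V ∘ fun n : ℕ => ((Nat.factorial n : ℂ)⁻¹) • y ^ n) n) 0 (by
        intro n hn
        show ((Nat.factorial n : ℂ)⁻¹) • val y ^ n - val (((Nat.factorial n : ℂ)⁻¹) • y ^ n) = 0
        rw [val_smul, val_pow y n (Nat.one_le_iff_ne_zero.2 hn), sub_self])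
    have h7 : ((Nat.factorial 0 : ℂ)⁻¹) • val y ^ 0 -
      (V ∘ fun n : ℕ => ((Nat.factorial n : ℂ)⁻¹) • y ^ n) 0 = 1 - e := by
      show ((Nat.factorial 0 : ℂ)⁻¹) • val y ^ 0 - val (((Nat.factorial 0 : ℂ)⁻¹) • y ^ 0) = 1 - e
      rw [val_smul, pow_zero, pow_zero, val_one, Nat.factorial_zero, Nat.cast_one, inv_one, one_smul,
        one_smul]
    rw [← h7]
    exact h6
  have h8 := h4.unique h5
  have h9 : NormedSpace.exp (val y) - val (NormedSpace.exp y) = 1 - e := h8
  rw [← h9]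
  abel

theorem corner_conj_dense (h : IsII1 τ) {e : N} (he : IsProj e) (he0 : e ≠ 0) {a a' : N}
    (ha : a ∈ CHaar τ e) (ha' : a' ∈ CHaar τ e) (ε : ℝ) (hε : 0 < ε) :
    ∃ y : N, star y = -y ∧ e * y = y ∧ y * e = y ∧ ‖y‖ ≤ 7 ∧
      n2 τ (a' - NormedSpace.exp y * a * star (NormedSpace.exp y)) < ε := by
  have h' : IsII1 (ctau τ e he) := cn_II1 h he he0 ⟨a, ha⟩
  have hH : ∀ u : N, u ∈ CHaar τ e → ∃ A : Cn e he, val A = u ∧ A ∈ Haar (ctau τ e he) := by
    rintro u ⟨⟨u1, u2, u3, u4⟩, u5⟩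
    refine ⟨mk u ⟨u1, u2⟩, val_mk _ _, ?_, ?_⟩
    · rw [Unitary.mem_iff]
      exact ⟨val_inj (by rw [val_mul, val_star, val_mk, u3, val_one]),
        val_inj (by rw [val_mul, val_star, val_mk, u4, val_one])⟩
    · intro m hm
      rw [ctau_apply, val_pow _ m hm, val_mk, u5 m hm, mul_zero]
  obtain ⟨A, hA, hAH⟩ := hH a ha
  obtain ⟨A', hA', hAH'⟩ := hH a' ha'
  obtain ⟨c, hc, hcd⟩ := haar_conj_dense h' hAH hAH' (ε / 2) (by positivity)
  obtain ⟨y, hys, hyn, hyd⟩ := unitary_exp h' hc (ε / 4) (by positivity)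
  have h1 := n2_conj_sub h' hAH.1 hc (exp_skew_unitary hys)
  have h2 := n2_sub_le h' A' (c * A * star c) (NormedSpace.exp y * A * star (NormedSpace.exp y))
  have h3 : n2 (ctau τ e he) (A' - c * A * star c) < ε / 2 := by
    rw [SC.n2_sub_comm]
    exact hcd
  have h4 : n2 (ctau τ e he) (A' - NormedSpace.exp y * A * star (NormedSpace.exp y)) < ε := by
    linarith
  have h5 : star (val y) = -val y := by rw [← val_star, hys, val_neg]
  refine ⟨val y, h5, (val_mem y).1, (val_mem y).2, ?_, ?_⟩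
  · rw [norm_val]
    exact hyn
  have ha1 : (1 - e) * a = 0 := by rw [sub_mul, one_mul, ha.1.1, sub_self]
  have ha2 : a * (1 - e) = 0 := by rw [mul_sub, mul_one, ha.1.2.1, sub_self]
  have hse : star (1 - e) = 1 - e := by rw [star_sub, star_one, he.1]
  have h6 : NormedSpace.exp (val y) * a * star (NormedSpace.exp (val y)) =
      val (NormedSpace.exp y) * a * star (val (NormedSpace.exp y)) := by
    rw [exp_val, star_add, hse, add_mul, ha1, add_zero, mul_add, mul_assoc _ a (1 - e), ha2,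
      mul_zero, add_zero]
  have h7 : a' - NormedSpace.exp (val y) * a * star (NormedSpace.exp (val y)) =
      val (A' - NormedSpace.exp y * A * star (NormedSpace.exp y)) := by
    rw [h6, val_sub, val_mul, val_mul, val_star, hA, hA']
  rw [h7]
  have hp := tau_pos h he he0
  have hle : (τ e).re ≤ 1 := (ST.proj_tau (isTr_of_isII1 h) he).2.2.1
  have hs : 0 < Real.sqrt (τ e).re := Real.sqrt_pos.2 hp.1
  have hs1 : Real.sqrt (τ e).re ≤ 1 := by
    rw [← Real.sqrt_one]
    exact Real.sqrt_le_sqrt hle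
  rw [n2_cn h he he0] at h4
  have h8 : n2 τ (val (A' - NormedSpace.exp y * A * star (NormedSpace.exp y))) <
      ε * Real.sqrt (τ e).re := by
    rwa [inv_mul_lt_iff₀ hs, mul_comm] at h4
  have h9 : ε * Real.sqrt (τ e).re ≤ ε := by nlinarith
  exact lt_of_lt_of_le h8 h9

end AM
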