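import Pool.Agent.H77.AM.Qa
import Pool.Agent.H77.AM.Qd
import Pool.Agent.H77.AM.Pc
import Pool.Agent.H77.SC.P1

/-!
# Qe: local conjugates of one Haar unitary

`conj_slice`: `z ∈ Haar τ` commutes with `e`, and `z` is joined to `w z w*` for all `w ∈ LocU e`.  Let `a₀ ∈ CHaar τ e`, `b ∈ CHaar τ (1 - e)`
commute with `z` (`ST.haar_corner`), `u = a₀ + b` (a Haar unitary commuting with `z`).  For `w ∈ LocU e`: `w u w*` commutes with
`w z w*`, so `u ~ z ~ w z w* ~ w u w*` (`path_comm`, `path_trans`, `path_symm`, `haar_conj`).  `loc_exp` gives `L`.  For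
`a' ∈ CHaar τ e`, `Path τ U L u (a' + b)` by `SC.path_closed` and `corner_conj_dense`:
`exp y (a₀ + b) (exp y)* = exp y a₀ (exp y)* + b` (`exp_corner`: `exp y * b = exp y * (1 - e) * b = b`, `b * star (exp y) = b`).
-/

open Filter Topology

namespace AM

open SC ST

variable {N : Type*} [CStarAlgebra N] {τ : N →ₗ[ℂ] ℂ} {U : Ultrafilter ℕ}

theorem conj_slice (h : IsII1 τ) (hU : (U : Filter ℕ) ≤ cofinite) {e z : N} (he : IsProj e)
    (he0 : e ≠ 0) (hz : z ∈ Haar τ) (hez : e * z = z * e)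
    (hinv : ∀ w ∈ LocU e, ∃ n, Path τ U n z (w * z * star w)) :
    ∃ b ∈ CHaar τ (1 - e), ∀ a ∈ CHaar τ e, ∀ a' ∈ CHaar τ e, ∃ n, Path τ U n (a + b) (a' + b) := by
  have hT : IsTr τ := isTr_of_isII1 h
  have he1 : e * (1 - e) = 0 := by rw [mul_sub, mul_one, he.2, sub_self]
  have h1e : (1 - e) * e = 0 := by rw [sub_mul, one_mul, he.2, sub_self]
  have hz' : (1 - e) * z = z * (1 - e) := by rw [sub_mul, mul_sub, one_mul, mul_one, hez]
  obtain ⟨a₀, c1, c2, c3, c4, c5, c6⟩ := ST.haar_corner hT hz he hez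
  obtain ⟨b, d1, d2, d3, d4, d5, d6⟩ := ST.haar_corner hT hz (proj_compl' he) hz'
  have ha₀ : a₀ ∈ CHaar τ e := ⟨⟨c2, c3, c4, c5⟩, c6⟩
  have hb : b ∈ CHaar τ (1 - e) := ⟨⟨d2, d3, d4, d5⟩, d6⟩
  have hH : ∀ a ∈ CHaar τ e, a + b ∈ Haar τ := by
    intro a ha
    rw [← chaar_one]
    have := chaar_add he1 h1e ha hb
    rwa [add_sub_cancel] at this
  have hu := hH a₀ ha₀
  have huz : (a₀ + b) * z = z * (a₀ + b) := by rw [add_mul, mul_add, c1, d1]
  have hinv' : ∀ w ∈ LocU e, ∃ n, Path τ U n (a₀ + b) (w * (a₀ + b) * star w) := by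
    intro w hw
    obtain ⟨n, hn⟩ := hinv w hw
    have p1 : Path τ U 0 (a₀ + b) z := path_comm hu hz huz
    have p2 : Path τ U 0 (w * z * star w) (w * (a₀ + b) * star w) :=
      path_conj h hw.1 (path_comm hz hu huz.symm)
    exact ⟨_, path_trans (path_trans p1 hn) p2⟩
  obtain ⟨L, hL⟩ := loc_exp h hU he hu hinv'
  have key : ∀ a' ∈ CHaar τ e, Path τ U L (a₀ + b) (a' + b) := by
    intro a' ha'
    refine path_closed h hU L hu (hH a' ha') fun ε hε => ?_
    obtain ⟨y, y1, y2, y3, y4, y5⟩ := corner_conj_dense h he he0 ha₀ ha' ε hε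
    refine ⟨a₀ + b, _, hL y y1 y2 y3 y4, ?_, ?_⟩
    · rw [sub_self, SC.n2_zero]
      exact hε
    · obtain ⟨x1, x2⟩ := exp_corner he y2 y3
      have x3 : NormedSpace.exp y * b = b := by
        calc NormedSpace.exp y * b = NormedSpace.exp y * ((1 - e) * b) := by rw [d2]
          _ = (NormedSpace.exp y * (1 - e)) * b := by rw [mul_assoc]
          _ = b := by rw [x1, d2]
      have x4 : (1 - e) * star (NormedSpace.exp y) = 1 - e := by
        have := congrArg star x1
        rwa [star_mul, star_sub, star_one, he.1] at this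
      have x5 : b * star (NormedSpace.exp y) = b := by
        calc b * star (NormedSpace.exp y) = (b * (1 - e)) * star (NormedSpace.exp y) := by rw [d3]
          _ = b * ((1 - e) * star (NormedSpace.exp y)) := by rw [mul_assoc]
          _ = b := by rw [x4, d3]
      have x6 : a' + b - NormedSpace.exp y * (a₀ + b) * star (NormedSpace.exp y)
          = a' - NormedSpace.exp y * a₀ * star (NormedSpace.exp y) := by
        rw [mul_add, x3, add_mul, x5]
        abel
      rw [x6]
      exact y5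
  exact ⟨b, hb, fun a ha a' ha' => ⟨_, path_trans (path_symm (key a ha)) (key a' ha')⟩⟩

/-- if one Haar unitary `z` is equivalent to all its conjugates by unitaries of a corner commuting
with `z` then `N` has a unique orbit -/
theorem conj_all (h : IsII1 τ) (hU : (U : Filter ℕ) ≤ cofinite) {e z : N} (he : IsProj e)
    (he0 : e ≠ 0) (hz : z ∈ Haar τ) (hez : e * z = z * e)
    (hinv : ∀ w ∈ LocU e, ∃ n, Path τ U n z (w * z * star w)) :
    ∃ n, ∀ u ∈ Haar τ, ∀ v ∈ Haar τ, Path τ U n u v := by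
  obtain ⟨b, hb, hsl⟩ := conj_slice h hU he he0 hz hez hinv
  exact slice_all h hU he he0 hb hsl

end AM
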